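import Mathlib
import Pool.Agent.R990.Nz

/-!
# Response of families of differences of transports to the noise
-/

open MeasureTheory Matrix Filter
open scoped Matrix.Norms.Frobenius ContDiff Topology
open Pool.Agent.H906R3.YM Pool.Agent.W793.YM Pool.Agent.Y14 Pool.Agent.R990

namespace Pool.Agent.MG990

set_option linter.unusedSectionVars false
set_option linter.unusedVariables false

noncomputable section

variable {N : ℕ} {E : Type*} [DecidableEq E] [Fintype E] {J : Finset E} {x : IJ J N → ℝ} {δ : ℝ}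
  {S : Finset E}

/-- the difference of two pairs -/
def ff (J : Finset E) (w : IJ J N → ℝ) (A R B M V : List E) : Mat N :=
  pq J w (A ++ R) B - pq J w (A ++ M) (B ++ V)

/-- the loop -/
def WW (J : Finset E) (w : IJ J N → ℝ) (R M V : List E) : Mat N :=
  pm J w R - pm J w M * (pm J w V)ᴴ

lemma ff_eq (w : IJ J N → ℝ) (A R B M V : List E) :
    ff J w A R B M V = pm J w A * (WW J w R M V * (pm J w B)ᴴ) := by
  unfold ff WW pq
  rw [pm_append, pm_append, pm_append, conjTranspose_mul]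
  noncomm_ring

lemma nsub2 {V : Type*} [SeminormedAddCommGroup V] (a b : V) :
    ‖a - b‖ ^ 2 ≤ 2 * (‖a‖ ^ 2 + ‖b‖ ^ 2) := by
  have h3 := norm_sub_le a b
  have h4 := norm_nonneg (a - b)
  nlinarith [sq_nonneg (‖a‖ - ‖b‖), norm_nonneg a, norm_nonneg b]

lemma nadd2 {V : Type*} [SeminormedAddCommGroup V] (a b : V) :
    ‖a + b‖ ^ 2 ≤ 2 * (‖a‖ ^ 2 + ‖b‖ ^ 2) := by
  have h3 := norm_add_le a b
  have h4 := norm_nonneg (a + b)
  nlinarith [sq_nonneg (‖a‖ - ‖b‖), norm_nonneg a, norm_nonneg b]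

lemma ind_WW {e : E} {R M V : List E} (hR : e ∉ R) (hM : e ∉ M) (hV : e ∉ V) :
    Ind e fun s : IJ J N → Bool => WW J (x + sgS S δ s) R M V := by
  intro s s' h
  unfold WW
  have h1 := ind_pmS (x := x) (δ := δ) (S := S) hR s s' h
  have h2 := ind_pmS (x := x) (δ := δ) (S := S) hM s s' h
  have h3 := ind_pmS (x := x) (δ := δ) (S := S) hV s s' h
  simp only at h1 h2 h3 ⊢
  rw [h1, h2, h3]

lemma WW_same {e : E} {R M V : List E} (hR : e ∉ R) (hM : e ∉ M) (hV : e ∉ V)
    (s : IJ J N → Bool) :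
    WW J (x + sgS (insert e S) δ s) R M V = WW J (x + sgS S δ s) R M V := by
  unfold WW
  rw [pm_ins hR, pm_ins hM, pm_ins hV]

lemma pow_le_pow_len {a b : ℕ} (h : a ≤ b) :
    (1 + 2 * (N : ℝ) * δ ^ 2) ^ a ≤ (1 + 2 * N * δ ^ 2) ^ b := by
  have h1 : (0 : ℝ) ≤ 2 * N * δ ^ 2 := by positivity
  exact pow_le_pow_right₀ (by linarith) h

/-- noise on the links of the ways to the loops -/
lemma stepAB {e : E} {A R B M V : List E} (hn : ((A ++ R) ++ B).Nodup)
    (hn' : ((A ++ M) ++ (B ++ V)).Nodup) (hu : Un J x ((A ++ R) ++ B)) (hS : e ∉ S)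
    (he : e ∈ A ++ B) {ℓ : ℕ} (hℓ : ((A ++ R) ++ B).length ≤ ℓ) :
    av (fun s => ‖ff J (x + sgS (insert e S) δ s) A R B M V -
      ff J (x + sgS S δ s) A R B M V‖ ^ 2) ≤
      2 * N * δ ^ 2 * ((1 + 2 * N * δ ^ 2) ^ ℓ *
        av (fun s => ‖WW J (x + sgS S δ s) R M V‖ ^ 2)) := by
  have hσ : (0 : ℝ) ≤ 2 * N * δ ^ 2 := by positivity
  have nAR := hn.of_append_left
  have nA : A.Nodup := nAR.of_append_left
  have nB : B.Nodup := hn.of_append_right
  have dARB := List.disjoint_of_nodup_append hn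
  have dAR := List.disjoint_of_nodup_append nAR
  have nAM := hn'.of_append_left
  have nBV := hn'.of_append_right
  have dAM := List.disjoint_of_nodup_append nAM
  have dBV := List.disjoint_of_nodup_append nBV
  have dAMBV := List.disjoint_of_nodup_append hn'
  have uA : Un J x A := hu.sub fun e' he' => by simp [he']
  have uB : Un J x B := hu.sub fun e' he' => by simp [he']
  have hAW : ∀ e' ∈ A, e' ∉ R ∧ e' ∉ M ∧ e' ∉ V ∧ e' ∉ B := fun e' he' =>
    ⟨fun h => dAR he' h, fun h => dAM he' h,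
      fun h => dAMBV (List.mem_append_left _ he') (List.mem_append_right _ h),
      fun h => dARB (List.mem_append_left _ he') h⟩
  have hBW : ∀ e' ∈ B, e' ∉ R ∧ e' ∉ M ∧ e' ∉ V ∧ e' ∉ A := fun e' he' =>
    ⟨fun h => dARB (List.mem_append_right _ h) he',
      fun h => dAMBV (List.mem_append_right _ h) (List.mem_append_left _ he'),
      fun h => dBV he' h, fun h => dARB (List.mem_append_left _ h) he'⟩
  have hlen : A.length + B.length ≤ ℓ := by
    simp only [List.length_append] at hℓ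
    omega
  have hav0 : 0 ≤ av (fun s => ‖WW J (x + sgS S δ s) R M V‖ ^ 2) := av_nonneg fun s => sq_nonneg _
  have hflipB : ∀ (X Y : Mat N), ‖X * Yᴴ‖ = ‖Y * Xᴴ‖ := fun X Y => by
    rw [← norm_ct (X * Yᴴ), conjTranspose_mul, conjTranspose_conjTranspose]
  rw [List.mem_append] at he
  rcases he with he | he
  · obtain ⟨hR, hM, hV, hB⟩ := hAW e he
    obtain ⟨l1, l2, rfl⟩ := List.append_of_mem he
    have e1 : e ∉ l1 := fun h => (List.disjoint_of_nodup_append nA) h List.mem_cons_self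
    have e2 : e ∉ l2 := (List.nodup_cons.1 nA.of_append_right).1
    have hD : ∀ s : IJ J N → Bool, ff J (x + sgS (insert e S) δ s) (l1 ++ e :: l2) R B M V -
        ff J (x + sgS S δ s) (l1 ++ e :: l2) R B M V =
        pm J (x + sgS S δ s) l1 * (mx J (sg δ s) e * (pm J (x + sgS S δ s) l2 *
        (WW J (x + sgS S δ s) R M V * (pm J (x + sgS S δ s) B)ᴴ))) := by
      intro s
      rw [ff_eq, ff_eq, pm_split e1 e2 hS, pm_ins hB, WW_same hR hM hV]
      noncomm_ring
    simp only [hD]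
    refine (one_link nA uA (Z := fun s => WW J (x + sgS S δ s) R M V *
      (pm J (x + sgS S δ s) B)ᴴ) fun e' he' => ?_).trans ?_
    · obtain ⟨h1, h2, h3, h4⟩ := hAW e' he'
      exact Ind.mul (ind_WW h1 h2 h3) (Ind.ct (ind_pmS h4))
    · refine mul_le_mul_of_nonneg_left ?_ hσ
      have h3 := peels (S := S) (δ := δ) nB uB (Z := fun s => (WW J (x + sgS S δ s) R M V)ᴴ)
        fun e' he' => by
          obtain ⟨h1, h2, h3, h4⟩ := hBW e' he'
          exact Ind.ct (ind_WW h1 h2 h3)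
      simp only [norm_ct] at h3
      simp only [hflipB (WW J _ R M V)]
      calc _ ≤ (1 + 2 * (N : ℝ) * δ ^ 2) ^ (l1.length + l2.length) *
            ((1 + 2 * N * δ ^ 2) ^ B.length *
              av (fun s => ‖WW J (x + sgS S δ s) R M V‖ ^ 2)) :=
            mul_le_mul_of_nonneg_left h3 (by positivity)
        _ = (1 + 2 * (N : ℝ) * δ ^ 2) ^ (l1.length + l2.length + B.length) *
              av (fun s => ‖WW J (x + sgS S δ s) R M V‖ ^ 2) := by
            rw [pow_add _ (l1.length + l2.length)]; ring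
        _ ≤ _ := by
            refine mul_le_mul_of_nonneg_right (pow_le_pow_len ?_) hav0
            simp only [List.length_append, List.length_cons] at hlen
            omega
  · obtain ⟨hR, hM, hV, hA⟩ := hBW e he
    obtain ⟨l1, l2, rfl⟩ := List.append_of_mem he
    have e1 : e ∉ l1 := fun h => (List.disjoint_of_nodup_append nB) h List.mem_cons_self
    have e2 : e ∉ l2 := (List.nodup_cons.1 nB.of_append_right).1
    have hD : ∀ s : IJ J N → Bool, ff J (x + sgS (insert e S) δ s) A R (l1 ++ e :: l2) M V -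
        ff J (x + sgS S δ s) A R (l1 ++ e :: l2) M V =
        pm J (x + sgS S δ s) A * (WW J (x + sgS S δ s) R M V *
          (pm J (x + sgS S δ s) l1 * (mx J (sg δ s) e * pm J (x + sgS S δ s) l2))ᴴ) := by
      intro s
      rw [ff_eq, ff_eq, pm_split e1 e2 hS, pm_ins hA, WW_same hR hM hV, conjTranspose_add]
      noncomm_ring
    simp only [hD]
    refine (peels nA uA (Z := fun s => WW J (x + sgS S δ s) R M V *
          (pm J (x + sgS S δ s) l1 * (mx J (sg δ s) e * pm J (x + sgS S δ s) l2))ᴴ)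
        fun e' he' => ?_).trans ?_
    · obtain ⟨h1, h2, h3, h4⟩ := hAW e' he'
      have h5 : e' ∉ l1 := fun h => h4 (by simp [h])
      have h6 : e' ∉ l2 := fun h => h4 (by simp [h])
      have h7 : e' ≠ e := fun h => h4 (by simp [h])
      exact Ind.mul (ind_WW h1 h2 h3) (Ind.ct (Ind.mul (ind_pmS h5) (Ind.mul
        (ind_mx (Ne.symm h7)) (ind_pmS h6))))
    · have h3 := one_link (S := S) (δ := δ) nB uB
        (Z := fun s => (WW J (x + sgS S δ s) R M V)ᴴ) fun e' he' => by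
          obtain ⟨h1, h2, h3, h4⟩ := hBW e' he'
          exact Ind.ct (ind_WW h1 h2 h3)
      simp only [norm_ct] at h3
      have h4 : ∀ s : IJ J N → Bool, ‖WW J (x + sgS S δ s) R M V *
          (pm J (x + sgS S δ s) l1 * (mx J (sg δ s) e * pm J (x + sgS S δ s) l2))ᴴ‖ =
          ‖pm J (x + sgS S δ s) l1 * (mx J (sg δ s) e * (pm J (x + sgS S δ s) l2 *
            (WW J (x + sgS S δ s) R M V)ᴴ))‖ := by
        intro s
        rw [hflipB]
        congr 1
        simp only [Matrix.mul_assoc]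
      simp only [h4]
      calc _ ≤ (1 + 2 * (N : ℝ) * δ ^ 2) ^ A.length * (2 * N * δ ^ 2 *
            ((1 + 2 * N * δ ^ 2) ^ (l1.length + l2.length) *
              av (fun s => ‖WW J (x + sgS S δ s) R M V‖ ^ 2))) :=
            mul_le_mul_of_nonneg_left h3 (by positivity)
        _ = 2 * N * δ ^ 2 * ((1 + 2 * (N : ℝ) * δ ^ 2) ^ (A.length + (l1.length + l2.length)) *
              av (fun s => ‖WW J (x + sgS S δ s) R M V‖ ^ 2)) := by
            rw [pow_add _ A.length]; ring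
        _ ≤ _ := by
            refine mul_le_mul_of_nonneg_left (mul_le_mul_of_nonneg_right (pow_le_pow_len ?_)
              hav0) hσ
            simp only [List.length_append, List.length_cons] at hlen
            omega

/-- noise on one link for a pair -/
lemma pair_any {e : E} {A B : List E} (hn : (A ++ B).Nodup) (hu : Un J x (A ++ B))
    (hS : e ∉ S) {ℓ : ℕ} (hℓ : (A ++ B).length ≤ ℓ) :
    (∀ s : IJ J N → Bool, pq J (x + sgS (insert e S) δ (fl (fun i : IJ J N => i.1.1 = e) s)) A B -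
        pq J (x + sgS S δ (fl (fun i : IJ J N => i.1.1 = e) s)) A B =
      -(pq J (x + sgS (insert e S) δ s) A B - pq J (x + sgS S δ s) A B)) ∧
    av (fun s => ‖pq J (x + sgS (insert e S) δ s) A B - pq J (x + sgS S δ s) A B‖ ^ 2) ≤
      2 * N * δ ^ 2 * ((1 + 2 * N * δ ^ 2) ^ ℓ * N) := by
  have hN0 : (0 : ℝ) ≤ N := Nat.cast_nonneg _
  have hσ : (0 : ℝ) ≤ 2 * N * δ ^ 2 := by positivity
  by_cases he : e ∈ A ++ B
  · obtain ⟨h1, h2⟩ := pair_step (x := x) (δ := δ) hn hu hS he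
    refine ⟨h1, h2.trans ?_⟩
    exact mul_le_mul_of_nonneg_left (mul_le_mul_of_nonneg_right (pow_le_pow_len hℓ) hN0) hσ
  · refine ⟨fun s => ?_, ?_⟩
    · rw [pq_same he, pq_same he, sub_self, sub_self, neg_zero]
    · have h1 : ∀ s : IJ J N → Bool,
          ‖pq J (x + sgS (insert e S) δ s) A B - pq J (x + sgS S δ s) A B‖ ^ 2 = 0 := fun s => by
        rw [pq_same he, sub_self, norm_zero]; ring
      simp only [h1, av_const]
      positivity

lemma ff_flip {e : E} {A R B M V : List E} (hn : ((A ++ R) ++ B).Nodup)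
    (hn' : ((A ++ M) ++ (B ++ V)).Nodup) (hu : Un J x ((A ++ R) ++ B))
    (hu' : Un J x ((A ++ M) ++ (B ++ V))) (hS : e ∉ S) (s : IJ J N → Bool) :
    ff J (x + sgS (insert e S) δ (fl (fun i : IJ J N => i.1.1 = e) s)) A R B M V -
      ff J (x + sgS S δ (fl (fun i : IJ J N => i.1.1 = e) s)) A R B M V =
    -(ff J (x + sgS (insert e S) δ s) A R B M V - ff J (x + sgS S δ s) A R B M V) := by
  have h1 := (pair_any (x := x) (δ := δ) hn hu hS le_rfl).1 s
  have h2 := (pair_any (x := x) (δ := δ) hn' hu' hS le_rfl).1 s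
  unfold ff
  have h3 : ∀ a b c d : Mat N, a - b - (c - d) = (a - c) - (b - d) := fun a b c d => by abel
  rw [h3, h1, h2, h3]
  abel

/-- noise on one link -/
lemma stepM {e : E} {A R B M V : List E} (hn : ((A ++ R) ++ B).Nodup)
    (hn' : ((A ++ M) ++ (B ++ V)).Nodup) (hu : Un J x ((A ++ R) ++ B))
    (hu' : Un J x ((A ++ M) ++ (B ++ V))) (hS : e ∉ S) {ℓ : ℕ}
    (hℓ : ((A ++ R) ++ B).length ≤ ℓ) (hℓ' : ((A ++ M) ++ (B ++ V)).length ≤ ℓ) :
    av (fun s => ‖ff J (x + sgS (insert e S) δ s) A R B M V -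
      ff J (x + sgS S δ s) A R B M V‖ ^ 2) ≤
      4 * (2 * N * δ ^ 2 * ((1 + 2 * N * δ ^ 2) ^ ℓ * N)) := by
  have h1 := (pair_any (x := x) (δ := δ) hn hu hS hℓ).2
  have h2 := (pair_any (x := x) (δ := δ) hn' hu' hS hℓ').2
  have h3 : ∀ s : IJ J N → Bool, ‖ff J (x + sgS (insert e S) δ s) A R B M V -
      ff J (x + sgS S δ s) A R B M V‖ ^ 2 ≤
      2 * (‖pq J (x + sgS (insert e S) δ s) (A ++ R) B - pq J (x + sgS S δ s) (A ++ R) B‖ ^ 2 +
        ‖pq J (x + sgS (insert e S) δ s) (A ++ M) (B ++ V) -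
          pq J (x + sgS S δ s) (A ++ M) (B ++ V)‖ ^ 2) := by
    intro s
    have h4 : ff J (x + sgS (insert e S) δ s) A R B M V - ff J (x + sgS S δ s) A R B M V =
        (pq J (x + sgS (insert e S) δ s) (A ++ R) B - pq J (x + sgS S δ s) (A ++ R) B) -
        (pq J (x + sgS (insert e S) δ s) (A ++ M) (B ++ V) -
          pq J (x + sgS S δ s) (A ++ M) (B ++ V)) := by
      unfold ff
      abel
    rw [h4]
    exact nsub2 _ _
  refine (av_mono h3).trans ?_
  rw [av_smul, av_add]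
  linarith

lemma ff_same {e : E} {A R B M V : List E} (h1 : e ∉ A ++ B) (h2 : e ∉ R ++ (M ++ V))
    (s : IJ J N → Bool) :
    ff J (x + sgS (insert e S) δ s) A R B M V = ff J (x + sgS S δ s) A R B M V := by
  simp only [List.mem_append, not_or] at h1 h2
  unfold ff
  rw [pq_same (by simp [h1, h2]), pq_same (by simp [h1, h2])]

/-- the number of the links of a list in a set -/
lemma nm_single {ι : Type*} (o : ι) (A : ι → List E) (S : Finset E) :
    ∑ e ∈ S, (nm {o} A e : ℝ) ^ 2 ≤ (A o).length := by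
  classical
  have h1 : ∀ e ∈ S, (nm {o} A e : ℝ) ^ 2 = if e ∈ A o then 1 else 0 := by
    intro e _
    unfold nm
    split_ifs with h
    · rw [Finset.filter_true_of_mem fun o' ho' => by
        rw [Finset.mem_singleton] at ho'; rw [ho']; exact h]
      simp
    · rw [Finset.filter_false_of_mem fun o' ho' => by
        rw [Finset.mem_singleton] at ho'; rw [ho']; exact h]
      simp
  rw [Finset.sum_congr rfl h1, ← Finset.sum_filter, Finset.sum_const, nsmul_eq_mul, mul_one]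
  have h2 : (S.filter fun e => e ∈ A o) ⊆ (A o).toFinset := fun e he => by
    rw [Finset.mem_filter] at he
    exact List.mem_toFinset.2 he.2
  exact_mod_cast (Finset.card_le_card h2).trans (List.toFinset_card_le _)

/-- noise for one pair -/
lemma pair_noise {A B : List E} (hn : (A ++ B).Nodup) (hu : Un J x (A ++ B)) {ℓ : ℕ}
    (hℓ : (A ++ B).length ≤ ℓ) (hδ : 2 * N * δ ^ 2 * ℓ ≤ 1) :
    av (fun s => ‖pq J (x + sgS S δ s) A B - pq J x A B‖ ^ 2) ≤
      2 * N * δ ^ 2 * (3 * N) * ℓ := by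
  have hN0 : (0 : ℝ) ≤ N := Nat.cast_nonneg _
  have hσ : (0 : ℝ) ≤ 2 * N * δ ^ 2 := by positivity
  have h1 := fam_aux (x := x) (δ := δ) (ι := Unit) (O := {()}) (A := fun _ => A) (B := fun _ => B)
    (fun _ _ => hn) (fun _ _ => hu) (ℓ := ℓ) (fun _ _ => hℓ) S
  have h0 : ∀ s : IJ J N → Bool, sgS (∅ : Finset E) δ s = 0 := fun s => by
    funext i; unfold sgS; simp
  simp only [Finset.sum_singleton, h0, add_zero] at h1
  refine h1.trans ?_
  have h2 := nm_single (E := E) () (fun _ => A ++ B) S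
  have h3 : ((A ++ B).length : ℝ) ≤ ℓ := by exact_mod_cast hℓ
  have h4 := pow_le_three hσ le_rfl hδ
  exact mul_le_mul (mul_le_mul_of_nonneg_left (mul_le_mul_of_nonneg_right h4 hN0) hσ)
    (h2.trans h3) (Finset.sum_nonneg fun e _ => sq_nonneg _) (by positivity)

/-- noise for the loops -/
lemma WW_noise {R M V : List E} (hnR : R.Nodup) (hn : (M ++ V).Nodup) (huR : Un J x R)
    (hu : Un J x (M ++ V)) {ℓ : ℕ} (hℓR : R.length ≤ ℓ)
    (hℓ : (M ++ V).length ≤ ℓ) (hδ : 2 * N * δ ^ 2 * ℓ ≤ 1) :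
    av (fun s => ‖WW J (x + sgS S δ s) R M V‖ ^ 2) ≤
      2 * ‖WW J x R M V‖ ^ 2 + 8 * (2 * N * δ ^ 2 * (3 * N) * ℓ) := by
  have h1 := pair_noise (S := S) (x := x) (δ := δ) (A := R) (B := []) (by simpa using hnR)
    (by simpa using huR) (ℓ := ℓ) (by simpa using hℓR) hδ
  have h2 := pair_noise (S := S) (x := x) (δ := δ) hn hu hℓ hδ
  have h3 : ∀ s : IJ J N → Bool, ‖WW J (x + sgS S δ s) R M V‖ ^ 2 ≤
      2 * ‖WW J x R M V‖ ^ 2 + 4 * (‖pq J (x + sgS S δ s) R [] - pq J x R []‖ ^ 2 +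
        ‖pq J (x + sgS S δ s) M V - pq J x M V‖ ^ 2) := by
    intro s
    have e1 : ∀ w : IJ J N → ℝ, pq J w R [] = pm J w R := fun w => by
      unfold pq
      rw [pm_nil, conjTranspose_one, mul_one]
    have e2 : WW J (x + sgS S δ s) R M V = WW J x R M V +
        ((pq J (x + sgS S δ s) R [] - pq J x R []) -
          (pq J (x + sgS S δ s) M V - pq J x M V)) := by
      rw [e1, e1]
      unfold WW pq
      abel
    rw [e2]
    have h4 := nadd2 (WW J x R M V) ((pq J (x + sgS S δ s) R [] - pq J x R []) -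
          (pq J (x + sgS S δ s) M V - pq J x M V))
    have h5 := nsub2 (pq J (x + sgS S δ s) R [] - pq J x R [])
      (pq J (x + sgS S δ s) M V - pq J x M V)
    linarith
  refine (av_mono h3).trans ?_
  rw [av_add, av_const, av_smul, av_add]
  linarith

theorem diff_aux {ι : Type*} {O : Finset ι} {A R B M V : ι → List E}
    (hn : ∀ o ∈ O, ((A o ++ R o) ++ B o).Nodup)
    (hn' : ∀ o ∈ O, ((A o ++ M o) ++ (B o ++ V o)).Nodup)
    (hu : ∀ o ∈ O, Un J x ((A o ++ R o) ++ B o))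
    (hu' : ∀ o ∈ O, Un J x ((A o ++ M o) ++ (B o ++ V o))) {ℓ : ℕ}
    (hℓ : ∀ o ∈ O, ((A o ++ R o) ++ B o).length ≤ ℓ)
    (hℓ' : ∀ o ∈ O, ((A o ++ M o) ++ (B o ++ V o)).length ≤ ℓ)
    (hδ : 2 * N * δ ^ 2 * ℓ ≤ 1) (S : Finset E) :
    av (fun s => ‖∑ o ∈ O, ff J (x + sgS S δ s) (A o) (R o) (B o) (M o) (V o) -
      ∑ o ∈ O, ff J x (A o) (R o) (B o) (M o) (V o)‖ ^ 2) ≤
      ∑ e ∈ S, (2 * ((nm O (fun o => A o ++ B o) e : ℝ) *
        ∑ o ∈ O.filter (fun o => e ∈ A o ++ B o), 6 * N * δ ^ 2 *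
          (2 * ‖WW J x (R o) (M o) (V o)‖ ^ 2 + 8 * (2 * N * δ ^ 2 * (3 * N) * ℓ))) +
        2 * ((nm O (fun o => R o ++ (M o ++ V o)) e : ℝ) ^ 2 *
          (4 * (2 * N * δ ^ 2 * (3 * N))))) := by
  classical
  have hσ : (0 : ℝ) ≤ 2 * N * δ ^ 2 := by positivity
  have hN0 : (0 : ℝ) ≤ N := Nat.cast_nonneg _
  have h3 := pow_le_three hσ le_rfl hδ
  have h0 : ∀ s : IJ J N → Bool, sgS (∅ : Finset E) δ s = 0 := fun s => by
    funext i; unfold sgS; simp
  induction S using Finset.induction_on with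
  | empty => simp [h0, av_const]
  | insert e S he ih =>
    obtain ⟨F, hF⟩ : ∃ F : ι → (IJ J N → ℝ) → Mat N, F = fun o w =>
      ff J w (A o) (R o) (B o) (M o) (V o) := ⟨_, rfl⟩
    have hFe : ∀ o w, ff J w (A o) (R o) (B o) (M o) (V o) = F o w := fun o w => by rw [hF]
    simp only [hFe] at ih ⊢
    obtain ⟨X, hX⟩ : ∃ X : (IJ J N → Bool) → Mat N, X = fun s =>
      ∑ o ∈ O, F o (x + sgS S δ s) - ∑ o ∈ O, F o x := ⟨_, rfl⟩
    obtain ⟨D, hD⟩ : ∃ D : (IJ J N → Bool) → Mat N, D = fun s =>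
      ∑ o ∈ O, (F o (x + sgS (insert e S) δ s) - F o (x + sgS S δ s)) := ⟨_, rfl⟩
    have hXD : ∀ s, ∑ o ∈ O, F o (x + sgS (insert e S) δ s) - ∑ o ∈ O, F o x = X s + D s := by
      intro s
      rw [hX, hD]
      simp only
      rw [Finset.sum_sub_distrib]
      abel
    have hXf : ∀ s, X (fl (fun i : IJ J N => i.1.1 = e) s) = X s := by
      intro s
      rw [hX]
      simp only [sgS_fl he]
    have hDf : ∀ s, D (fl (fun i : IJ J N => i.1.1 = e) s) = -D s := by
      intro s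
      rw [hD]
      simp only
      rw [← Finset.sum_neg_distrib]
      refine Finset.sum_congr rfl fun o ho => ?_
      rw [hF]
      exact ff_flip (hn o ho) (hn' o ho) (hu o ho) (hu' o ho) he s
    have hcross : av (fun s => 2 * ip (X s) (D s)) = 0 := by
      refine av_odd (S := fun i : IJ J N => i.1.1 = e) fun s => ?_
      rw [hXf, hDf, map_neg]
      ring
    obtain ⟨O1, hO1⟩ : ∃ O1, O1 = O.filter (fun o => e ∈ A o ++ B o) := ⟨_, rfl⟩
    obtain ⟨O2, hO2⟩ : ∃ O2, O2 = O.filter (fun o => e ∈ R o ++ (M o ++ V o)) := ⟨_, rfl⟩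
    have hdec : ∀ s, ‖D s‖ ^ 2 ≤
        2 * ((nm O (fun o => A o ++ B o) e : ℝ) *
          ∑ o ∈ O1, ‖F o (x + sgS (insert e S) δ s) - F o (x + sgS S δ s)‖ ^ 2) +
        2 * ((nm O (fun o => R o ++ (M o ++ V o)) e : ℝ) *
          ∑ o ∈ O2, ‖F o (x + sgS (insert e S) δ s) - F o (x + sgS S δ s)‖ ^ 2) := by
      intro s
      obtain ⟨d, hd⟩ : ∃ d : ι → Mat N, d = fun o =>
        F o (x + sgS (insert e S) δ s) - F o (x + sgS S δ s) := ⟨_, rfl⟩
      have hDs : D s = ∑ o ∈ O1, d o + ∑ o ∈ O2.filter (fun o => e ∉ A o ++ B o), d o := by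
        rw [hD, hd]
        simp only
        rw [← Finset.sum_filter_add_sum_filter_not O (fun o => e ∈ A o ++ B o), ← hO1]
        congr 1
        have hsub : O2.filter (fun o => e ∉ A o ++ B o) ⊆
            O.filter (fun o => e ∉ A o ++ B o) := by
          rw [hO2]
          exact Finset.filter_subset_filter _ (Finset.filter_subset _ _)
        refine (Finset.sum_subset hsub fun o ho ho' => ?_).symm
        rw [Finset.mem_filter] at ho
        have h5 : e ∉ R o ++ (M o ++ V o) := fun h6 => ho' (by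
          rw [Finset.mem_filter, hO2, Finset.mem_filter]
          exact ⟨⟨ho.1, h6⟩, ho.2⟩)
        rw [hF]
        simp only
        rw [ff_same ho.2 h5, sub_self]
      have hde : ∀ o, F o (x + sgS (insert e S) δ s) - F o (x + sgS S δ s) = d o := fun o => by
        rw [hd]
      simp only [hde]
      rw [hDs]
      refine (nadd2 _ _).trans ?_
      rw [mul_add]
      have h5 := nsq_sum_le O1 d
      have h6 := nsq_sum_le (O2.filter (fun o => e ∉ A o ++ B o)) d
      have h7 : ((O2.filter (fun o => e ∉ A o ++ B o)).card : ℝ) ≤ (O2.card : ℝ) := by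
        exact_mod_cast Finset.card_le_card (Finset.filter_subset _ _)
      have h8 : ∑ o ∈ O2.filter (fun o => e ∉ A o ++ B o), ‖d o‖ ^ 2 ≤ ∑ o ∈ O2, ‖d o‖ ^ 2 :=
        Finset.sum_le_sum_of_subset_of_nonneg (Finset.filter_subset _ _)
          fun _ _ _ => sq_nonneg _
      have h9 : ((O2.filter (fun o => e ∉ A o ++ B o)).card : ℝ) *
          ∑ o ∈ O2.filter (fun o => e ∉ A o ++ B o), ‖d o‖ ^ 2 ≤
          (O2.card : ℝ) * ∑ o ∈ O2, ‖d o‖ ^ 2 :=
        mul_le_mul h7 h8 (Finset.sum_nonneg fun _ _ => sq_nonneg _) (Nat.cast_nonneg _)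
      have n1 : (nm O (fun o => A o ++ B o) e : ℝ) = O1.card := by rw [hO1]; rfl
      have n2 : (nm O (fun o => R o ++ (M o ++ V o)) e : ℝ) = O2.card := by rw [hO2]; rfl
      rw [n1, n2]
      linarith
    have hDn : av (fun s => ‖D s‖ ^ 2) ≤ 2 * ((nm O (fun o => A o ++ B o) e : ℝ) *
        ∑ o ∈ O1, 6 * N * δ ^ 2 *
          (2 * ‖WW J x (R o) (M o) (V o)‖ ^ 2 + 8 * (2 * N * δ ^ 2 * (3 * N) * ℓ))) +
        2 * ((nm O (fun o => R o ++ (M o ++ V o)) e : ℝ) ^ 2 *
          (4 * (2 * N * δ ^ 2 * (3 * N)))) := by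
      refine (av_mono hdec).trans ?_
      rw [av_add, av_smul, av_smul, av_smul, av_smul, av_sum, av_sum]
      refine add_le_add ?_ ?_
      · refine mul_le_mul_of_nonneg_left (mul_le_mul_of_nonneg_left ?_ (Nat.cast_nonneg _))
          zero_le_two
        refine Finset.sum_le_sum fun o ho => ?_
        rw [hO1, Finset.mem_filter] at ho
        rw [hF]
        have k1 := stepAB (δ := δ) (hn o ho.1) (hn' o ho.1) (hu o ho.1) he ho.2 (hℓ o ho.1)
        refine k1.trans ?_
        have lenR : (R o).length ≤ ℓ := by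
          have := hℓ o ho.1
          simp only [List.length_append] at this
          omega
        have lenM : (M o ++ V o).length ≤ ℓ := by
          have := hℓ' o ho.1
          simp only [List.length_append] at this ⊢
          omega
        have nMV : (M o ++ V o).Nodup := by
          have hx := hn' o ho.1
          rw [List.nodup_append]
          refine ⟨hx.of_append_left.of_append_right, hx.of_append_right.of_append_right, ?_⟩
          intro a ha b hb hab
          subst hab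
          exact (List.disjoint_of_nodup_append hx) (List.mem_append_right _ ha)
            (List.mem_append_right _ hb)
        have k2 := WW_noise (S := S) (x := x) (δ := δ)
          (hn o ho.1).of_append_left.of_append_right nMV
          ((hu o ho.1).sub fun e' he' => by simp [he'])
          ((hu' o ho.1).sub fun e' he' => by
            rw [List.mem_append] at he'
            rcases he' with h | h <;> simp [h]) lenR lenM hδ
        have k3 : 0 ≤ av (fun s => ‖WW J (x + sgS S δ s) (R o) (M o) (V o)‖ ^ 2) :=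
          av_nonneg fun s => sq_nonneg _
        calc _ ≤ 2 * N * δ ^ 2 * (3 * (2 * ‖WW J x (R o) (M o) (V o)‖ ^ 2 +
              8 * (2 * N * δ ^ 2 * (3 * N) * ℓ))) :=
              mul_le_mul_of_nonneg_left (mul_le_mul h3 k2 k3 (by norm_num)) hσ
          _ = _ := by ring
      · refine mul_le_mul_of_nonneg_left ?_ zero_le_two
        have n2 : (nm O (fun o => R o ++ (M o ++ V o)) e : ℝ) = O2.card := by rw [hO2]; rfl
        rw [n2, pow_two, mul_assoc]
        refine mul_le_mul_of_nonneg_left ?_ (Nat.cast_nonneg _)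
        rw [← nsmul_eq_mul, ← Finset.sum_const]
        refine Finset.sum_le_sum fun o ho => ?_
        rw [hO2, Finset.mem_filter] at ho
        rw [hF]
        refine (stepM (δ := δ) (hn o ho.1) (hn' o ho.1) (hu o ho.1) (hu' o ho.1) he
          (hℓ o ho.1) (hℓ' o ho.1)).trans ?_
        refine mul_le_mul_of_nonneg_left (mul_le_mul_of_nonneg_left
          (mul_le_mul_of_nonneg_right h3 hN0) hσ) (by norm_num)
    simp only [hXD, nsq_add]
    rw [av_add, av_add, hcross, add_zero, Finset.sum_insert he]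
    have h4 := ih
    rw [hX]
    rw [hO1] at hDn
    linarith

/-- **response of a family of differences** -/
theorem diff_resp {ι : Type*} {O : Finset ι} {A R B M V : ι → List E}
    (hn : ∀ o ∈ O, ((A o ++ R o) ++ B o).Nodup)
    (hn' : ∀ o ∈ O, ((A o ++ M o) ++ (B o ++ V o)).Nodup)
    (hu : ∀ o ∈ O, Un J x ((A o ++ R o) ++ B o))
    (hu' : ∀ o ∈ O, Un J x ((A o ++ M o) ++ (B o ++ V o))) {ℓ : ℕ}
    (hℓ : ∀ o ∈ O, ((A o ++ R o) ++ B o).length ≤ ℓ)
    (hℓ' : ∀ o ∈ O, ((A o ++ M o) ++ (B o ++ V o)).length ≤ ℓ)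
    (hδ : 2 * N * δ ^ 2 * ℓ ≤ 1) {K1 K2 : ℝ}
    (hK1 : ∀ o ∈ O, ∑ e ∈ (A o ++ B o).toFinset, (nm O (fun o => A o ++ B o) e : ℝ) ≤ K1)
    (hK2 : ∀ o ∈ O, ∑ e ∈ (R o ++ (M o ++ V o)).toFinset,
      (nm O (fun o => R o ++ (M o ++ V o)) e : ℝ) ≤ K2) :
    av (fun s => ‖∑ o ∈ O, ff J (x + sg δ s) (A o) (R o) (B o) (M o) (V o) -
      ∑ o ∈ O, ff J x (A o) (R o) (B o) (M o) (V o)‖ ^ 2) ≤
      12 * N * δ ^ 2 * (K1 * ∑ o ∈ O, (2 * ‖WW J x (R o) (M o) (V o)‖ ^ 2 +
        48 * N ^ 2 * δ ^ 2 * ℓ)) + 48 * N ^ 2 * δ ^ 2 * (O.card * K2) := by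
  classical
  have h1 := diff_aux (x := x) (δ := δ) hn hn' hu hu' hℓ hℓ' hδ Finset.univ
  have e1 : ∀ s : IJ J N → Bool, sgS (Finset.univ : Finset E) δ s = sg δ s := fun s => by
    funext i; unfold sgS; simp
  simp only [e1] at h1
  refine h1.trans ?_
  obtain ⟨g, hg⟩ : ∃ g : ι → ℝ, g = fun o => 6 * N * δ ^ 2 *
    (2 * ‖WW J x (R o) (M o) (V o)‖ ^ 2 + 8 * (2 * N * δ ^ 2 * (3 * N) * ℓ)) := ⟨_, rfl⟩
  have hg0 : ∀ o, 0 ≤ g o := fun o => by rw [hg]; positivity
  rw [Finset.sum_add_distrib, ← Finset.mul_sum, ← Finset.mul_sum, ← Finset.sum_mul]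
  have h2 : ∑ e : E, (nm O (fun o => A o ++ B o) e : ℝ) *
      ∑ o ∈ O.filter (fun o => e ∈ A o ++ B o), g o ≤ K1 * ∑ o ∈ O, g o := by
    have h3 : ∀ e : E, (nm O (fun o => A o ++ B o) e : ℝ) *
        ∑ o ∈ O.filter (fun o => e ∈ A o ++ B o), g o =
        ∑ o ∈ O, if e ∈ A o ++ B o then (nm O (fun o => A o ++ B o) e : ℝ) * g o else 0 := by
      intro e
      rw [Finset.mul_sum, Finset.sum_filter]
    simp only [h3]
    rw [Finset.sum_comm, Finset.mul_sum]
    refine Finset.sum_le_sum fun o ho => ?_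
    rw [← Finset.sum_filter, ← Finset.sum_mul]
    refine mul_le_mul_of_nonneg_right (le_trans (le_of_eq ?_) (hK1 o ho)) (hg0 o)
    refine Finset.sum_congr ?_ fun _ _ => rfl
    ext e
    simp
  have h4 : ∑ e : E, (nm O (fun o => R o ++ (M o ++ V o)) e : ℝ) ^ 2 ≤ O.card * K2 := by
    have h3 : ∀ e : E, (nm O (fun o => R o ++ (M o ++ V o)) e : ℝ) ^ 2 =
        ∑ o ∈ O, if e ∈ R o ++ (M o ++ V o) then
          (nm O (fun o => R o ++ (M o ++ V o)) e : ℝ) else 0 := by
      intro e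
      rw [← Finset.sum_filter, Finset.sum_const, nsmul_eq_mul, pow_two]
      rfl
    simp only [h3]
    rw [Finset.sum_comm]
    refine (Finset.sum_le_sum fun o ho => ?_).trans (le_of_eq (by
      rw [Finset.sum_const, nsmul_eq_mul]))
    refine le_trans (le_of_eq ?_) (hK2 o ho)
    rw [← Finset.sum_filter]
    refine Finset.sum_congr ?_ fun _ _ => rfl
    ext e
    simp
  have hge : ∀ o, 6 * N * δ ^ 2 *
    (2 * ‖WW J x (R o) (M o) (V o)‖ ^ 2 + 8 * (2 * N * δ ^ 2 * (3 * N) * ℓ)) = g o := fun o => by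
    rw [hg]
  simp only [hge]
  have h5 : K1 * ∑ o ∈ O, g o = 6 * N * δ ^ 2 * (K1 * ∑ o ∈ O,
      (2 * ‖WW J x (R o) (M o) (V o)‖ ^ 2 + 48 * N ^ 2 * δ ^ 2 * ℓ)) := by
    rw [hg]
    simp only
    rw [← Finset.mul_sum]
    have h6 : ∀ o, 2 * ‖WW J x (R o) (M o) (V o)‖ ^ 2 + 8 * (2 * N * δ ^ 2 * (3 * N) * ℓ) =
        2 * ‖WW J x (R o) (M o) (V o)‖ ^ 2 + 48 * (N : ℝ) ^ 2 * δ ^ 2 * ℓ := fun o => by ring
    simp only [h6]
    ring
  have h7 : (0 : ℝ) ≤ 4 * (2 * N * δ ^ 2 * (3 * N)) := by positivity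
  have h8 := mul_le_mul_of_nonneg_right h4 h7
  rw [h5] at h2
  calc _ ≤ 2 * (6 * N * δ ^ 2 * (K1 * ∑ o ∈ O,
        (2 * ‖WW J x (R o) (M o) (V o)‖ ^ 2 + 48 * N ^ 2 * δ ^ 2 * ℓ))) +
        2 * (O.card * K2 * (4 * (2 * N * δ ^ 2 * (3 * N)))) := by linarith
    _ = _ := by ring

end

end Pool.Agent.MG990
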