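import Mathlib
import Pool.Agent.Y14.Resp2
import Pool.Agent.R990.Fan

/-!
# Transports along different paths are close
-/

open MeasureTheory Matrix Filter
open scoped Matrix.Norms.Frobenius Topology
open Pool.Agent.H906R3.YM hiding Pl
open Pool.Agent.W793.YM Pool.Agent.TH618.YM Pool.Agent.Y14
open Pool.Agent.R990 (rc en_rect rc_nonneg fw fw_succ dsp_fw length_fw mem_fw)

namespace Pool.Agent.MG990

set_option linter.unusedSectionVars false
set_option linter.unusedVariables false

noncomputable section

variable {G : Type*} [Group G] [TopologicalSpace G] [IsTopologicalGroup G] [CompactSpace G]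
  [SecondCountableTopology G] [MeasurableSpace G] [BorelSpace G] (μ : Measure G)
  [IsProbabilityMeasure μ] [μ.IsMulLeftInvariant] [μ.IsMulRightInvariant] [μ.IsInvInvariant]
  {N n : ℕ}

/-- the bound of the rectangles -/
structure SB (L : LD G N n) (d m : ℕ) [NeZero m] (β : ℝ) (S : ℕ → ℝ) (k0 : ℕ) : Prop where
  nn : ∀ k, 0 ≤ S k
  b : ∀ k ≤ k0, ∀ i j : Fin d, i ≠ j → ∀ a b : ℕ, a ≤ 2 ^ k → b ≤ 2 ^ k →
    rc μ L (2 * m) β i j a b ≤ S k

variable {L : LD G N n} {d m : ℕ} [NeZero m] {β : ℝ} {S : ℕ → ℝ} {k0 : ℕ}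

lemma swap_en (h : SB μ L d m β S k0) {k : ℕ} (hk : k ≤ k0) {i j : Fin d} (hij : i ≠ j)
    (x : Fin d → ZMod (2 * m)) {a b : ℕ} (ha : a ≤ 2 ^ k) (hb : b ≤ 2 ^ k) :
    en μ L β (fun U => dd L (tp eT U x (List.replicate a i ++ List.replicate b j))
      (tp eT U x (List.replicate b j ++ List.replicate a i))) ≤ S k := by
  simp only [dd_swap]
  rw [en_rect]
  exact h.b k hk i j hij a b ha hb

lemma move_en (h : SB μ L d m β S k0) {k : ℕ} (hk : k ≤ k0) {i : Fin d} {nn : ℕ}
    (hn : nn ≤ 2 ^ k) {v : Fin d → ℕ} (hv : ∀ k', v k' ≤ 2 ^ k) {K : List (Fin d)} (hi : i ∉ K)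
    (x : Fin d → ZMod (2 * m)) :
    en μ L β (fun U => dd L (tp eT U x (cmb v K ++ List.replicate nn i))
      (tp eT U x (List.replicate nn i ++ cmb v K))) ≤ K.length * S k := by
  induction K generalizing x with
  | nil =>
    simp only [cmb, List.nil_append, List.append_nil, dd_self, en_zero, List.length_nil,
      Nat.cast_zero, zero_mul, le_refl]
  | cons k' K ih =>
    have hik : i ≠ k' := fun h => hi (h ▸ List.mem_cons_self)
    have hiK : i ∉ K := fun h => hi (List.mem_cons_of_mem _ h)
    have e1 : cmb v (k' :: K) ++ List.replicate nn i =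
        List.replicate (v k') k' ++ (cmb v K ++ List.replicate nn i) := by
      rw [cmb_cons, List.append_assoc]
    have e2 : List.replicate nn i ++ cmb v (k' :: K) =
        (List.replicate nn i ++ List.replicate (v k') k') ++ cmb v K := by
      rw [cmb_cons, List.append_assoc]
    have e3 : List.replicate (v k') k' ++ (List.replicate nn i ++ cmb v K) =
        (List.replicate (v k') k' ++ List.replicate nn i) ++ cmb v K := by
      rw [List.append_assoc]
    have t := en_tri μ (L := L) (β := β)
      (tp_cont (u := eT) x (List.replicate (v k') k' ++ (cmb v K ++ List.replicate nn i)))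
      (tp_cont (G := G) (u := eT) x
        (List.replicate (v k') k' ++ (List.replicate nn i ++ cmb v K)))
      (tp_cont (u := eT) x ((List.replicate nn i ++ List.replicate (v k') k') ++ cmb v K))
    rw [e1, e2]
    refine t.trans ?_
    have s1 : (fun U : Ed d (2 * m) → G => dd L
        (tp eT U x (List.replicate (v k') k' ++ (cmb v K ++ List.replicate nn i)))
        (tp eT U x (List.replicate (v k') k' ++ (List.replicate nn i ++ cmb v K)))) =
        fun U => dd L (tp eT U (x + dsp eT (List.replicate (v k') k'))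
          (cmb v K ++ List.replicate nn i))
        (tp eT U (x + dsp eT (List.replicate (v k') k')) (List.replicate nn i ++ cmb v K)) := by
      funext U
      rw [tp_append x (List.replicate (v k') k'), tp_append x (List.replicate (v k') k'), dd_lmul]
    have s2 : (fun U : Ed d (2 * m) → G => dd L
        (tp eT U x (List.replicate (v k') k' ++ (List.replicate nn i ++ cmb v K)))
        (tp eT U x ((List.replicate nn i ++ List.replicate (v k') k') ++ cmb v K))) =
        fun U => dd L (tp eT U x (List.replicate (v k') k' ++ List.replicate nn i))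
        (tp eT U x (List.replicate nn i ++ List.replicate (v k') k')) := by
      funext U
      have hd : (dsp eT (List.replicate (v k') k' ++ List.replicate nn i) :
          Fin d → ZMod (2 * m)) = dsp eT (List.replicate nn i ++ List.replicate (v k') k') := by
        rw [dsp_append, dsp_append, add_comm]
      rw [e3, tp_append x _ (cmb v K), tp_append x _ (cmb v K), hd, dd_rmul]
    rw [s1, s2]
    have h1 := ih hiK (x + dsp eT (List.replicate (v k') k'))
    have h2 := swap_en μ h hk hik.symm x (hv k') hn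
    rw [List.length_cons]
    push_cast
    linarith

lemma ins_en (h : SB μ L d m β S k0) {k : ℕ} (hk : k ≤ k0) {i : Fin d} {nn : ℕ}
    (hn : nn ≤ 2 ^ k) {v : Fin d → ℕ} (hv : ∀ k', v k' ≤ 2 ^ k) {K : List (Fin d)}
    (hK : K.Nodup) (hi : i ∈ K) (x : Fin d → ZMod (2 * m)) :
    en μ L β (fun U => dd L (tp eT U x (cmb v K ++ List.replicate nn i))
      (tp eT U x (cmb (fun k => v k + if k = i then nn else 0) K))) ≤ K.length * S k := by
  have hb0 : 0 ≤ S k := h.nn k
  induction K generalizing x with
  | nil => simp at hi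
  | cons k' K ih =>
    have hk' := List.nodup_cons.1 hK
    by_cases hki : k' = i
    · subst hki
      have e2 : cmb (fun k => v k + if k = k' then nn else 0) (k' :: K) =
          List.replicate (v k') k' ++ (List.replicate nn k' ++ cmb v K) := by
        rw [cmb_cons, if_pos rfl, ← List.replicate_append_replicate, List.append_assoc]
        congr 2
        refine cmb_congr fun k1 hk1 => ?_
        have : k1 ≠ k' := fun h => hk'.1 (h ▸ hk1)
        simp [this]
      have s1 : (fun U : Ed d (2 * m) → G => dd L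
          (tp eT U x (cmb v (k' :: K) ++ List.replicate nn k'))
          (tp eT U x (cmb (fun k => v k + if k = k' then nn else 0) (k' :: K)))) =
          fun U => dd L (tp eT U (x + dsp eT (List.replicate (v k') k'))
            (cmb v K ++ List.replicate nn k'))
          (tp eT U (x + dsp eT (List.replicate (v k') k'))
            (List.replicate nn k' ++ cmb v K)) := by
        funext U
        rw [e2, cmb_cons, List.append_assoc, tp_append x (List.replicate (v k') k'),
          tp_append x (List.replicate (v k') k'), dd_lmul]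
      rw [s1]
      refine (move_en μ h hk hn hv hk'.1 _).trans ?_
      rw [List.length_cons]
      push_cast
      linarith
    · have hiK : i ∈ K := by
        rcases List.mem_cons.1 hi with h | h
        · exact absurd h.symm hki
        · exact h
      have s1 : (fun U : Ed d (2 * m) → G => dd L
          (tp eT U x (cmb v (k' :: K) ++ List.replicate nn i))
          (tp eT U x (cmb (fun k => v k + if k = i then nn else 0) (k' :: K)))) =
          fun U => dd L (tp eT U (x + dsp eT (List.replicate (v k') k'))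
            (cmb v K ++ List.replicate nn i))
          (tp eT U (x + dsp eT (List.replicate (v k') k'))
            (cmb (fun k => v k + if k = i then nn else 0) K)) := by
        funext U
        rw [cmb_cons, cmb_cons, if_neg hki, add_zero, List.append_assoc,
          tp_append x (List.replicate (v k') k'), tp_append x (List.replicate (v k') k'), dd_lmul]
      rw [s1]
      refine (ih hk'.2 hiK _).trans ?_
      rw [List.length_cons]
      push_cast
      linarith

lemma dsp_cb_ct (v : Fin d → ℕ) : (dsp eT (cb v) : Fin d → ZMod (2 * m)) = ct (2 * m) v := by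
  rw [dsp_cb, sum_eT]

lemma srt_refl (x : Fin d → ZMod (2 * m)) (v : Fin d → ℕ) : Srt μ L β x (cb v) v 0 := by
  refine ⟨dsp_cb_ct v, ?_⟩
  simp only [dd_self, en_zero, le_refl]

lemma srt_rep (h : SB μ L d m β S k0) {k : ℕ} (hk : k ≤ k0) {nn : ℕ}
    (hn : nn ≤ 2 ^ k) {x : Fin d → ZMod (2 * m)} {w : List (Fin d)} {v : Fin d → ℕ} {b : ℝ}
    (hv : ∀ k', v k' ≤ 2 ^ k) (h' : Srt μ L β x w v b) (i : Fin d) :
    Srt μ L β x (w ++ List.replicate nn i) (fun k => v k + if k = i then nn else 0)
      (b + d * S k) := by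
  obtain ⟨h1, h2⟩ := h'
  refine ⟨?_, ?_⟩
  · rw [dsp_append, h1, dsp_rep, ct_addv v fun k => if k = i then nn else 0]
    congr 1
    funext k
    by_cases hk : k = i
    · subst hk; simp [eT, ct]
    · simp [eT, ct, hk]
  · refine (en_tri μ (tp_cont _ _) (tp_cont (u := eT) x (cb v ++ List.replicate nn i))
      (tp_cont _ _)).trans ?_
    have s1 : (fun U : Ed d (2 * m) → G => dd L (tp eT U x (w ++ List.replicate nn i))
        (tp eT U x (cb v ++ List.replicate nn i))) =
        fun U => dd L (tp eT U x w) (tp eT U x (cb v)) := by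
      funext U
      rw [tp_append, tp_append, h1, dsp_cb_ct, dd_rmul]
    rw [s1]
    have h3 := ins_en μ h hk hn hv (List.nodup_finRange d) (List.mem_finRange i) x
    rw [List.length_finRange] at h3
    exact add_le_add h2 h3

lemma srt_cmb (h : SB μ L d m β S k0) {k : ℕ} (hk : k ≤ k0)
    {x : Fin d → ZMod (2 * m)} {w : List (Fin d)} {v v' : Fin d → ℕ} {b : ℝ}
    (hv0 : ∀ k', v k' ≤ 2 ^ k) {K : List (Fin d)} (hv : ∀ k' ∈ K, v k' + v' k' ≤ 2 ^ k)
    (h' : Srt μ L β x w v b) (hK : K.Nodup) :
    Srt μ L β x (w ++ Y14.cmb v' K) (fun k => v k + if k ∈ K then v' k else 0)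
      (b + K.length * (d * S k)) := by
  induction K generalizing w v b with
  | nil =>
    simpa [Y14.cmb] using h'
  | cons k' K ih =>
    have hk' := List.nodup_cons.1 hK
    have hvk := hv k' List.mem_cons_self
    have h1 := srt_rep μ h hk (nn := v' k') (by omega) hv0 h' k'
    have h2 := ih (v := fun k1 => v k1 + if k1 = k' then v' k' else 0)
      (w := w ++ List.replicate (v' k') k') (b := b + d * S k)
      (fun k1 => by
        by_cases hkk : k1 = k'
        · subst hkk; simpa using hvk
        · simpa [hkk] using hv0 k1)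
      (fun k1 hk1 => by
        have hkk : k1 ≠ k' := fun h => hk'.1 (h ▸ hk1)
        simpa [hkk] using hv k1 (List.mem_cons_of_mem _ hk1)) h1 hk'.2
    rw [cmb_cons, ← List.append_assoc]
    refine h2.mono μ (fun k1 => ?_) (le_of_eq ?_)
    · by_cases hkk : k1 = k'
      · subst hkk
        simp [hk'.1]
      · simp [hkk]
    · rw [List.length_cons]
      push_cast; ring

lemma srt_cb (h : SB μ L d m β S k0) {k : ℕ} (hk : k ≤ k0)
    {x : Fin d → ZMod (2 * m)} {w : List (Fin d)} {v v' : Fin d → ℕ} {b : ℝ}
    (hv : ∀ k', v k' + v' k' ≤ 2 ^ k) (h' : Srt μ L β x w v b) :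
    Srt μ L β x (w ++ Y14.cb v') (fun k => v k + v' k) (b + d * (d * S k)) := by
  have h1 := srt_cmb μ h hk (v' := v') (fun k' => by have := hv k'; omega)
    (K := List.finRange d) (fun k' _ => hv k') h' (List.nodup_finRange d)
  refine h1.mono μ (fun k => by simp) ?_
  rw [List.length_finRange]

/-- composition of paths -/
lemma srt_app (h : SB μ L d m β S k0) {k : ℕ} (hk : k ≤ k0)
    {x : Fin d → ZMod (2 * m)} {w w' : List (Fin d)} {v v' : Fin d → ℕ} {b b' : ℝ}
    (hv : ∀ k', v k' + v' k' ≤ 2 ^ k) (h1 : Srt μ L β x w v b)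
    (h2 : Srt μ L β (x + dsp eT w) w' v' b') :
    Srt μ L β x (w ++ w') (fun k => v k + v' k) (b + b' + d * (d * S k)) := by
  have h3 := srt_cb μ h hk hv h1
  refine ⟨?_, ?_⟩
  · rw [dsp_append, h1.1, h2.1, ct_addv v v']
  · refine (en_tri μ (tp_cont _ _) (tp_cont (u := eT) x (w ++ cb v')) (tp_cont _ _)).trans ?_
    have s1 : (fun U : Ed d (2 * m) → G => dd L (tp eT U x (w ++ w'))
        (tp eT U x (w ++ cb v'))) =
        fun U => dd L (tp eT U (x + dsp eT w) w') (tp eT U (x + dsp eT w) (cb v')) := by
      funext U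
      rw [tp_append, tp_append, dd_lmul]
    rw [s1]
    have h4 := h2.2
    have h5 := h3.2
    linarith

lemma srt_congr {x : Fin d → ZMod (2 * m)} {w w' : List (Fin d)} {v v' : Fin d → ℕ} {b b' : ℝ}
    (h : Srt μ L β x w v b) (hw : w = w') (hv : ∀ k, v k = v' k) (hb : b ≤ b') :
    Srt μ L β x w' v' b' := by
  subst hw
  exact h.mono μ hv hb

/-- close paths to each other -/
lemma srt_cmp {x : Fin d → ZMod (2 * m)} {w w' : List (Fin d)} {v v' : Fin d → ℕ} {b b' : ℝ}
    (h : Srt μ L β x w v b) (h' : Srt μ L β x w' v' b') (hv : ∀ k, v k = v' k) :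
    en μ L β (fun U => dd L (tp eT U x w) (tp eT U x w')) ≤ b + b' :=
  Srt.cmp μ h (Srt.mono μ h' (fun k => (hv k).symm) le_rfl)

/-- the total unit of the errors -/
def Gs (S : ℕ → ℝ) (k : ℕ) : ℝ := ∑ i ∈ Finset.range (k + 1), S i

lemma S_le_Gs (hS : ∀ k, 0 ≤ S k) {k K : ℕ} (h : k ≤ K) : S k ≤ Gs S K :=
  Finset.single_le_sum (f := S) (fun i _ => hS i) (Finset.mem_range.2 (by omega))

lemma Gs_nonneg (hS : ∀ k, 0 ≤ S k) (k : ℕ) : 0 ≤ Gs S k := Finset.sum_nonneg fun i _ => hS i

/-- partial sums -/
lemma sum_S_le (hS : ∀ k, 0 ≤ S k) {r c K : ℕ} (h : r + c ≤ K + 1) :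
    ∑ k ∈ Finset.range r, S (k + c) ≤ Gs S K := by
  have h1 : ∑ k ∈ Finset.range r, S (k + c) = ∑ k ∈ Finset.Ico c (c + r), S k := by
    rw [Finset.sum_Ico_eq_sum_range, Nat.add_sub_cancel_left]
    exact Finset.sum_congr rfl fun k _ => by rw [add_comm]
  rw [h1]
  refine Finset.sum_le_sum_of_subset_of_nonneg (fun k hk => ?_) fun k _ _ => hS k
  rw [Finset.mem_Ico] at hk
  rw [Finset.mem_range]
  omega

/-- the fan is close to the path with one corner -/
lemma srt_fan {e : ℕ} (h : SB μ L (e + 3) m β S k0) (x : Fin (e + 3) → ZMod (2 * m)) (r : ℕ)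
    (hr : r + 1 ≤ k0) (a : ℕ) (ha : a < 2 ^ r) :
    Srt μ L β x (fw 1 0 r a) (fun j => (if j = 1 then 2 ^ r + a else 0) + if j = 0 then a else 0)
      (((e + 3 : ℕ) : ℝ) * S 0 + ∑ k ∈ Finset.range r, 2 * (((e + 3 : ℕ) : ℝ) * S (k + 2))) := by
  induction r generalizing a with
  | zero =>
    have h0 : a = 0 := by simpa using ha
    subst h0
    have h1 := srt_rep μ h (Nat.zero_le k0) (nn := 1) (by norm_num) (fun k' => Nat.zero_le _)
      (Srt.nil μ (L := L) (β := β) x) 1
    refine srt_congr μ h1 (by simp [fw]) (fun k => ?_) (le_of_eq ?_)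
    · by_cases hk : k = 1
      · simp [hk]
      · simp [hk]
    · rw [Finset.range_zero, Finset.sum_empty]
      ring
  | succ r ih =>
    have hp2 : 2 ^ (r + 2) = 4 * 2 ^ r := by rw [pow_succ, pow_succ]; ring
    have hp1 : 2 ^ (r + 1) = 2 * 2 ^ r := by rw [pow_succ]; ring
    rw [hp1] at ha
    have h1 := ih (by omega) (a / 2) (by omega)
    have hne : (1 : Fin (e + 3)) ≠ 0 := one_ne
    have h2 := srt_rep μ h (k := r + 2) hr (nn := 2 ^ r + (a - a / 2)) (by rw [hp2]; omega)
      (fun k' => by
        rw [hp2]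
        split_ifs <;> omega) h1 1
    have h3 := srt_rep μ h (k := r + 2) hr (nn := a - a / 2) (by rw [hp2]; omega)
      (fun k' => by
        rw [hp2]
        split_ifs <;> omega) h2 0
    refine srt_congr μ h3 (by rw [fw_succ, List.append_assoc]) (fun k' => ?_) (le_of_eq ?_)
    · rw [hp1]
      by_cases h0 : k' = 0
      · subst h0
        simp only [if_true, if_neg (Ne.symm hne)]
        omega
      · by_cases h1 : k' = 1
        · subst h1
          simp only [if_true, if_neg hne]
          omega
        · simp only [h0, h1, if_false]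
    · rw [Finset.sum_range_succ]
      ring

end

end Pool.Agent.MG990
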