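import Mathlib
import Pool.Agent.R990.MG.Srt

/-!
# The dyadic tree
-/

open MeasureTheory Matrix Filter
open scoped Matrix.Norms.Frobenius Topology
open Pool.Agent.H906R3.YM hiding Pl
open Pool.Agent.W793.YM Pool.Agent.TH618.YM Pool.Agent.Y14
open Pool.Agent.R990 (rc en_rect rc_nonneg)

namespace Pool.Agent.MG990

set_option linter.unusedSectionVars false
set_option linter.unusedVariables false

noncomputable section

section words

variable {e : ℕ}

/-- the dyadic increment -/
def inc (r : ℕ) (v : Fin (e + 3) → ℕ) : Fin (e + 3) → ℕ :=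
  fun j => if j = 0 then 0 else 2 ^ r * (v j / 2 ^ r % 2)

/-- the remainder -/
def md (r : ℕ) (v : Fin (e + 3) → ℕ) : Fin (e + 3) → ℕ :=
  fun j => if j = 0 then 0 else v j % 2 ^ r

/-- the path through the dyadic points -/
def tw : ℕ → (Fin (e + 3) → ℕ) → List (Fin (e + 3))
  | 0, _ => []
  | r + 1, v => cb (inc r v) ++ tw r v

lemma tw_succ (r : ℕ) (v : Fin (e + 3) → ℕ) : tw (r + 1) v = cb (inc r v) ++ tw r v := rfl

lemma md_succ (r : ℕ) (v : Fin (e + 3) → ℕ) (j : Fin (e + 3)) :
    inc r v j + md r v j = md (r + 1) v j := by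
  unfold inc md
  split_ifs with h
  · rfl
  · rw [Nat.mod_pow_succ, add_comm]

lemma inc_le (r : ℕ) (v : Fin (e + 3) → ℕ) (j : Fin (e + 3)) : inc r v j ≤ 2 ^ r := by
  unfold inc
  split_ifs
  · exact Nat.zero_le _
  · have h1 : v j / 2 ^ r % 2 ≤ 1 := by omega
    calc _ ≤ 2 ^ r * 1 := Nat.mul_le_mul_left _ h1
      _ = _ := mul_one _

lemma md_lt (r : ℕ) (v : Fin (e + 3) → ℕ) (j : Fin (e + 3)) : md r v j < 2 ^ r := by
  unfold md
  have h0 : 0 < 2 ^ r := by positivity
  split_ifs
  · exact h0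
  · exact Nat.mod_lt _ h0

lemma tw_stable {r0 : ℕ} {v : Fin (e + 3) → ℕ} (h : ∀ j, v j < 2 ^ r0) {R : ℕ} (hR : r0 ≤ R) :
    tw R v = tw r0 v := by
  obtain ⟨k, rfl⟩ := Nat.exists_eq_add_of_le hR
  clear hR
  induction k with
  | zero => rfl
  | succ k ih =>
    rw [← add_assoc, tw_succ, ih]
    have h1 : inc (r0 + k) v = fun _ => 0 := by
      funext j
      unfold inc
      split_ifs
      · rfl
      · have h2 : v j < 2 ^ (r0 + k) := lt_of_lt_of_le (h j)
          (Nat.pow_le_pow_right (by norm_num) (by omega))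
        rw [Nat.div_eq_of_lt h2]
        simp
    rw [h1]
    unfold cb
    rw [cmb_zero, List.nil_append]

lemma mem_tw {r : ℕ} {v : Fin (e + 3) → ℕ} {i : Fin (e + 3)} (h : i ∈ tw r v) : i ≠ 0 := by
  induction r with
  | zero => simp [tw] at h
  | succ r ih =>
    rw [tw_succ, List.mem_append] at h
    rcases h with h | h
    · rintro rfl
      unfold cb at h
      exact (mem_cmb h).2 (by simp [inc])
    · exact ih h

/-- the tree -/
def dt (R : ℕ) (v : Fin (e + 3) → ℕ) : List (Fin (e + 3)) := List.replicate (v 0) 0 ++ tw R v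

end words

variable {G : Type*} [Group G] [TopologicalSpace G] [IsTopologicalGroup G] [CompactSpace G]
  [SecondCountableTopology G] [MeasurableSpace G] [BorelSpace G] (μ : Measure G)
  [IsProbabilityMeasure μ] [μ.IsMulLeftInvariant] [μ.IsMulRightInvariant] [μ.IsInvInvariant]
  {N n : ℕ} {L : LD G N n} {e m : ℕ} [NeZero m] {β : ℝ} {S : ℕ → ℝ} {k0 : ℕ}

/-- the tree is close to the comb -/
lemma srt_tw (h : SB μ L (e + 3) m β S k0) (r : ℕ) (hr : r ≤ k0)
    (x : Fin (e + 3) → ZMod (2 * m)) (v : Fin (e + 3) → ℕ) :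
    Srt μ L β x (tw r v) (md r v)
      (∑ k ∈ Finset.range r, ((e + 3 : ℕ) : ℝ) * (((e + 3 : ℕ) : ℝ) * S (k + 1))) := by
  induction r generalizing x with
  | zero =>
    refine srt_congr μ (Srt.nil μ (L := L) (β := β) x) rfl (fun k => ?_) (by simp)
    unfold md
    split_ifs
    · rfl
    · rw [pow_zero, Nat.mod_one]
  | succ r ih =>
    have h1 := srt_refl μ (L := L) (β := β) x (inc r v)
    have h2 := ih (by omega) (x + dsp eT (cb (inc r v)))
    have h3 := srt_app μ h hr (fun k' => by
      rw [md_succ]; exact (md_lt _ _ _).le) h1 h2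
    refine srt_congr μ h3 rfl (fun k' => md_succ r v k') (le_of_eq ?_)
    rw [Finset.sum_range_succ, zero_add]

lemma srt_dt (h : SB μ L (e + 3) m β S k0) {r R : ℕ} (hr : r ≤ k0) (hR : r ≤ R)
    (x : Fin (e + 3) → ZMod (2 * m)) {v : Fin (e + 3) → ℕ} (hv : ∀ j, v j < 2 ^ r) :
    Srt μ L β x (dt R v) v
      (∑ k ∈ Finset.range r, ((e + 3 : ℕ) : ℝ) * (((e + 3 : ℕ) : ℝ) * S (k + 1))) := by
  obtain ⟨h1, h2⟩ := srt_tw μ h r hr (x + dsp eT (List.replicate (v 0) 0)) v
  have e0 : dt R v = List.replicate (v 0) 0 ++ tw r v := by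
    unfold dt
    rw [tw_stable hv hR]
  have e1 : cb v = List.replicate (v 0) 0 ++ cb (md r v) := by
    unfold cb
    rw [List.finRange_succ, cmb_cons, cmb_cons]
    have e2 : md r v 0 = 0 := by unfold md; rw [if_pos rfl]
    rw [e2, List.replicate_zero, List.nil_append]
    congr 1
    refine cmb_congr fun k hk => ?_
    have hk0 : k ≠ 0 := by
      rw [List.mem_map] at hk
      obtain ⟨a, _, rfl⟩ := hk
      exact Fin.succ_ne_zero a
    unfold md
    rw [if_neg hk0, Nat.mod_eq_of_lt (hv k)]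
  refine ⟨?_, ?_⟩
  · rw [e0, dsp_append, h1, dsp_rep, ← dsp_cb_ct v, e1, dsp_append, dsp_rep, dsp_cb_ct]
  · rw [e0, e1]
    have s1 : (fun U : Ed (e + 3) (2 * m) → G => dd L
        (tp eT U x (List.replicate (v 0) 0 ++ tw r v))
        (tp eT U x (List.replicate (v 0) 0 ++ cb (md r v)))) =
        fun U => dd L (tp eT U (x + dsp eT (List.replicate (v 0) 0)) (tw r v))
          (tp eT U (x + dsp eT (List.replicate (v 0) 0)) (cb (md r v))) := by
      funext U
      rw [tp_append, tp_append, dd_lmul]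
    rw [s1]
    exact h2

lemma sum_GS (h : SB μ L (e + 3) m β S k0) {r : ℕ} (hr : r ≤ k0) :
    ∑ k ∈ Finset.range r, ((e + 3 : ℕ) : ℝ) * (((e + 3 : ℕ) : ℝ) * S (k + 1)) ≤
      ((e + 3 : ℕ) : ℝ) ^ 2 * Gs S k0 := by
  rw [← Finset.mul_sum, ← Finset.mul_sum, ← mul_assoc, ← pow_two]
  exact mul_le_mul_of_nonneg_left (sum_S_le h.nn (by omega)) (by positivity)

/-- the carry -/
def cy (r t : ℕ) : ℕ := if 2 ^ r ∣ t + 1 then 2 ^ r else 0

lemma cy_step {r t : ℕ} (h : 2 ^ r ∣ t + 1) :
    cy (r + 1) t + 2 ^ r * ((t + 1) / 2 ^ r % 2) = 2 ^ r * (t / 2 ^ r % 2) + 2 ^ r := by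
  have hp : 0 < 2 ^ r := by positivity
  have h1 : (t + 1) / 2 ^ r = t / 2 ^ r + 1 := by rw [Nat.succ_div, if_pos h]
  obtain ⟨s, hs⟩ : ∃ s, s = t / 2 ^ r := ⟨_, rfl⟩
  have h2 : t + 1 = 2 ^ r * (s + 1) := by
    rw [hs, ← h1]
    exact (Nat.mul_div_cancel' h).symm
  have h3 : 2 ^ (r + 1) ∣ t + 1 ↔ 2 ∣ s + 1 := by
    rw [h2, pow_succ]
    exact Nat.mul_dvd_mul_iff_left hp
  unfold cy
  rw [h1, ← hs]
  rcases Nat.even_or_odd s with hs2 | hs2
  · obtain ⟨a, ha⟩ := hs2
    have e1 : (s + 1) % 2 = 1 := by omega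
    have e2 : s % 2 = 0 := by omega
    have e3 : ¬2 ∣ s + 1 := by omega
    rw [if_neg (fun h => e3 (h3.1 h)), e1, e2]
    ring
  · obtain ⟨a, ha⟩ := hs2
    have e1 : (s + 1) % 2 = 0 := by omega
    have e2 : s % 2 = 1 := by omega
    have e3 : 2 ∣ s + 1 := by omega
    rw [if_pos (h3.2 e3), e1, e2, pow_succ]
    ring

/-- the constant of the strips -/
def Cs (e : ℕ) : ℝ := (((e + 3 : ℕ) : ℝ)) * (((e + 3 : ℕ) : ℝ) + 2)

lemma Cs_nonneg (e : ℕ) : 0 ≤ Cs e := by unfold Cs; positivity

/-- the strip between the trees of neighbouring points -/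
lemma strip_aux (h : SB μ L (e + 3) m β S k0) {j : Fin (e + 3)} (hj : j ≠ 0) (r : ℕ)
    (hr : r ≤ k0) (x : Fin (e + 3) → ZMod (2 * m)) (v : Fin (e + 3) → ℕ) :
    (dsp eT (tw r v ++ [j]) : Fin (e + 3) → ZMod (2 * m)) =
      dsp eT (List.replicate (cy r (v j)) j ++ tw r (fun k => v k + if k = j then 1 else 0)) ∧
    en μ L β (fun U => dd L (tp eT U x (tw r v ++ [j]))
      (tp eT U x (List.replicate (cy r (v j)) j ++
        tw r (fun k => v k + if k = j then 1 else 0)))) ≤
      ∑ k ∈ Finset.range r, if 2 ^ k ∣ v j + 1 then Cs e * S (k + 1) else 0 := by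
  obtain ⟨v', hv'⟩ : ∃ v' : Fin (e + 3) → ℕ, v' = fun k => v k + if k = j then 1 else 0 :=
    ⟨_, rfl⟩
  rw [← hv']
  have hvj : v' j = v j + 1 := by rw [hv']; simp
  have hvk : ∀ k, k ≠ j → v' k = v k := fun k hk => by rw [hv']; simp [hk]
  induction r generalizing x with
  | zero =>
    have h1 : tw 0 v ++ [j] = List.replicate (cy 0 (v j)) j ++ tw 0 v' := by
      unfold cy
      simp [tw]
    rw [h1]
    simp only [dd_self, en_zero, Finset.range_zero, Finset.sum_empty, le_refl, and_self]
  | succ r ih =>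
    obtain ⟨i1, i2⟩ := ih (by omega) (x + dsp eT (cb (inc r v)))
    have hle : cy (r + 1) (v j) ≤ 2 ^ (r + 1) := by unfold cy; split_ifs <;> omega
    have key : (dsp eT (cb (inc r v) ++ List.replicate (cy r (v j)) j) :
        Fin (e + 3) → ZMod (2 * m)) =
        dsp eT (List.replicate (cy (r + 1) (v j)) j ++ cb (inc r v')) ∧
        en μ L β (fun U => dd L (tp eT U x (cb (inc r v) ++ List.replicate (cy r (v j)) j))
          (tp eT U x (List.replicate (cy (r + 1) (v j)) j ++ cb (inc r v')))) ≤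
          if 2 ^ r ∣ v j + 1 then Cs e * S (r + 1) else 0 := by
      by_cases hd : 2 ^ r ∣ v j + 1
      · have hc : cy r (v j) = 2 ^ r := by unfold cy; rw [if_pos hd]
        have hstep := cy_step hd
        have hp1 : 2 ^ (r + 1) = 2 * 2 ^ r := by rw [pow_succ]; ring
        have hval : ∀ k, (fun k' => (fun k'' => (fun _ : Fin (e + 3) => 0) k'' +
            if k'' = j then cy (r + 1) (v j) else 0) k' + inc r v' k') k =
            (fun k' => inc r v k' + if k' = j then 2 ^ r else 0) k := by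
          intro k
          simp only
          by_cases hk : k = j
          · subst hk
            simp only [if_true]
            unfold inc
            rw [if_neg hj, if_neg hj, hvj, zero_add]
            exact hstep
          · simp only [if_neg hk]
            unfold inc
            rw [hvk k hk]
            simp
        have hlt : ∀ k, inc r v k + (if k = j then 2 ^ r else 0) ≤ 2 ^ (r + 1) := by
          intro k
          have := inc_le r v k
          rw [hp1]
          split_ifs <;> omega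
        have s1 := srt_rep μ h hr (nn := 2 ^ r) (by rw [hp1]; omega) (fun k' => by
          have := inc_le r v k'; rw [hp1]; omega) (srt_refl μ (L := L) (β := β) x (inc r v)) j
        have s2 := srt_rep μ h hr hle (fun k' => Nat.zero_le _)
          (Srt.nil μ (L := L) (β := β) x) j
        have s3 := srt_cb μ h hr (v' := inc r v') (fun k => by
          have h1 := hval k
          have h2 := hlt k
          simp only at h1 ⊢
          omega) s2
        rw [List.nil_append] at s3
        rw [hc, if_pos hd]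
        refine ⟨?_, ?_⟩
        · rw [s1.1, s3.1]
          congr 1
          funext k
          exact (hval k).symm
        · refine (srt_cmp μ s1 s3 fun k => (hval k).symm).trans (le_of_eq ?_)
          unfold Cs
          ring
      · have hc : cy r (v j) = 0 := by unfold cy; rw [if_neg hd]
        have hc' : cy (r + 1) (v j) = 0 := by
          unfold cy
          rw [if_neg]
          intro h1
          exact hd (dvd_trans (pow_dvd_pow 2 (Nat.le_succ r)) h1)
        have hinc : inc r v' = inc r v := by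
          funext k
          unfold inc
          by_cases hk : k = j
          · subst hk
            rw [hvj, Nat.succ_div, if_neg hd, add_zero]
          · rw [hvk k hk]
        rw [hc, hc', hinc, if_neg hd]
        simp only [List.replicate_zero, List.append_nil, List.nil_append, dd_self, en_zero,
          le_refl, and_self]
    obtain ⟨k1, k2⟩ := key
    have e1 : tw (r + 1) v ++ [j] = cb (inc r v) ++ (tw r v ++ [j]) := by
      rw [tw_succ, List.append_assoc]
    have e2 : List.replicate (cy (r + 1) (v j)) j ++ tw (r + 1) v' =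
        (List.replicate (cy (r + 1) (v j)) j ++ cb (inc r v')) ++ tw r v' := by
      rw [tw_succ, List.append_assoc]
    have e3 : cb (inc r v) ++ (List.replicate (cy r (v j)) j ++ tw r v') =
        (cb (inc r v) ++ List.replicate (cy r (v j)) j) ++ tw r v' := by
      rw [List.append_assoc]
    rw [e1, e2]
    refine ⟨?_, ?_⟩
    · rw [dsp_append, i1, ← dsp_append, e3, dsp_append, k1, ← dsp_append]
    · refine (en_tri μ (tp_cont _ _) (tp_cont (u := eT) x
        (cb (inc r v) ++ (List.replicate (cy r (v j)) j ++ tw r v'))) (tp_cont _ _)).trans ?_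
      rw [Finset.sum_range_succ]
      have s1 : (fun U : Ed (e + 3) (2 * m) → G => dd L
          (tp eT U x (cb (inc r v) ++ (tw r v ++ [j])))
          (tp eT U x (cb (inc r v) ++ (List.replicate (cy r (v j)) j ++ tw r v')))) =
          fun U => dd L (tp eT U (x + dsp eT (cb (inc r v))) (tw r v ++ [j]))
            (tp eT U (x + dsp eT (cb (inc r v))) (List.replicate (cy r (v j)) j ++ tw r v')) := by
        funext U
        rw [tp_append x (cb (inc r v)), tp_append x (cb (inc r v)), dd_lmul]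
      have s2 : (fun U : Ed (e + 3) (2 * m) → G => dd L
          (tp eT U x (cb (inc r v) ++ (List.replicate (cy r (v j)) j ++ tw r v')))
          (tp eT U x ((List.replicate (cy (r + 1) (v j)) j ++ cb (inc r v')) ++ tw r v'))) =
          fun U => dd L (tp eT U x (cb (inc r v) ++ List.replicate (cy r (v j)) j))
            (tp eT U x (List.replicate (cy (r + 1) (v j)) j ++ cb (inc r v'))) := by
        funext U
        rw [e3, tp_append x _ (tw r v'), tp_append x _ (tw r v'), k1, dd_rmul]
      rw [s1, s2]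
      exact add_le_add i2 k2

/-! ### the squares of the bounds -/

/-- the sum of the dyadic divisors -/
def uu (r t : ℕ) : ℕ := ∑ k ∈ Finset.range r, if 2 ^ k ∣ t + 1 then 2 ^ k else 0

lemma sqrt2_pow (k : ℕ) : Real.sqrt ((2 : ℝ) ^ (k + 1)) = Real.sqrt 2 * Real.sqrt (2 ^ k) := by
  rw [pow_succ, mul_comm, Real.sqrt_mul (by norm_num)]

lemma sqrt2_ge : (1.4 : ℝ) ≤ Real.sqrt 2 := by
  rw [Real.le_sqrt (by norm_num) (by norm_num)]
  norm_num

lemma sqrt2_le : Real.sqrt 2 ≤ (1.5 : ℝ) := by
  rw [Real.sqrt_le_left (by norm_num)]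
  norm_num

lemma geo_sq {c : ℝ} (hc : 0 ≤ c) (r t : ℕ) :
    (2 ^ r ∣ t + 1 → (∑ k ∈ Finset.range r, if 2 ^ k ∣ t + 1 then c * Real.sqrt (2 ^ k) else 0) ≤
      5 / 2 * c * Real.sqrt (2 ^ r)) ∧
    (∑ k ∈ Finset.range r, if 2 ^ k ∣ t + 1 then c * Real.sqrt (2 ^ k) else 0) ^ 2 ≤
      49 / 4 * c ^ 2 * uu r t := by
  induction r with
  | zero =>
    simp only [Finset.range_zero, Finset.sum_empty]
    refine ⟨fun _ => by positivity, ?_⟩
    rw [zero_pow two_ne_zero]
    positivity
  | succ r ih =>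
    obtain ⟨h1, h2⟩ := ih
    obtain ⟨H, hH⟩ : ∃ H : ℝ, H = ∑ k ∈ Finset.range r,
      if 2 ^ k ∣ t + 1 then c * Real.sqrt (2 ^ k) else 0 := ⟨_, rfl⟩
    have hH0 : 0 ≤ H := by
      rw [hH]
      refine Finset.sum_nonneg fun k _ => ?_
      split_ifs
      · positivity
      · exact le_rfl
    rw [← hH] at h1 h2
    rw [Finset.sum_range_succ, ← hH]
    have hu : uu (r + 1) t = uu r t + if 2 ^ r ∣ t + 1 then 2 ^ r else 0 := by
      unfold uu
      rw [Finset.sum_range_succ]
    have hs0 : 0 ≤ Real.sqrt ((2 : ℝ) ^ r) := Real.sqrt_nonneg _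
    have hss : Real.sqrt ((2 : ℝ) ^ r) ^ 2 = 2 ^ r := Real.sq_sqrt (by positivity)
    refine ⟨fun h3 => ?_, ?_⟩
    · have h4 : 2 ^ r ∣ t + 1 := dvd_trans (pow_dvd_pow 2 (Nat.le_succ r)) h3
      rw [if_pos h4, sqrt2_pow]
      have h5 := h1 h4
      have h6 := sqrt2_ge
      have h7 : 0 ≤ c * Real.sqrt ((2 : ℝ) ^ r) := mul_nonneg hc hs0
      nlinarith
    · rw [hu]
      by_cases h4 : 2 ^ r ∣ t + 1
      · rw [if_pos h4, if_pos h4]
        have h5 := h1 h4
        have h6 : H + c * Real.sqrt (2 ^ r) ≤ 7 / 2 * c * Real.sqrt (2 ^ r) := by linarith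
        have h7 := pow_le_pow_left₀ (by positivity) h6 2
        refine h7.trans ?_
        push_cast
        have h8 : (7 / 2 * c * Real.sqrt ((2 : ℝ) ^ r)) ^ 2 = 49 / 4 * c ^ 2 * 2 ^ r := by
          rw [mul_pow, hss]; ring
        rw [h8]
        refine mul_le_mul_of_nonneg_left ?_ (by positivity)
        have : (0 : ℝ) ≤ uu r t := Nat.cast_nonneg _
        linarith
      · rw [if_neg h4, if_neg h4, add_zero, add_zero]
        exact h2

lemma sum_uu (n r : ℕ) : ∑ t ∈ Finset.range n, uu r t ≤ r * n := by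
  unfold uu
  rw [Finset.sum_comm]
  calc _ ≤ ∑ _k ∈ Finset.range r, n := by
        refine Finset.sum_le_sum fun k _ => ?_
        rw [← Finset.sum_filter, Finset.sum_const, smul_eq_mul]
        have h1 : ((Finset.range n).filter fun t => 2 ^ k ∣ t + 1).card ≤
            ((Finset.Ioc 0 n).filter fun t => 2 ^ k ∣ t).card := by
          refine Finset.card_le_card_of_injOn (fun t => t + 1) (fun t ht => ?_)
            fun a _ b _ hab => by simpa using hab
          rw [Finset.mem_coe, Finset.mem_filter, Finset.mem_range] at ht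
          rw [Finset.mem_coe, Finset.mem_filter, Finset.mem_Ioc]
          exact ⟨⟨Nat.succ_pos t, ht.1⟩, ht.2⟩
        rw [Nat.Ioc_filter_dvd_card_eq_div] at h1
        calc _ ≤ n / 2 ^ k * 2 ^ k := Nat.mul_le_mul_right _ h1
          _ ≤ n := Nat.div_mul_le_self _ _
    _ = r * n := by rw [Finset.sum_const, Finset.card_range, smul_eq_mul]

end

end Pool.Agent.MG990
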