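import Mathlib
import Pool.Agent.R990.MG.Sh

/-!
# The energy of the shift
-/

open MeasureTheory Matrix Filter
open scoped Matrix.Norms.Frobenius Topology
open Pool.Agent.H906R3.YM hiding Pl
open Pool.Agent.W793.YM Pool.Agent.TH618.YM Pool.Agent.Y14

namespace Pool.Agent.MG990

set_option linter.unusedSectionVars false
set_option linter.unusedVariables false

noncomputable section

variable {G : Type*} [Group G] [TopologicalSpace G] [IsTopologicalGroup G] [CompactSpace G]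
  [SecondCountableTopology G] [MeasurableSpace G] [BorelSpace G] (μ : Measure G)
  [IsProbabilityMeasure μ] [μ.IsMulLeftInvariant] [μ.IsMulRightInvariant] [μ.IsInvInvariant]
  {N n : ℕ} {L : LD G N n} {e m : ℕ} [NeZero m] {q : ℕ}

lemma plq_Ps0 (a : Fin n) (s : ℝ) (U : Ed (e + 3) (2 * m) → G) (x : Fin (e + 3) → ZMod (2 * m))
    {j : Fin (e + 3)} (hj : j ≠ 0) : plqT (Ps L q a s U) x 0 j =
      hh L q a s U x * plqT U x 0 j * (U (x, j) * hh L q a s U (x + eT j) * (U (x, j))⁻¹)⁻¹ := by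
  unfold plqT Ps
  simp only [if_true, if_neg hj]
  group

lemma plq_Ps1 (a : Fin n) (s : ℝ) (U : Ed (e + 3) (2 * m) → G) (x : Fin (e + 3) → ZMod (2 * m))
    {i j : Fin (e + 3)} (hi : i ≠ 0) (hj : j ≠ 0) : plqT (Ps L q a s U) x i j = plqT U x i j := by
  unfold plqT Ps
  simp only [if_neg hi, if_neg hj]

/-- the second difference of the energy of a plaquette -/
def D2 (L : LD G N n) (q : ℕ) (a : Fin n) (s : ℝ) (U : Ed (e + 3) (2 * m) → G)
    (x : Fin (e + 3) → ZMod (2 * m)) (j : Fin (e + 3)) : ℝ :=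
  we L (plqT (Ps L q a s U) x 0 j) + we L (plqT (Ps L q a (-s) U) x 0 j) -
    2 * we L (plqT U x 0 j)

/-- the bound -/
def Bd (L : LD G N n) (q : ℕ) (s : ℝ) (U : Ed (e + 3) (2 * m) → G)
    (x : Fin (e + 3) → ZMod (2 * m)) (j : Fin (e + 3)) : ℝ :=
  s ^ 2 * (1 / (q : ℝ) ^ 2 + 16 * dd L (TT U x * U (x, j)) (TT U (x + eT j)) ^ 2 +
    dv L (plqT U x 0 j) ^ 2)

lemma D2_zero (a : Fin n) (s : ℝ) (U : Ed (e + 3) (2 * m) → G) {x : Fin (e + 3) → ZMod (2 * m)}
    {j : Fin (e + 3)} (hj : j ≠ 0) (h1 : kk q x = 0) (h2 : kk q (x + eT j) = 0) :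
    D2 L q a s U x j = 0 := by
  unfold D2
  rw [plq_Ps0 _ _ _ _ hj, plq_Ps0 _ _ _ _ hj, hh_one h1, hh_one h1, hh_one h2, hh_one h2]
  simp
  ring

lemma D2_le (hq : 1 ≤ q) (a : Fin n) (s : ℝ) (U : Ed (e + 3) (2 * m) → G)
    {x : Fin (e + 3) → ZMod (2 * m)} {j : Fin (e + 3)} (hj : j ≠ 0) (hx : wv x j + 1 < 2 * m) :
    D2 L q a s U x j ≤ Bd L q s U x j := by
  obtain ⟨h, hh1⟩ : ∃ h, h = hh L q a s U x := ⟨_, rfl⟩
  obtain ⟨h', hh2⟩ : ∃ h', h' = U (x, j) * hh L q a s U (x + eT j) * (U (x, j))⁻¹ := ⟨_, rfl⟩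
  obtain ⟨P, hP⟩ : ∃ P, P = plqT U x 0 j := ⟨_, rfl⟩
  obtain ⟨g, hg⟩ : ∃ g, g = TT U x * U (x, j) * (TT U (x + eT j))⁻¹ := ⟨_, rfl⟩
  have e1 : D2 L q a s U x j = we L (h * P * h'⁻¹) + we L (h⁻¹ * P * h') - 2 * we L P := by
    unfold D2
    rw [plq_Ps0 _ _ _ _ hj, plq_Ps0 _ _ _ _ hj, hh_neg, hh_neg, ← hh1, ← hP]
    have e2 : (U (x, j) * (hh L q a s U (x + eT j))⁻¹ * (U (x, j))⁻¹)⁻¹ = h' := by
      rw [hh2]; group
    rw [e2, ← hh2]
  have hgd : dd L (TT U x * U (x, j)) (TT U (x + eT j)) = dv L g := by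
    rw [dd_dv, hg]
  have hq1 : (1 : ℝ) ≤ q := by exact_mod_cast hq
  have hq0 : (0 : ℝ) < q := by linarith
  obtain ⟨k, hk⟩ : ∃ k, k = kk q x := ⟨_, rfl⟩
  obtain ⟨k', hk'⟩ : ∃ k', k' = kk q (x + eT j) := ⟨_, rfl⟩
  have hk1 : |k - k'| ≤ 1 / (2 * q) := by rw [hk, hk']; exact kk_lip hq hj hx
  have hk0 : |k| ≤ 1 := by rw [hk, abs_of_nonneg (kk_nonneg q x)]; exact kk_le q x
  have hk0' : |k'| ≤ 1 := by rw [hk', abs_of_nonneg (kk_nonneg q _)]; exact kk_le q _
  have hs0 := abs_nonneg s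
  have dvg := dv_nonneg (L := L) g
  have dh : dv L h ≤ |s| := by
    rw [hh1]
    unfold hh
    have h1 := dv_conj (L := L) (TT U x)⁻¹ (L.ex a (s * kk q x))
    rw [inv_inv] at h1
    rw [h1]
    refine (dv_ex a _).trans ?_
    rw [abs_mul, ← hk]
    exact mul_le_of_le_one_right hs0 hk0
  have dh' : dv L h' ≤ |s| := by
    rw [hh2, dv_conj]
    unfold hh
    have h1 := dv_conj (L := L) (TT U (x + eT j))⁻¹ (L.ex a (s * kk q (x + eT j)))
    rw [inv_inv] at h1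
    rw [h1]
    refine (dv_ex a _).trans ?_
    rw [abs_mul, ← hk']
    exact mul_le_of_le_one_right hs0 hk0'
  have dhh : dd L h h' ≤ |s| * (1 / (2 * q) + 2 * dv L g) := by
    have h1 : dd L h h' = dd L (L.ex a (s * k)) (g * L.ex a (s * k') * g⁻¹) := by
      have h2 : h = (TT U x)⁻¹ * (L.ex a (s * k) * TT U x) := by
        rw [hh1, hk]; unfold hh; group
      have h3 : h' = (TT U x)⁻¹ * (g * L.ex a (s * k') * g⁻¹ * TT U x) := by
        rw [hh2, hk', hg]; unfold hh; group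
      rw [h2, h3, dd_lmul, dd_rmul]
    rw [h1]
    have h4 := dd_tri (L := L) (L.ex a (s * k)) (L.ex a (s * k')) (g * L.ex a (s * k') * g⁻¹)
    have h5 := dd_ex (L := L) a (s * k) (s * k')
    have h6 := dd_conj (L := L) g (L.ex a (s * k'))
    have h7 := dv_ex (L := L) a (s * k')
    rw [← mul_sub, abs_mul] at h5
    rw [abs_mul] at h7
    have h8 : |s| * |k - k'| ≤ |s| * (1 / (2 * q)) := mul_le_mul_of_nonneg_left hk1 hs0
    have h9 : |s| * |k'| ≤ |s| := mul_le_of_le_one_right hs0 hk0'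
    have h10 : 2 * dv L (L.ex a (s * k')) * dv L g ≤ 2 * |s| * dv L g := by
      refine mul_le_mul_of_nonneg_right ?_ dvg
      linarith
    calc _ ≤ _ := h4
      _ ≤ |s| * (1 / (2 * q)) + 2 * |s| * dv L g := by linarith
      _ = _ := by ring
  have hsd := second_diff (L := L) h h' P
  rw [← e1] at hsd
  have dn := dd_nonneg (L := L) h h'
  have pn := dv_nonneg (L := L) P
  have h11 : dd L h h' ^ 2 ≤ s ^ 2 * (1 / (2 * (q : ℝ) ^ 2) + 8 * dv L g ^ 2) := by
    calc dd L h h' ^ 2 ≤ (|s| * (1 / (2 * q) + 2 * dv L g)) ^ 2 := pow_le_pow_left₀ dn dhh 2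
      _ = s ^ 2 * (1 / (2 * q) + 2 * dv L g) ^ 2 := by rw [mul_pow, sq_abs]
      _ ≤ s ^ 2 * (2 * (1 / (2 * (q : ℝ))) ^ 2 + 2 * (2 * dv L g) ^ 2) := by
          refine mul_le_mul_of_nonneg_left ?_ (sq_nonneg s)
          nlinarith [sq_nonneg (1 / (2 * (q : ℝ)) - 2 * dv L g)]
      _ = _ := by field_simp; ring
  have h12 : dv L P * (dd L h h' * (dv L h + dv L h')) ≤ dd L h h' ^ 2 + s ^ 2 * dv L P ^ 2 := by
    have h13 : dv L P * (dd L h h' * (dv L h + dv L h')) ≤ dv L P * (dd L h h' * (2 * |s|)) := by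
      refine mul_le_mul_of_nonneg_left (mul_le_mul_of_nonneg_left ?_ dn) pn
      linarith
    have h14 : s ^ 2 = |s| ^ 2 := (sq_abs s).symm
    rw [h14]
    nlinarith [sq_nonneg (dd L h h' - |s| * dv L P)]
  unfold Bd
  rw [hgd, ← hP]
  have h15 : s ^ 2 * (1 / (2 * (q : ℝ) ^ 2) + 8 * dv L g ^ 2) +
      s ^ 2 * (1 / (2 * (q : ℝ) ^ 2) + 8 * dv L g ^ 2) =
      s ^ 2 * (1 / (q : ℝ) ^ 2 + 16 * dv L g ^ 2) := by
    field_simp; ring
  linarith

lemma Bd_nonneg (s : ℝ) (U : Ed (e + 3) (2 * m) → G) (x : Fin (e + 3) → ZMod (2 * m))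
    (j : Fin (e + 3)) : 0 ≤ Bd L q s U x j := by
  unfold Bd
  positivity

/-- the second difference of the action -/
theorem act_second (hq : 1 ≤ q) (hqm : 4 * q + 1 < 2 * m) (a : Fin n) (s : ℝ)
    (U : Ed (e + 3) (2 * m) → G) :
    act L (Ps L q a s U) + act L (Ps L q a (-s) U) - 2 * act L U ≤
      ∑ x ∈ SS e m q, ∑ j ∈ Finset.univ.erase (0 : Fin (e + 3)), Bd L q s U x j := by
  unfold act
  rw [Finset.mul_sum, ← Finset.sum_add_distrib, ← Finset.sum_sub_distrib]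
  have h1 : ∀ x : Fin (e + 3) → ZMod (2 * m),
      (∑ i, ∑ j, if i < j then we L (plqT (Ps L q a s U) x i j) else 0) +
        (∑ i, ∑ j, if i < j then we L (plqT (Ps L q a (-s) U) x i j) else 0) -
        2 * (∑ i, ∑ j, if i < j then we L (plqT U x i j) else 0) =
      ∑ j ∈ Finset.univ.erase (0 : Fin (e + 3)), D2 L q a s U x j := by
    intro x
    rw [Finset.mul_sum, ← Finset.sum_add_distrib, ← Finset.sum_sub_distrib,
      Finset.sum_eq_single (0 : Fin (e + 3))]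
    · rw [Finset.mul_sum, ← Finset.sum_add_distrib, ← Finset.sum_sub_distrib,
        ← Finset.add_sum_erase _ _ (Finset.mem_univ (0 : Fin (e + 3)))]
      simp only [lt_irrefl, if_false, mul_zero, add_zero, sub_zero, zero_add]
      refine Finset.sum_congr rfl fun j hj => ?_
      have hj0 : (0 : Fin (e + 3)) < j := Fin.pos_iff_ne_zero.2 (Finset.mem_erase.1 hj).1
      rw [if_pos hj0, if_pos hj0, if_pos hj0]
      rfl
    · intro i _ hi
      rw [Finset.mul_sum, ← Finset.sum_add_distrib, ← Finset.sum_sub_distrib]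
      refine Finset.sum_eq_zero fun j _ => ?_
      split_ifs with hij
      · have hj : j ≠ 0 := by
          rintro rfl
          exact absurd hij (Fin.not_lt_zero i)
        rw [plq_Ps1 _ _ _ _ hi hj, plq_Ps1 _ _ _ _ hi hj]
        ring
      · ring
    · simp
  rw [Finset.sum_congr rfl fun x _ => h1 x]
  rw [← Finset.sum_subset (Finset.subset_univ (SS e m q))]
  · refine Finset.sum_le_sum fun x hx => Finset.sum_le_sum fun j hj => ?_
    refine D2_le hq a s U (Finset.mem_erase.1 hj).1 ?_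
    have := (Finset.mem_filter.1 hx).2 j
    omega
  · intro x _ hx
    refine Finset.sum_eq_zero fun j hj => ?_
    have hj0 := (Finset.mem_erase.1 hj).1
    obtain ⟨h2, h3⟩ := kk_box hq hqm hj0 hx
    exact D2_zero a s U hj0 h2 h3

/-- the strip between the trees of neighbouring points -/
lemma strip_en {β a0 : ℝ} (ha0 : 0 ≤ a0) {r : ℕ}
    (hS : SB μ L (e + 3) m β (fun k => a0 * Real.sqrt (2 ^ k)) (r + 3)) (hqr : q = 2 ^ r)
    (hqm : 4 * q + 1 < 2 * m)
    {x : Fin (e + 3) → ZMod (2 * m)} (hx : x ∈ SS e m q) {j : Fin (e + 3)} (hj : j ≠ 0) :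
    EX μ L β (fun U : Ed (e + 3) (2 * m) → G =>
      dd L (TT U x * U (x, j)) (TT U (x + eT j)) ^ 2) ≤
      49 / 2 * Cs e ^ 2 * a0 ^ 2 * uu (r + 3) (wv x j) := by
  have hx' := (Finset.mem_filter.1 hx).2
  have hp8 : 2 ^ (r + 3) = 8 * q := by rw [hqr, pow_succ, pow_succ, pow_succ]; ring
  have hq1 : 1 ≤ q := by rw [hqr]; exact Nat.one_le_two_pow
  have hv : ∀ k, wv x k < 2 ^ (r + 3) := fun k => by have := hx' k; omega
  have hw : wv (x + eT j) = fun k => wv x k + if k = j then 1 else 0 := by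
    rw [wv_add (by have := hx' j; omega)]
    funext k
    by_cases hk : k = j
    · subst hk; simp [es_same]
    · simp [es_ne hk, hk]
  have hv' : ∀ k, wv (x + eT j) k < 2 ^ (r + 3) := fun k => by
    rw [hw]
    have := hx' k
    simp only
    split_ifs <;> omega
  have hR : r + 3 ≤ 2 * m := by
    have h1 : r + 3 < 2 ^ (r + 3) := Nat.lt_two_pow_self
    have h2 : r + 3 ≤ 4 * 2 ^ r := by
      have : r < 2 ^ r := Nat.lt_two_pow_self
      omega
    omega
  obtain ⟨i1, i2⟩ := strip_aux μ hS hj (r + 3) le_rfl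
    ((0 : Fin (e + 3) → ZMod (2 * m)) + dsp eT (List.replicate (wv x 0) 0)) (wv x)
  have hc : cy (r + 3) (wv x j) = 0 := by
    unfold cy
    rw [if_neg]
    intro h1
    have h2 := Nat.le_of_dvd (Nat.succ_pos _) h1
    have := hx' j
    omega
  rw [hc, ← hw, List.replicate_zero, List.nil_append] at i2
  have h0 : wv (x + eT j) 0 = wv x 0 := wv_add_ne hj.symm
  have hdx : (dsp eT (dt (2 * m) (wv x)) : Fin (e + 3) → ZMod (2 * m)) = x := by
    have h1 := (srt_dt μ hS (r := r + 3) le_rfl hR 0 hv).1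
    rw [h1, ct_wv]
  have h2 : (fun U : Ed (e + 3) (2 * m) → G =>
      dd L (TT U x * U (x, j)) (TT U (x + eT j))) =
      fun U => dd L (tp eT U (0 + dsp eT (List.replicate (wv x 0) 0)) (tw (r + 3) (wv x) ++ [j]))
        (tp eT U (0 + dsp eT (List.replicate (wv x 0) 0)) (tw (r + 3) (wv (x + eT j)))) := by
    funext U
    have e1 : TT U x * U (x, j) = tp eT U 0 (List.replicate (wv x 0) 0 ++
        (tw (r + 3) (wv x) ++ [j])) := by
      have e3 : tp eT U x [j] = U (x, j) := by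
        show U (x, j) * 1 = _
        rw [mul_one]
      rw [← List.append_assoc, ← tw_stable hv hR]
      have e4 : List.replicate (wv x 0) 0 ++ tw (2 * m) (wv x) = dt (2 * m) (wv x) := rfl
      rw [e4, tp_append 0 (dt (2 * m) (wv x)), hdx, zero_add, e3]
      rfl
    have e2 : TT U (x + eT j) = tp eT U 0 (List.replicate (wv x 0) 0 ++
        tw (r + 3) (wv (x + eT j))) := by
      unfold TT dt
      rw [tw_stable hv' hR, h0]
    rw [e1, e2, tp_append 0 (List.replicate (wv x 0) 0), tp_append 0 (List.replicate (wv x 0) 0),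
      dd_lmul]
  rw [← en_sq, h2]
  have hc0 : 0 ≤ Cs e * (a0 * Real.sqrt 2) :=
    mul_nonneg (Cs_nonneg e) (mul_nonneg ha0 (Real.sqrt_nonneg _))
  have h3 : (∑ k ∈ Finset.range (r + 3), if 2 ^ k ∣ wv x j + 1 then
      Cs e * (a0 * Real.sqrt (2 ^ (k + 1))) else 0) =
      ∑ k ∈ Finset.range (r + 3), if 2 ^ k ∣ wv x j + 1 then
      (Cs e * (a0 * Real.sqrt 2)) * Real.sqrt (2 ^ k) else 0 := by
    refine Finset.sum_congr rfl fun k _ => ?_
    split_ifs
    · rw [sqrt2_pow]; ring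
    · rfl
  rw [h3] at i2
  refine (pow_le_pow_left₀ (en_nonneg μ _) i2 2).trans ?_
  refine (geo_sq hc0 (r + 3) (wv x j)).2.trans (le_of_eq ?_)
  rw [mul_pow, mul_pow a0, Real.sq_sqrt (by norm_num)]
  ring

/-- sums over the box -/
lemma sum_SS (j : Fin (e + 3)) (f : ℕ → ℕ) :
    ∑ x ∈ SS e m q, f (wv x j) ≤
      (4 * q + 1) ^ (e + 2) * ∑ t ∈ Finset.range (4 * q + 1), f t := by
  classical
  have h1 : ∑ x ∈ SS e m q, f (wv x j) ≤
      ∑ y ∈ Fintype.piFinset fun _ : Fin (e + 3) => Finset.range (4 * q + 1), f (y j) := by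
    rw [← Finset.sum_image (s := SS e m q) (g := fun x => wv x) (f := fun y => f (y j))
      fun x _ y _ h => wv_inj h]
    refine Finset.sum_le_sum_of_subset fun y hy => ?_
    rw [Finset.mem_image] at hy
    obtain ⟨x, hx, rfl⟩ := hy
    have hx' := (Finset.mem_filter.1 hx).2
    rw [Fintype.mem_piFinset]
    intro i
    rw [Finset.mem_range]
    have := hx' i
    omega
  refine h1.trans (le_of_eq ?_)
  rw [Fintype.sum_piFinset_apply]
  simp

/-- the constant -/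
def CE (e N : ℕ) (A : ℝ) : ℝ :=
  5 ^ (e + 3) * (e + 3) * (1 + 400 * Cs e ^ 2 * A + 2 * N ^ 2)

lemma CE_ge (e N : ℕ) {A : ℝ} (hA : 0 ≤ A) : 1 ≤ CE e N A := by
  unfold CE
  have h1 : (1 : ℝ) ≤ 5 ^ (e + 3) := one_le_pow₀ (by norm_num)
  have h2 : (1 : ℝ) ≤ (e : ℝ) + 3 := by
    have : (0 : ℝ) ≤ e := Nat.cast_nonneg e
    linarith
  have h3 : (1 : ℝ) ≤ 1 + 400 * Cs e ^ 2 * A + 2 * N ^ 2 := by
    have : (0 : ℝ) ≤ 400 * Cs e ^ 2 * A + 2 * N ^ 2 := by positivity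
    linarith
  have h4 : (1 : ℝ) ≤ 5 ^ (e + 3) * ((e : ℝ) + 3) := one_le_mul_of_one_le_of_one_le h1 h2
  exact one_le_mul_of_one_le_of_one_le h4 h3

/-- **the energy of the shift** -/
theorem XX_bound (hm : 2 ≤ m) (hN : 1 ≤ N) {β a0 A lam : ℝ} (hβ0 : 0 < β) (ha0 : 0 ≤ a0)
    (hA : 0 ≤ A) (hlam : 0 ≤ lam) (haA : a0 ^ 2 ≤ A * lam / β) {r : ℕ}
    (hS : SB μ L (e + 3) m β (fun k => a0 * Real.sqrt (2 ^ k)) (r + 3)) (hqr : q = 2 ^ r)
    (hqm : 4 * q + 1 < 2 * m) (hβ1 : (q : ℝ) ^ 2 ≤ β)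
    (hβ2 : (q : ℝ) ^ 2 * ((r + 3 : ℕ) * lam) ≤ β) (a : Fin n) (s : ℝ) :
    EX μ L β (fun U : Ed (e + 3) (2 * m) → G => XX L β q a s U) ≤
      CE e N A * (s ^ 2 * β * (q : ℝ) ^ (e + 1)) := by
  have hq : 1 ≤ q := by rw [hqr]; exact Nat.one_le_two_pow
  have hq1 : (1 : ℝ) ≤ q := by exact_mod_cast hq
  have hq0 : (0 : ℝ) < q := by linarith
  have hX := fun s => XX_cont (L := L) (q := q) (e := e) (m := m) β a s
  have hXn := EX_XX_nonneg μ (L := L) (e := e) (m := m) (β := β) hq a (-s)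
  have hpl : ∀ (x : Fin (e + 3) → ZMod (2 * m)) (j : Fin (e + 3)),
      Continuous fun U : Ed (e + 3) (2 * m) → G => plqT U x 0 j := fun x j => by
    unfold plqT; fun_prop
  have hBc1 : ∀ (x : Fin (e + 3) → ZMod (2 * m)) (j : Fin (e + 3)),
      Continuous fun U : Ed (e + 3) (2 * m) → G =>
        dd L (TT U x * U (x, j)) (TT U (x + eT j)) ^ 2 := fun x j =>
    (dd_cont ((TT_cont x).mul (continuous_apply _)) (TT_cont _)).pow 2
  have hBc2 : ∀ (x : Fin (e + 3) → ZMod (2 * m)) (j : Fin (e + 3)),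
      Continuous fun U : Ed (e + 3) (2 * m) → G => dv L (plqT U x 0 j) ^ 2 := fun x j =>
    (dv_cont.comp (hpl x j)).pow 2
  have hBc : ∀ (x : Fin (e + 3) → ZMod (2 * m)) (j : Fin (e + 3)),
      Continuous fun U : Ed (e + 3) (2 * m) → G => Bd L q s U x j := fun x j => by
    unfold Bd
    exact continuous_const.mul ((continuous_const.add (continuous_const.mul (hBc1 x j))).add
      (hBc2 x j))
  have h1 : EX μ L β (fun U : Ed (e + 3) (2 * m) → G => XX L β q a s U) ≤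
      EX μ L β (fun U : Ed (e + 3) (2 * m) → G => β *
        ∑ x ∈ SS e m q, ∑ j ∈ Finset.univ.erase (0 : Fin (e + 3)), Bd L q s U x j) := by
    have h2 : EX μ L β (fun U : Ed (e + 3) (2 * m) → G => XX L β q a s U) ≤
        EX μ L β (fun U : Ed (e + 3) (2 * m) → G => XX L β q a s U + XX L β q a (-s) U) := by
      rw [EX_add μ (hX s) (hX (-s))]
      linarith
    refine h2.trans (EX_mono μ ((hX s).add (hX (-s))) (continuous_const.mul
      (continuous_finsetSum _ fun x _ => continuous_finsetSum _ fun j _ => hBc x j)) fun U => ?_)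
    have h3 := mul_le_mul_of_nonneg_left (act_second (L := L) hq hqm a s U) hβ0.le
    refine le_trans (le_of_eq ?_) h3
    unfold XX
    ring
  obtain ⟨V, hV⟩ : ∃ V : ℝ, V = s ^ 2 * (1 / (q : ℝ) ^ 2 + 2 * N ^ 2 / β) := ⟨_, rfl⟩
  obtain ⟨W, hW⟩ : ∃ W : ℝ, W = s ^ 2 * (16 * (49 / 2 * Cs e ^ 2 * a0 ^ 2)) := ⟨_, rfl⟩
  have hV0 : 0 ≤ V := by rw [hV]; positivity
  have hW0 : 0 ≤ W := by rw [hW]; positivity
  have hBe : ∀ x ∈ SS e m q, ∀ j ∈ Finset.univ.erase (0 : Fin (e + 3)),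
      EX μ L β (fun U : Ed (e + 3) (2 * m) → G => Bd L q s U x j) ≤
      V + W * uu (r + 3) (wv x j) := by
    intro x hx j hj
    have hj0 := (Finset.mem_erase.1 hj).1
    unfold Bd
    have c1 : Continuous fun U : Ed (e + 3) (2 * m) → G => (1 / (q : ℝ) ^ 2 +
        16 * dd L (TT U x * U (x, j)) (TT U (x + eT j)) ^ 2) :=
      continuous_const.add (continuous_const.mul (hBc1 x j))
    have c2 : Continuous fun U : Ed (e + 3) (2 * m) → G =>
        16 * dd L (TT U x * U (x, j)) (TT U (x + eT j)) ^ 2 := continuous_const.mul (hBc1 x j)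
    rw [EX_smul, EX_add μ c1 (hBc2 x j), EX_add μ continuous_const c2, EX_smul, EX_const]
    have h4 := strip_en μ (L := L) ha0 hS hqr hqm hx hj0
    have h5 := plaq_bound μ (L := L) hm hβ0 hj0.symm x
    rw [hV, hW]
    have h6 : s ^ 2 * (1 / (q : ℝ) ^ 2 + 16 * EX μ L β (fun U : Ed (e + 3) (2 * m) → G =>
        dd L (TT U x * U (x, j)) (TT U (x + eT j)) ^ 2) +
        EX μ L β (fun U : Ed (e + 3) (2 * m) → G => dv L (plqT U x 0 j) ^ 2)) ≤
        s ^ 2 * (1 / (q : ℝ) ^ 2 + 16 * (49 / 2 * Cs e ^ 2 * a0 ^ 2 * uu (r + 3) (wv x j)) +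
        2 * N ^ 2 / β) := by
      refine mul_le_mul_of_nonneg_left ?_ (sq_nonneg s)
      linarith
    refine h6.trans (le_of_eq ?_)
    ring
  refine h1.trans ?_
  have hs1 : EX μ L β (fun U : Ed (e + 3) (2 * m) → G =>
      ∑ x ∈ SS e m q, ∑ j ∈ Finset.univ.erase (0 : Fin (e + 3)), Bd L q s U x j) =
      ∑ x ∈ SS e m q, ∑ j ∈ Finset.univ.erase (0 : Fin (e + 3)),
        EX μ L β (fun U : Ed (e + 3) (2 * m) → G => Bd L q s U x j) := by
    rw [EX_sum μ (SS e m q) (F := fun x (U : Ed (e + 3) (2 * m) → G) =>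
      ∑ j ∈ Finset.univ.erase (0 : Fin (e + 3)), Bd L q s U x j)
      fun x _ => continuous_finsetSum _ fun j _ => hBc x j]
    refine Finset.sum_congr rfl fun x _ => ?_
    rw [EX_sum μ _ (F := fun j (U : Ed (e + 3) (2 * m) → G) => Bd L q s U x j)
      fun j _ => hBc x j]
  rw [EX_smul, hs1]
  have h8 : ((Finset.univ.erase (0 : Fin (e + 3))).card : ℝ) ≤ e + 3 := by
    rw [Finset.card_erase_of_mem (Finset.mem_univ _), Finset.card_univ, Fintype.card_fin]
    have : e + 3 - 1 = e + 2 := rfl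
    rw [this]
    push_cast
    linarith
  obtain ⟨P, hP⟩ : ∃ P : ℝ, P = (4 * (q : ℝ) + 1) ^ (e + 3) := ⟨_, rfl⟩
  have hP0 : 0 ≤ P := by rw [hP]; positivity
  have h6 : ∑ x ∈ SS e m q, ∑ j ∈ Finset.univ.erase (0 : Fin (e + 3)),
      EX μ L β (fun U : Ed (e + 3) (2 * m) → G => Bd L q s U x j) ≤
      P * ((e + 3) * (V + W * (r + 3 : ℕ))) := by
    calc _ ≤ ∑ x ∈ SS e m q, ∑ j ∈ Finset.univ.erase (0 : Fin (e + 3)),
            (V + W * uu (r + 3) (wv x j)) :=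
          Finset.sum_le_sum fun x hx => Finset.sum_le_sum fun j hj => hBe x hx j hj
      _ = ∑ j ∈ Finset.univ.erase (0 : Fin (e + 3)), (((SS e m q).card : ℝ) * V +
            W * ((∑ x ∈ SS e m q, uu (r + 3) (wv x j) : ℕ) : ℝ)) := by
          rw [Finset.sum_comm]
          refine Finset.sum_congr rfl fun j _ => ?_
          rw [Finset.sum_add_distrib, Finset.sum_const, nsmul_eq_mul, ← Finset.mul_sum]
          push_cast
          rfl
      _ ≤ ∑ j ∈ Finset.univ.erase (0 : Fin (e + 3)), (P * V + W * (P * (r + 3 : ℕ))) := by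
          refine Finset.sum_le_sum fun j _ => add_le_add ?_ ?_
          · refine mul_le_mul_of_nonneg_right ?_ hV0
            rw [hP]
            exact_mod_cast card_SS (e := e) (m := m) (q := q)
          · refine mul_le_mul_of_nonneg_left ?_ hW0
            have h9 := (sum_SS (e := e) (m := m) (q := q) j (uu (r + 3))).trans
              (Nat.mul_le_mul_left _ (sum_uu (4 * q + 1) (r + 3)))
            have h10 : (4 * q + 1) ^ (e + 2) * ((r + 3) * (4 * q + 1)) =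
              (4 * q + 1) ^ (e + 3) * (r + 3) := by ring
            rw [h10] at h9
            rw [hP]
            exact_mod_cast h9
      _ = ((Finset.univ.erase (0 : Fin (e + 3))).card : ℝ) *
            (P * V + W * (P * (r + 3 : ℕ))) := by
          rw [Finset.sum_const, nsmul_eq_mul]
      _ ≤ (e + 3) * (P * V + W * (P * (r + 3 : ℕ))) :=
          mul_le_mul_of_nonneg_right h8 (by positivity)
      _ = _ := by ring
  refine (mul_le_mul_of_nonneg_left h6 hβ0.le).trans ?_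
  have h9 : P ≤ 5 ^ (e + 3) * (q : ℝ) ^ (e + 3) := by
    rw [hP, ← mul_pow]
    exact pow_le_pow_left₀ (by positivity) (by linarith) _
  have h10 : (q : ℝ) ^ 2 * (β * (V + W * (r + 3 : ℕ))) ≤
      s ^ 2 * ((1 + 400 * Cs e ^ 2 * A + 2 * N ^ 2) * β) := by
    have e1 : (q : ℝ) ^ 2 * (β * (V + W * (r + 3 : ℕ))) = s ^ 2 * (β + 2 * N ^ 2 * (q : ℝ) ^ 2 +
        392 * Cs e ^ 2 * ((q : ℝ) ^ 2 * ((r + 3 : ℕ) * (β * a0 ^ 2)))) := by
      rw [hV, hW]
      field_simp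
      ring
    rw [e1]
    refine mul_le_mul_of_nonneg_left ?_ (sq_nonneg s)
    have e2 : β * a0 ^ 2 ≤ A * lam := by
      have := mul_le_mul_of_nonneg_left haA hβ0.le
      rwa [mul_div_cancel₀ _ hβ0.ne'] at this
    have e3 : (q : ℝ) ^ 2 * ((r + 3 : ℕ) * (β * a0 ^ 2)) ≤ A * β := by
      calc (q : ℝ) ^ 2 * ((r + 3 : ℕ) * (β * a0 ^ 2)) ≤
            (q : ℝ) ^ 2 * ((r + 3 : ℕ) * (A * lam)) :=
            mul_le_mul_of_nonneg_left (mul_le_mul_of_nonneg_left e2 (Nat.cast_nonneg _))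
              (by positivity)
        _ = A * ((q : ℝ) ^ 2 * ((r + 3 : ℕ) * lam)) := by ring
        _ ≤ A * β := mul_le_mul_of_nonneg_left hβ2 hA
    have e4 : 392 * Cs e ^ 2 * ((q : ℝ) ^ 2 * ((r + 3 : ℕ) * (β * a0 ^ 2))) ≤
        392 * Cs e ^ 2 * (A * β) := mul_le_mul_of_nonneg_left e3 (by positivity)
    have e5 : 2 * (N : ℝ) ^ 2 * (q : ℝ) ^ 2 ≤ 2 * N ^ 2 * β :=
      mul_le_mul_of_nonneg_left hβ1 (by positivity)
    have e6 : 0 ≤ Cs e ^ 2 * (A * β) := by positivity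
    linarith
  have hVW : 0 ≤ V + W * (r + 3 : ℕ) := by positivity
  calc β * (P * ((e + 3) * (V + W * (r + 3 : ℕ)))) =
        P * ((e + 3) * (β * (V + W * (r + 3 : ℕ)))) := by ring
    _ ≤ (5 ^ (e + 3) * (q : ℝ) ^ (e + 3)) * ((e + 3) * (β * (V + W * (r + 3 : ℕ)))) :=
        mul_le_mul_of_nonneg_right h9 (by positivity)
    _ = 5 ^ (e + 3) * (e + 3) * (q : ℝ) ^ (e + 1) *
        ((q : ℝ) ^ 2 * (β * (V + W * (r + 3 : ℕ)))) := by ring
    _ ≤ 5 ^ (e + 3) * (e + 3) * (q : ℝ) ^ (e + 1) *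
        (s ^ 2 * ((1 + 400 * Cs e ^ 2 * A + 2 * N ^ 2) * β)) :=
        mul_le_mul_of_nonneg_left h10 (by positivity)
    _ = _ := by unfold CE; ring

end

end Pool.Agent.MG990
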