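import Mathlib
import Pool.Agent.R990.MG.En

/-!
# The family of paths
-/

open MeasureTheory Matrix Filter
open scoped Matrix.Norms.Frobenius Topology
open Pool.Agent.H906R3.YM hiding Pl
open Pool.Agent.W793.YM Pool.Agent.TH618.YM Pool.Agent.Y14
open Pool.Agent.R990 (fw fw_succ dsp_fw length_fw mem_fw)

namespace Pool.Agent.MG990

set_option linter.unusedSectionVars false
set_option linter.unusedVariables false

noncomputable section

section cnt

variable {e q : ℕ}

/-- the transversal comb -/
def vT (u : Fin (e + 1) → Fin q) : Fin (e + 3) → ℕ := fun j =>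
  if j.val = 0 then 0 else if j.val = 1 then 0 else if h : j.val - 1 < e + 1 then
    2 * q + (u ⟨j.val - 1, h⟩ : ℕ) else 0

/-- the way to the rectangle -/
def AA (r : ℕ) (a : Fin q) (u : Fin (e + 1) → Fin q) : List (Fin (e + 3)) :=
  fw 1 0 r a ++ (List.replicate (q + (u 0 : ℕ) - a) 1 ++ cb (vT u))

/-- its displacement -/
def va (a : Fin q) (u : Fin (e + 1) → Fin q) : Fin (e + 3) → ℕ := fun j =>
  if j.val = 0 then (a : ℕ) else if h : j.val - 1 < e + 1 then
    2 * q + (u ⟨j.val - 1, h⟩ : ℕ) else 0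

lemma count_fw {d : ℕ} {i k : Fin d} (r v : ℕ) (hv : v < 2 ^ r) (j : Fin d) :
    (fw i k r v).count j = (if i = j then 2 ^ r + v else 0) + if k = j then v else 0 := by
  induction r generalizing v with
  | zero =>
    have h0 : v = 0 := by simpa using hv
    subst h0
    simp only [fw, List.count_singleton, beq_iff_eq, pow_zero, add_zero, ite_self]
  | succ r ih =>
    have hp : 2 ^ (r + 1) = 2 * 2 ^ r := by rw [pow_succ]; ring
    rw [hp] at hv
    rw [fw_succ, List.count_append, List.count_append, List.count_replicate,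
      List.count_replicate, ih (v / 2) (by omega), hp]
    simp only [beq_iff_eq]
    split_ifs <;> omega

lemma va_zero (a : Fin q) (u : Fin (e + 1) → Fin q) : va a u 0 = (a : ℕ) := by
  unfold va; rw [if_pos (by rfl)]

lemma va_one (a : Fin q) (u : Fin (e + 1) → Fin q) : va a u 1 = 2 * q + (u 0 : ℕ) := by
  unfold va
  have h1 : (1 : Fin (e + 3)).val = 1 := rfl
  simp only [h1, one_ne_zero, if_false, Nat.sub_self, Nat.succ_pos, dif_pos]
  rfl

lemma va_last (a : Fin q) (u : Fin (e + 1) → Fin q) : va a u (Fin.last (e + 2)) = 0 := by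
  unfold va
  simp

lemma va_oth (a : Fin q) (u : Fin (e + 1) → Fin q) {j : Fin (e + 3)} (h0 : j ≠ 0) (h1 : j ≠ 1) :
    va a u j = vT u j := by
  have h0' : ¬(j.val = 0) := fun h => h0 (Fin.ext h)
  have h1' : ¬(j.val = 1) := fun h => h1 (Fin.ext h)
  unfold va vT
  simp only [h0', h1', if_false]

lemma va_le (a : Fin q) (u : Fin (e + 1) → Fin q) (j : Fin (e + 3)) : va a u j ≤ 3 * q := by
  unfold va
  have := a.2
  split_ifs with h1 h2
  · omega
  · have := (u ⟨j.val - 1, h2⟩).2
    omega
  · omega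

lemma vT_le (u : Fin (e + 1) → Fin q) (j : Fin (e + 3)) : vT u j ≤ 3 * q := by
  unfold vT
  split_ifs with h1 h2 h3
  · omega
  · omega
  · have := (u ⟨j.val - 1, h3⟩).2
    omega
  · omega

lemma count_AA {r : ℕ} (hqr : q = 2 ^ r) (a : Fin q) (u : Fin (e + 1) → Fin q)
    (j : Fin (e + 3)) : (AA r a u).count j = va a u j := by
  have ha := a.2
  have hu := (u 0).2
  unfold AA
  rw [List.count_append, List.count_append, List.count_replicate, count_cb,
    count_fw r a (by rw [← hqr]; exact a.2), ← hqr]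
  simp only [beq_iff_eq]
  by_cases h0 : j = 0
  · subst h0
    have h1 : ¬((1 : Fin (e + 3)) = 0) := one_ne
    have h2 : vT u (0 : Fin (e + 3)) = 0 := by unfold vT; rw [if_pos (by rfl)]
    rw [va_zero, h2, if_neg h1, if_neg h1, if_pos rfl]
    omega
  · by_cases h1 : j = 1
    · subst h1
      have h3 : ¬((0 : Fin (e + 3)) = 1) := Ne.symm one_ne
      have h2 : vT u (1 : Fin (e + 3)) = 0 := by
        unfold vT
        rw [if_neg (by exact one_ne_zero), if_pos (by rfl)]
      rw [va_one, h2, if_pos rfl, if_pos rfl, if_neg h3]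
      omega
    · rw [va_oth a u h0 h1, if_neg (Ne.symm h1), if_neg (Ne.symm h1), if_neg (Ne.symm h0)]
      omega

/-- the first part of the first path -/
def PA (r : ℕ) (o : OO e q) : List (Fin (e + 3)) :=
  AA r o.1 o.2.2.2 ++ List.replicate (rr o) 0

/-- the second part of the first path -/
def PB (r : ℕ) (o : OO e q) : List (Fin (e + 3)) := AA r o.2.1 o.2.2.2

/-- the first part of the second path -/
def QA (r : ℕ) (o : OO e q) : List (Fin (e + 3)) :=
  AA r o.1 o.2.2.2 ++ (List.replicate (rv o) 1 ++ List.replicate (rr o) 0)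

/-- the second part of the second path -/
def QB (r : ℕ) (o : OO e q) : List (Fin (e + 3)) :=
  AA r o.2.1 o.2.2.2 ++ List.replicate (rv o) 1

/-- the path between the end points -/
def Zq (e q : ℕ) : List (Fin (e + 3)) := List.replicate (2 * q) 0

lemma vA_eq (o : OO e q) : vA o = va o.1 o.2.2.2 := rfl

lemma count_Zq (j : Fin (e + 3)) : (Zq e q).count j = if (0 : Fin (e + 3)) = j then 2 * q else 0 := by
  unfold Zq
  rw [List.count_replicate]
  simp only [beq_iff_eq]

lemma rr_eq (o : OO e q) : (o.1 : ℕ) + rr o = 2 * q + o.2.1 := by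
  have := o.1.2
  unfold rr
  omega

lemma rv_le (o : OO e q) : rv o ≤ 3 * q := by
  have := o.2.2.1.2
  unfold rv
  omega

lemma rv_eq (o : OO e q) : 2 * q + (o.2.2.2 0 : ℕ) + rv o = 4 * q + o.2.2.1 := by
  have := (o.2.2.2 0).2
  unfold rv
  omega

/-- the end points of the first paths agree -/
lemma count_P {r : ℕ} (hqr : q = 2 ^ r) (o : OO e q) (j : Fin (e + 3)) :
    (PA r o).count j = (Zq e q ++ PB r o).count j := by
  have h0 := rr_eq o
  unfold PA PB
  rw [List.count_append, List.count_append, List.count_replicate, count_AA hqr, count_AA hqr,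
    count_Zq]
  simp only [beq_iff_eq]
  by_cases hj : j = 0
  · subst hj
    rw [va_zero, va_zero, if_pos rfl, if_pos rfl]
    omega
  · rw [if_neg (Ne.symm hj), if_neg (Ne.symm hj)]
    unfold va
    have : ¬(j.val = 0) := fun h => hj (Fin.ext h)
    simp only [this, if_false]
    omega

lemma count_Q {r : ℕ} (hqr : q = 2 ^ r) (o : OO e q) (j : Fin (e + 3)) :
    (QA r o).count j = (Zq e q ++ QB r o).count j := by
  have h1 := count_P hqr o j
  unfold PA PB at h1
  unfold QA QB
  rw [List.count_append, List.count_append] at h1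
  rw [List.count_append, List.count_append, List.count_append, List.count_append]
  omega

lemma cPA_le {r : ℕ} (hqr : q = 2 ^ r) (o : OO e q) (j : Fin (e + 3)) :
    (PA r o).count j ≤ 5 * q ∧ (QA r o).count j ≤ 5 * q := by
  have h0 := rr_eq o
  have h1 := rv_eq o
  have h2 := rv_le o
  have h3 := o.2.1.2
  have h4 := o.2.2.1.2
  unfold PA QA
  rw [List.count_append, List.count_append, List.count_append, List.count_replicate,
    List.count_replicate, count_AA hqr]
  simp only [beq_iff_eq]
  have h5 := va_le o.1 o.2.2.2 j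
  have h01 : ¬((0 : Fin (e + 3)) = 1) := Ne.symm one_ne
  by_cases hj : j = 0
  · subst hj
    rw [va_zero, if_pos rfl, if_neg one_ne]
    omega
  · rw [if_neg (Ne.symm hj)]
    by_cases hj1 : j = 1
    · subst hj1
      rw [va_one, if_pos rfl]
      omega
    · rw [if_neg (Ne.symm hj1)]
      omega

lemma cPB_le {r : ℕ} (hqr : q = 2 ^ r) (o : OO e q) (j : Fin (e + 3)) :
    (PB r o).count j ≤ 5 * q ∧ (QB r o).count j ≤ 5 * q := by
  have h1 := cPA_le hqr o j
  rw [count_P hqr, count_Q hqr, List.count_append, List.count_append] at h1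
  omega

lemma cPA_last {r : ℕ} (hqr : q = 2 ^ r) (o : OO e q) :
    (PA r o).count (Fin.last (e + 2)) = 0 ∧ (QA r o).count (Fin.last (e + 2)) = 0 := by
  unfold PA QA
  rw [List.count_append, List.count_append, List.count_append, List.count_replicate,
    List.count_replicate, count_AA hqr, va_last]
  simp only [beq_iff_eq]
  rw [if_neg (Ne.symm last_ne0), if_neg (Ne.symm last_ne1)]
  omega

lemma cPB_last {r : ℕ} (hqr : q = 2 ^ r) (o : OO e q) :
    (PB r o).count (Fin.last (e + 2)) = 0 ∧ (QB r o).count (Fin.last (e + 2)) = 0 := by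
  have h1 := cPA_last hqr o
  rw [count_P hqr, count_Q hqr, List.count_append, List.count_append] at h1
  omega

lemma len_le {w : List (Fin (e + 3))} (h : ∀ j, w.count j ≤ 5 * q) :
    w.length ≤ 5 * (e + 3) * q := by
  rw [length_count]
  calc _ ≤ ∑ _j : Fin (e + 3), 5 * q := Finset.sum_le_sum fun j _ => h j
    _ = _ := by rw [Finset.sum_const, Finset.card_univ, Fintype.card_fin, smul_eq_mul]; ring

end cnt

section gen

variable {e q : ℕ} {A : Type*} [AddCommGroup A] (u : Fin (e + 3) → A)

lemma dsp_eq {w w' : List (Fin (e + 3))} (h : ∀ j, w.count j = w'.count j) :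
    dsp u w = dsp u w' := by
  rw [dsp_count, dsp_count]
  simp only [h]

lemma dsp_P {r : ℕ} (hqr : q = 2 ^ r) (o : OO e q) :
    dsp u (PA r o) = (2 * q) • u 0 + dsp u (PB r o) := by
  rw [dsp_eq u (count_P hqr o), dsp_append]
  unfold Zq
  rw [dsp_rep]

lemma dsp_Q {r : ℕ} (hqr : q = 2 ^ r) (o : OO e q) :
    dsp u (QA r o) = (2 * q) • u 0 + dsp u (QB r o) := by
  rw [dsp_eq u (count_Q hqr o), dsp_append]
  unfold Zq
  rw [dsp_rep]

variable {G : Type*} [Group G] [TopologicalSpace G] {N n : ℕ} (L : LD G N n)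

/-- a pair of transports -/
def pp (U : A × Fin (e + 3) → G) (x y : A) (w w' : List (Fin (e + 3))) : Mat N :=
  L.rho (tp u U x w) * (L.rho (tp u U y w'))ᴴ

/-- the field -/
def phi (r q : ℕ) (U : A × Fin (e + 3) → G) (x : A) : Mat N :=
  ((Fintype.card (OO e q) : ℝ))⁻¹ • ∑ o : OO e q,
    (pp u L U x (x + (2 * q) • u 0) (PA r o) (PB r o) -
      pp u L U x (x + (2 * q) • u 0) (QA r o) (QB r o))

variable {u L}

lemma pp_gauge (γ : A → G) (U : A × Fin (e + 3) → G) {x y : A} {w w' : List (Fin (e + 3))}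
    (h : x + dsp u w = y + dsp u w') :
    pp u L (fun f => γ f.1 * U f * (γ (f.1 + u f.2))⁻¹) x y w w' =
      L.rho (γ x) * pp u L U x y w w' * (L.rho (γ y))ᴴ := by
  unfold pp
  rw [tp_gauge, tp_gauge, h]
  simp only [map_mul, L.rho_inv, conjTranspose_mul, conjTranspose_conjTranspose]
  have e1 := L.unit' (γ (y + dsp u w'))
  obtain ⟨B, hB⟩ : ∃ B, B = L.rho (γ (y + dsp u w')) := ⟨_, rfl⟩
  rw [← hB] at e1 ⊢
  calc _ = L.rho (γ x) * L.rho (tp u U x w) * (Bᴴ * B) * (L.rho (tp u U y w'))ᴴ *
        (L.rho (γ y))ᴴ := by simp only [Matrix.mul_assoc]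
    _ = _ := by
        rw [e1, mul_one]
        simp only [Matrix.mul_assoc]

lemma phi_gauge {r : ℕ} (hqr : q = 2 ^ r) (γ : A → G) (U : A × Fin (e + 3) → G) (x : A) :
    phi u L r q (fun f => γ f.1 * U f * (γ (f.1 + u f.2))⁻¹) x =
      L.rho (γ x) * phi u L r q U x * (L.rho (γ (x + (2 * q) • u 0)))ᴴ := by
  unfold phi
  rw [mul_smul_comm, smul_mul_assoc, Finset.mul_sum, Finset.sum_mul]
  congr 1
  refine Finset.sum_congr rfl fun o _ => ?_
  rw [pp_gauge γ U (by rw [dsp_P u hqr, add_assoc]), pp_gauge γ U (by rw [dsp_Q u hqr, add_assoc]),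
    mul_sub, sub_mul]

lemma phi_map {r : ℕ} {A' : Type*} [AddCommGroup A'] {u' : Fin (e + 3) → A'}
    {U : A × Fin (e + 3) → G}
    {U' : A' × Fin (e + 3) → G} (f : A →+ A') (hu : ∀ i, f (u i) = u' i)
    (hU : ∀ e, U e = U' (f e.1, e.2)) (x : A) : phi u L r q U x = phi u' L r q U' (f x) := by
  unfold phi pp
  congr 1
  refine Finset.sum_congr rfl fun o _ => ?_
  rw [tp_map f hu hU, tp_map f hu hU, tp_map f hu hU, tp_map f hu hU, map_add, map_nsmul, hu]

lemma phi_shift {r : ℕ} (U : A × Fin (e + 3) → G) (z x : A) :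
    phi u L r q (fun f => U (f.1 + z, f.2)) x = phi u L r q U (x + z) := by
  unfold phi pp
  congr 1
  refine Finset.sum_congr rfl fun o _ => ?_
  rw [tp_shift, tp_shift, tp_shift, tp_shift, add_right_comm]

lemma phi_congr {r : ℕ} (hqr : q = 2 ^ r) {U U' : A × Fin (e + 3) → G} {x : A}
    (h : ∀ w1 : List (Fin (e + 3)), (∀ j, w1.count j ≤ 7 * q) →
      w1.count (Fin.last (e + 2)) = 0 → ∀ i, i ≠ Fin.last (e + 2) →
      U (x + dsp u w1, i) = U' (x + dsp u w1, i)) : phi u L r q U x = phi u L r q U' x := by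
  have key : ∀ w : List (Fin (e + 3)), (∀ j, w.count j ≤ 5 * q) →
      w.count (Fin.last (e + 2)) = 0 → tp u U x w = tp u U' x w ∧
      tp u U (x + (2 * q) • u 0) w = tp u U' (x + (2 * q) • u 0) w := by
    intro w hw hl
    have key1 : ∀ c : List (Fin (e + 3)), (∀ j, c.count j ≤ 2 * q) →
        c.count (Fin.last (e + 2)) = 0 →
        tp u U (x + dsp u c) w = tp u U' (x + dsp u c) w := by
      intro c hc hcl
      refine tp_congr fun f hf => ?_
      obtain ⟨w1, w2, h1, h2⟩ := mem_lk hf
      have h3 : f = (x + dsp u (c ++ w1), f.2) := Prod.ext (by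
        rw [h2, dsp_append, add_assoc]) rfl
      rw [h3]
      have h4 : ∀ j, w1.count j ≤ w.count j := fun j => by
        rw [h1, List.count_append]; omega
      refine h (c ++ w1) (fun j => ?_) ?_ f.2 (not_last hl (by rw [h1]; simp))
      · have := hw j
        have := h4 j
        have := hc j
        rw [List.count_append]
        omega
      · have := h4 (Fin.last (e + 2))
        rw [List.count_append]
        omega
    refine ⟨?_, ?_⟩
    · have h1 := key1 [] (fun j => by simp) (by simp)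
      rwa [dsp_nil, add_zero] at h1
    · have h1 := key1 (Zq e q) (fun j => by rw [count_Zq]; split_ifs <;> omega) (by
        rw [count_Zq, if_neg (Ne.symm last_ne0)])
      unfold Zq at h1
      rwa [dsp_rep] at h1
  unfold phi pp
  congr 1
  refine Finset.sum_congr rfl fun o _ => ?_
  rw [(key _ (fun j => (cPA_le hqr o j).1) (cPA_last hqr o).1).1,
    (key _ (fun j => (cPA_le hqr o j).2) (cPA_last hqr o).2).1,
    (key _ (fun j => (cPB_le hqr o j).1) (cPB_last hqr o).1).2,
    (key _ (fun j => (cPB_le hqr o j).2) (cPB_last hqr o).2).2]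

end gen

end

end Pool.Agent.MG990
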