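import Mathlib
import Pool.Agent.Y14.Dif
import Pool.Agent.R990.MG.Par
import Pool.Agent.R990.MG.NzD
import Pool.Agent.R990.Ovl

/-!
# Overlaps of the paths
-/

open Matrix Filter
open Pool.Agent.H906R3.YM hiding Pl
open Pool.Agent.W793.YM Pool.Agent.TH618.YM Pool.Agent.Y14
open Pool.Agent.R990 (fw fw_succ dsp_fw length_fw mem_fw mem_fan pa pa_i pa_k map_lk_nodup
  card_div card_filter_le nm)

namespace Pool.Agent.MG990

set_option linter.unusedSectionVars false
set_option linter.unusedVariables false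

noncomputable section

section fan

variable {d l : ℕ} [NeZero l] {i k : Fin d}

/-- multiplicities in a fan -/
lemma nm_fan2 (hik : i ≠ k) (j : ℕ) {O : Finset ℕ} (hO : ∀ s ∈ O, s < 2 ^ (j + 1))
    (x : Fin d → ZMod l) (hl : 2 ^ (j + 2) ≤ l) (e : (Fin d → ZMod l) × Fin d) :
    (O.filter fun s => e ∈ lk eT x (fw i k (j + 1) s)).card ≤
      ∑ r ∈ Finset.range (j + 1), if pa x i e < 2 ^ (r + 2) then 2 ^ (j + 1 - r) else 0 := by
  classical
  obtain ⟨cc, hcc⟩ : ∃ cc : ℕ → ℕ, cc = fun r => if e.2 = i then pa x k e else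
    (pa x i e - 2 ^ (r + 1)) / 2 := ⟨_, rfl⟩
  have hsub : (O.filter fun s => e ∈ lk eT x (fw i k (j + 1) s)) ⊆
      (Finset.range (j + 1)).biUnion fun r => if pa x i e < 2 ^ (r + 2) then
        O.filter (fun s => s / 2 ^ (j + 1 - r) = cc r) else ∅ := by
    intro s hs
    rw [Finset.mem_filter] at hs
    obtain ⟨hs, he⟩ := hs
    obtain ⟨a, b, r, h1, h2, h3, h4, h5, h6, h7, h8⟩ := mem_fan j s (hO s hs) he
    have hrj : 2 ^ (r + 2) ≤ 2 ^ (j + 2) := Nat.pow_le_pow_right (by norm_num) (by omega)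
    have ea : pa x i e = a := pa_i hik h1 (by omega)
    have eb : pa x k e = b := pa_k hik h1 (by omega)
    rw [Finset.mem_biUnion]
    refine ⟨r, Finset.mem_range.2 (by omega), ?_⟩
    rw [if_pos (by rw [ea]; omega), Finset.mem_filter]
    refine ⟨hs, ?_⟩
    rw [hcc]
    simp only
    rcases h5 with ⟨h5, h9⟩ | ⟨h5, h9⟩
    · rw [if_pos h5, eb, h9]
    · rw [if_neg (by rw [h5]; exact hik.symm), ea, h9]
  refine (Finset.card_le_card hsub).trans (Finset.card_biUnion_le.trans ?_)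
  refine Finset.sum_le_sum fun r _ => ?_
  split_ifs with h
  · exact card_div _ _ (by positivity)
  · simp

end fan

section sel

variable {e q : ℕ}

lemma card_sel0 (p : ℕ → Prop) [DecidablePred p] :
    (Finset.univ.filter fun a : Fin q => p (a : ℕ)).card = ((Finset.range q).filter p).card := by
  rw [Finset.card_filter, Finset.card_filter,
    Fin.sum_univ_eq_sum_range (fun i => if p i then 1 else 0) q]

lemma card_sel1 (p : ℕ → Prop) [DecidablePred p] :
    (Finset.univ.filter fun o : OO e q => p (o.1 : ℕ)).card =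
      ((Finset.range q).filter p).card * q ^ (e + 3) := by
  have h1 : (Finset.univ.filter fun o : OO e q => p (o.1 : ℕ)) =
      (Finset.univ.filter fun a : Fin q => p (a : ℕ)) ×ˢ
        (Finset.univ : Finset (Fin q × Fin q × (Fin (e + 1) → Fin q))) := by
    ext o
    simp
  rw [h1, Finset.card_product, card_sel0]
  congr 1
  rw [Finset.card_univ, Fintype.card_prod, Fintype.card_prod, Fintype.card_fun,
    Fintype.card_fin, Fintype.card_fin]
  ring

lemma card_sel2 (p : ℕ → Prop) [DecidablePred p] :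
    (Finset.univ.filter fun o : OO e q => p (o.2.1 : ℕ)).card =
      ((Finset.range q).filter p).card * q ^ (e + 3) := by
  have h1 : (Finset.univ.filter fun o : OO e q => p (o.2.1 : ℕ)) =
      (Finset.univ : Finset (Fin q)) ×ˢ ((Finset.univ.filter fun a : Fin q => p (a : ℕ)) ×ˢ
        (Finset.univ : Finset (Fin q × (Fin (e + 1) → Fin q)))) := by
    ext o
    simp
  rw [h1, Finset.card_product, Finset.card_product, card_sel0]
  rw [Finset.card_univ, Finset.card_univ, Fintype.card_prod, Fintype.card_fun,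
    Fintype.card_fin, Fintype.card_fin]
  ring

end sel

variable {e m q : ℕ} [NeZero m]

lemma zero_not_mem (a : Fin q) (u : Fin (e + 1) → Fin q) (c : ℕ) :
    (0 : Fin (e + 3)) ∉ List.replicate c 1 ++ cb (vT u) := by
  rw [List.mem_append, not_or]
  refine ⟨fun h => ?_, fun h => ?_⟩
  · exact one_ne (List.eq_of_mem_replicate h).symm
  · unfold cb at h
    exact (mem_cmb h).2 (by unfold vT; rw [if_pos (by rfl)])

/-- beginnings of the way -/
lemma AA_pre {r : ℕ} (hqr : q = 2 ^ r) {a : Fin q} {u : Fin (e + 1) → Fin q}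
    {w1 w2 : List (Fin (e + 3))} {i : Fin (e + 3)} (h : AA r a u = w1 ++ i :: w2) :
    (i = 0 → w1.count 1 < 2 * q) ∧ w1.count 0 ≤ a ∧
      ((∃ w3, fw 1 0 r a = w1 ++ i :: w3) ∨ w1.count 0 = a) := by
  have ha := a.2
  have hc := count_AA hqr a u (0 : Fin (e + 3))
  rw [va_zero, h, List.count_append] at hc
  obtain ⟨rest, hrest⟩ : ∃ rest, rest = List.replicate (q + (u 0 : ℕ) - a) 1 ++
    cb (vT u) := ⟨_, rfl⟩
  have h0 : (0 : Fin (e + 3)) ∉ rest := by rw [hrest]; exact zero_not_mem a u _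
  have hf0 : (fw 1 0 r a : List (Fin (e + 3))).count 0 = a := by
    rw [count_fw r a (by rw [← hqr]; exact a.2), if_neg one_ne, if_pos rfl, zero_add]
  have hf1 : (fw 1 0 r a : List (Fin (e + 3))).count 1 = q + a := by
    rw [count_fw r a (by rw [← hqr]; exact a.2), if_pos rfl, if_neg (Ne.symm one_ne), ← hqr,
      add_zero]
  unfold AA at h
  rw [← hrest, List.append_eq_append_iff] at h
  refine ⟨fun hi => ?_, by omega, ?_⟩
  · rcases h with ⟨c, h1, h2⟩ | ⟨c, h1, h2⟩
    · exfalso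
      apply h0
      rw [h2, hi]
      simp
    · have h3 : w1.count 1 ≤ (fw 1 0 r a : List (Fin (e + 3))).count 1 := by
        rw [h1, List.count_append]
        omega
      omega
  · rcases h with ⟨c, h1, h2⟩ | ⟨c, h1, h2⟩
    · right
      have h3 : c.count 0 = 0 := by
        refine List.count_eq_zero.2 fun h4 => h0 ?_
        rw [h2]
        simp [h4]
      rw [h1, List.count_append, hf0, h3, add_zero]
    · cases c with
      | nil =>
        right
        rw [List.append_nil] at h1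
        rw [← h1, hf0]
      | cons j c =>
        left
        rw [List.cons_append, List.cons.injEq] at h2
        exact ⟨c, by rw [h1, h2.1]⟩

/-- the base point of the paths -/
def y0 (e m : ℕ) : Fin (e + 3) → ZMod (2 * m) := eT (Fin.last (e + 2))

/-- the other base point -/
def y1 (e m q : ℕ) : Fin (e + 3) → ZMod (2 * m) := y0 e m + (2 * q) • eT 0

lemma y1_0 (hm : 2 * q < 2 * m) : (y1 e m q) 0 = ((2 * q : ℕ) : ZMod (2 * m)) := by
  unfold y1 y0
  rw [Pi.add_apply]
  have h1 : (eT (Fin.last (e + 2)) : Fin (e + 3) → ZMod (2 * m)) 0 = 0 := by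
    simp [eT, zero_nel]
  rw [h1, zero_add]
  simp [eT]

lemma y1_1 : (y1 e m q) 1 = (y0 e m) 1 := by
  unfold y1
  rw [Pi.add_apply]
  simp [eT]

lemma y0_0 : (y0 e m) 0 = 0 := by
  unfold y0
  simp [eT, zero_nel]

lemma y0_1 : (y0 e m) 1 = 0 := by
  unfold y0
  simp [eT, one_nel]

lemma pa_pre {y : Fin (e + 3) → ZMod (2 * m)} {w1 : List (Fin (e + 3))}
    {f : Ed (e + 3) (2 * m)} (h : f.1 = y + dsp eT w1) {j : Fin (e + 3)}
    (hw : w1.count j < 2 * m) : pa y j f = w1.count j := by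
  unfold pa
  rw [h, add_sub_cancel_left, dsp_apply, ZMod.val_natCast_of_lt hw]

lemma pa_y1 (f : Ed (e + 3) (2 * m)) : pa (y1 e m q) 1 f = pa (y0 e m) 1 f := by
  unfold pa
  rw [Pi.sub_apply, Pi.sub_apply, y1_1]

/-- the multiplicity -/
def Ph (m j : ℕ) [NeZero m] (f : Ed (e + 3) (2 * m)) : ℕ :=
  (∑ r ∈ Finset.range (j + 1), if pa (y0 e m) 1 f < 2 ^ (r + 2) then 2 ^ (j + 1 - r) else 0) + 1

/-- a link of the way -/
lemma mem_AA {r : ℕ} (hqr : q = 2 ^ r) (hqm : 5 * q < 2 * m) {a : Fin q}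
    {u : Fin (e + 1) → Fin q} {y : Fin (e + 3) → ZMod (2 * m)} {f : Ed (e + 3) (2 * m)}
    (hf : f ∈ lk eT y (AA r a u)) :
    f ∈ lk eT y (fw 1 0 r a) ∨ (a : ℕ) = pa y 0 f := by
  obtain ⟨w1, w2, h1, h2⟩ := mem_lk hf
  obtain ⟨h3, h4, h5⟩ := AA_pre hqr h1
  rcases h5 with ⟨w3, h5⟩ | h5
  · left
    rw [h5, lk_append, ← h2]
    refine List.mem_append_right _ ?_
    rw [lk]
    exact List.mem_cons_self
  · right
    rw [pa_pre h2 (by have := a.2; omega), h5]

lemma cnt1 {j : ℕ} (hqr : q = 2 ^ (j + 1)) (hqm : 5 * q < 2 * m) (f : Ed (e + 3) (2 * m)) :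
    (Finset.univ.filter fun o : OO e q => f ∈ lk eT (y0 e m) (AA (j + 1) o.1 o.2.2.2)).card ≤
      q ^ (e + 3) * Ph m j f := by
  classical
  have hsub : (Finset.univ.filter fun o : OO e q =>
      f ∈ lk eT (y0 e m) (AA (j + 1) o.1 o.2.2.2)) ⊆
      (Finset.univ.filter fun o : OO e q => f ∈ lk eT (y0 e m) (fw 1 0 (j + 1) (o.1 : ℕ))) ∪
      (Finset.univ.filter fun o : OO e q => (o.1 : ℕ) = pa (y0 e m) 0 f) := by
    intro o ho
    rw [Finset.mem_filter] at ho
    rw [Finset.mem_union, Finset.mem_filter, Finset.mem_filter]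
    rcases mem_AA hqr hqm ho.2 with h | h
    · exact Or.inl ⟨Finset.mem_univ _, h⟩
    · exact Or.inr ⟨Finset.mem_univ _, h⟩
  refine (Finset.card_le_card hsub).trans ((Finset.card_union_le _ _).trans ?_)
  rw [card_sel1 (fun s => f ∈ lk eT (y0 e m) (fw 1 0 (j + 1) s)),
    card_sel1 (fun s => s = pa (y0 e m) 0 f)]
  have hp : 2 ^ (j + 2) = 2 * q := by rw [hqr]; ring
  have h1 := nm_fan2 one_ne j (O := Finset.range q) (fun s hs => by
    rw [← hqr]; exact Finset.mem_range.1 hs) (y0 e m) (by omega) f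
  have h2 : ((Finset.range q).filter fun s => s = pa (y0 e m) 0 f).card ≤ 1 := by
    rw [Finset.card_le_one]
    intro a ha b hb
    rw [Finset.mem_filter] at ha hb
    rw [ha.2, hb.2]
  unfold Ph
  calc _ ≤ (∑ r ∈ Finset.range (j + 1), if pa (y0 e m) 1 f < 2 ^ (r + 2) then
        2 ^ (j + 1 - r) else 0) * q ^ (e + 3) + 1 * q ^ (e + 3) :=
        add_le_add (Nat.mul_le_mul_right _ h1) (Nat.mul_le_mul_right _ h2)
    _ = _ := by ring

lemma cnt2 {j : ℕ} (hqr : q = 2 ^ (j + 1)) (hqm : 5 * q < 2 * m) (f : Ed (e + 3) (2 * m)) :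
    (Finset.univ.filter fun o : OO e q =>
      f ∈ lk eT (y1 e m q) (AA (j + 1) o.2.1 o.2.2.2)).card ≤ q ^ (e + 3) * Ph m j f := by
  classical
  have hsub : (Finset.univ.filter fun o : OO e q =>
      f ∈ lk eT (y1 e m q) (AA (j + 1) o.2.1 o.2.2.2)) ⊆
      (Finset.univ.filter fun o : OO e q => f ∈ lk eT (y1 e m q) (fw 1 0 (j + 1) (o.2.1 : ℕ))) ∪
      (Finset.univ.filter fun o : OO e q => (o.2.1 : ℕ) = pa (y1 e m q) 0 f) := by
    intro o ho
    rw [Finset.mem_filter] at ho
    rw [Finset.mem_union, Finset.mem_filter, Finset.mem_filter]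
    rcases mem_AA hqr hqm ho.2 with h | h
    · exact Or.inl ⟨Finset.mem_univ _, h⟩
    · exact Or.inr ⟨Finset.mem_univ _, h⟩
  refine (Finset.card_le_card hsub).trans ((Finset.card_union_le _ _).trans ?_)
  rw [card_sel2 (fun s => f ∈ lk eT (y1 e m q) (fw 1 0 (j + 1) s)),
    card_sel2 (fun s => s = pa (y1 e m q) 0 f)]
  have hp : 2 ^ (j + 2) = 2 * q := by rw [hqr]; ring
  have h1 := nm_fan2 one_ne j (O := Finset.range q) (fun s hs => by
    rw [← hqr]; exact Finset.mem_range.1 hs) (y1 e m q) (by omega) f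
  have h2 : ((Finset.range q).filter fun s => s = pa (y1 e m q) 0 f).card ≤ 1 := by
    rw [Finset.card_le_one]
    intro a ha b hb
    rw [Finset.mem_filter] at ha hb
    rw [ha.2, hb.2]
  simp only [pa_y1] at h1
  unfold Ph
  calc _ ≤ (∑ r ∈ Finset.range (j + 1), if pa (y0 e m) 1 f < 2 ^ (r + 2) then
        2 ^ (j + 1 - r) else 0) * q ^ (e + 3) + 1 * q ^ (e + 3) :=
        add_le_add (Nat.mul_le_mul_right _ h1) (Nat.mul_le_mul_right _ h2)
    _ = _ := by ring

/-- the length of the way -/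
lemma len_AA {r : ℕ} (hqr : q = 2 ^ r) (a : Fin q) (u : Fin (e + 1) → Fin q) :
    (AA r a u).length ≤ 3 * (e + 3) * q := by
  rw [length_count]
  calc _ ≤ ∑ _j : Fin (e + 3), 3 * q := Finset.sum_le_sum fun j _ => by
        rw [count_AA hqr]; exact va_le a u j
    _ = _ := by rw [Finset.sum_const, Finset.card_univ, Fintype.card_fin, smul_eq_mul]; ring

/-- counting the links near the base point -/
lemma cnt_strip {j : ℕ} (hqr : q = 2 ^ (j + 1)) (hqm : 5 * q < 2 * m) (a : Fin q)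
    (u : Fin (e + 1) → Fin q) {y : Fin (e + 3) → ZMod (2 * m)} {r : ℕ} (hr : r ≤ j) :
    ((lk eT y (AA (j + 1) a u)).toFinset.filter fun f => pa y 1 f < 2 ^ (r + 2)).card ≤
      2 ^ (r + 3) := by
  classical
  have ha := a.2
  have hu := (u 0).2
  have hp : 2 ^ (j + 2) = 2 * q := by rw [hqr]; ring
  have hrj : 2 ^ (r + 2) ≤ 2 ^ (j + 2) := Nat.pow_le_pow_right (by norm_num) (by omega)
  have h8 : 2 ^ (r + 3) = 2 * 2 ^ (r + 2) := by rw [pow_succ]; ring
  obtain ⟨c, hc⟩ : ∃ c, c = q + (u 0 : ℕ) - a := ⟨_, rfl⟩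
  obtain ⟨w, hw⟩ : ∃ w : List (Fin (e + 3)), w = fw 1 0 (j + 1) a ++ List.replicate c 1 :=
    ⟨_, rfl⟩
  have hAA : AA (j + 1) a u = w ++ cb (vT u) := by
    rw [hw, hc]
    unfold AA
    rw [List.append_assoc]
  have hw1 : w.count 1 = 2 * q + (u 0 : ℕ) := by
    rw [hw, List.count_append, List.count_replicate_self, count_fw (j + 1) a (by
      rw [← hqr]; exact a.2), if_pos rfl, if_neg (Ne.symm one_ne), ← hqr, hc]
    omega
  have hsub : ((lk eT y (AA (j + 1) a u)).toFinset.filter fun f => pa y 1 f < 2 ^ (r + 2)) ⊆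
      ((lk eT y w).toFinset.filter fun f => pa y 1 f < 2 ^ (r + 2)) := by
    intro f hf
    rw [Finset.mem_filter, List.mem_toFinset, hAA, lk_append, List.mem_append] at hf
    rw [Finset.mem_filter, List.mem_toFinset]
    obtain ⟨hf, hpa⟩ := hf
    rcases hf with hf | hf
    · exact ⟨hf, hpa⟩
    · exfalso
      obtain ⟨w1, w2, h1, h2⟩ := mem_lk hf
      rw [add_assoc, ← dsp_append] at h2
      have h3 : w1.count 1 = 0 := by
        have h4 : (cb (vT u) : List (Fin (e + 3))).count 1 = 0 := by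
          rw [count_cb]
          unfold vT
          rw [if_neg (by exact one_ne_zero), if_pos (by rfl)]
        rw [h1, List.count_append] at h4
        omega
      have h5 : (w ++ w1).count 1 = 2 * q + (u 0 : ℕ) := by
        rw [List.count_append, hw1, h3, add_zero]
      rw [pa_pre h2 (by omega), h5] at hpa
      omega
  refine (Finset.card_le_card hsub).trans ?_
  have hww : ∀ i ∈ w, i = 1 ∨ i = 0 := by
    intro i hi
    rw [hw, List.mem_append] at hi
    rcases hi with hi | hi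
    · exact mem_fw hi
    · exact Or.inl (List.eq_of_mem_replicate hi)
  have hlen : w.length ≤ 5 * q := by
    rw [hw, List.length_append, length_fw 1 0 (j + 1) a (by rw [← hqr]; exact a.2),
      List.length_replicate, ← hqr, hc]
    omega
  have hnd := map_lk_nodup (one_ne (e := e)) y w hww 0 0 (by omega)
  rw [zero_smul, zero_smul, add_zero, add_zero] at hnd
  refine card_filter_le (c0 := 0) hnd _ fun f hf hpa => ⟨Nat.zero_le _, ?_⟩
  have hle : pa y 0 f ≤ pa y 1 f := by
    rw [hw, lk_append, List.mem_append] at hf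
    rcases hf with hf | hf
    · obtain ⟨a', b', r', h1, h2, h3, h4, h5, h6, h7, h9⟩ := mem_fan j (a : ℕ) (by
        rw [← hqr]; exact a.2) hf
      have hrj' : 2 ^ (r' + 2) ≤ 2 ^ (j + 2) := Nat.pow_le_pow_right (by norm_num) (by omega)
      rw [pa_i one_ne h1 (by omega), pa_k one_ne h1 (by omega)]
      exact h3
    · obtain ⟨t, ht, h1⟩ := Pool.Agent.R990.mem_lk_rep hf
      have h2 : f.1 = y + (q + a + t) • eT 1 + (a : ℕ) • eT 0 := by
        rw [h1, dsp_fw 1 0 (j + 1) a (by rw [← hqr]; exact a.2), ← hqr]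
        simp only
        rw [add_smul (q + (a : ℕ)) t]
        abel
      rw [hc] at ht
      rw [pa_i one_ne h2 (by omega), pa_k one_ne h2 (by omega)]
      omega
  omega

/-- the sum of the multiplicities along a way -/
lemma sum_Ph {j : ℕ} (hqr : q = 2 ^ (j + 1)) (hqm : 5 * q < 2 * m) (a : Fin q)
    (u : Fin (e + 1) → Fin q) {y : Fin (e + 3) → ZMod (2 * m)}
    (hy : ∀ f : Ed (e + 3) (2 * m), pa y 1 f = pa (y0 e m) 1 f) :
    ∑ f ∈ (lk eT y (AA (j + 1) a u)).toFinset, Ph m j f ≤ (8 * (j + 1) + 3 * (e + 3)) * q := by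
  classical
  obtain ⟨F, hF⟩ : ∃ F, F = (lk eT y (AA (j + 1) a u)).toFinset := ⟨_, rfl⟩
  have hcard : F.card ≤ 3 * (e + 3) * q := by
    rw [hF]
    refine (List.toFinset_card_le _).trans ?_
    rw [lk_length]
    exact len_AA hqr a u
  rw [← hF]
  unfold Ph
  rw [Finset.sum_add_distrib, Finset.sum_comm, Finset.sum_const, smul_eq_mul, mul_one]
  have h1 : ∑ r ∈ Finset.range (j + 1), ∑ f ∈ F, (if pa (y0 e m) 1 f < 2 ^ (r + 2) then
      2 ^ (j + 1 - r) else 0) ≤ ∑ _r ∈ Finset.range (j + 1), 8 * q := by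
    refine Finset.sum_le_sum fun r hr => ?_
    have hr' : r ≤ j := by have := Finset.mem_range.1 hr; omega
    rw [← Finset.sum_filter, Finset.sum_const, smul_eq_mul]
    have c1 := cnt_strip hqr hqm a u (y := y) hr'
    rw [← hF] at c1
    simp only [hy] at c1
    have hpr : 2 ^ (r + 3) * 2 ^ (j + 1 - r) = 8 * q := by
      rw [← pow_add, show r + 3 + (j + 1 - r) = j + 4 by omega, hqr]
      ring
    calc _ ≤ 2 ^ (r + 3) * 2 ^ (j + 1 - r) := Nat.mul_le_mul_right _ c1
      _ = _ := hpr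
  rw [Finset.sum_const, Finset.card_range, smul_eq_mul] at h1
  calc _ ≤ (j + 1) * (8 * q) + 3 * (e + 3) * q := add_le_add h1 hcard
    _ = _ := by ring

/-- the links of the ways -/
def lA (m r : ℕ) (o : OO e q) : List (Ed (e + 3) (2 * m)) := lk eT (y0 e m) (AA r o.1 o.2.2.2)

/-- the links of the ways -/
def lB (m r : ℕ) (o : OO e q) : List (Ed (e + 3) (2 * m)) := lk eT (y1 e m q) (AA r o.2.1 o.2.2.2)

/-- **the overlap of the ways** -/
theorem ovl1 {j : ℕ} (hqr : q = 2 ^ (j + 1)) (hqm : 5 * q < 2 * m) (o : OO e q) :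
    ∑ f ∈ (lA m (j + 1) o ++ lB m (j + 1) o).toFinset,
      nm Finset.univ (fun o : OO e q => lA m (j + 1) o ++ lB m (j + 1) o) f ≤
      4 * (8 * (j + 1) + 3 * (e + 3)) * q ^ (e + 4) := by
  classical
  have h1 : ∀ f : Ed (e + 3) (2 * m),
      nm Finset.univ (fun o : OO e q => lA m (j + 1) o ++ lB m (j + 1) o) f ≤
      2 * q ^ (e + 3) * Ph m j f := by
    intro f
    have c1 := cnt1 hqr hqm f
    have c2 := cnt2 hqr hqm f
    have hsub : (Finset.univ.filter fun o : OO e q => f ∈ lA m (j + 1) o ++ lB m (j + 1) o) ⊆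
        (Finset.univ.filter fun o : OO e q => f ∈ lk eT (y0 e m) (AA (j + 1) o.1 o.2.2.2)) ∪
        (Finset.univ.filter fun o : OO e q =>
          f ∈ lk eT (y1 e m q) (AA (j + 1) o.2.1 o.2.2.2)) := by
      intro o ho
      rw [Finset.mem_filter, List.mem_append] at ho
      rw [Finset.mem_union, Finset.mem_filter, Finset.mem_filter]
      rcases ho.2 with h | h
      · exact Or.inl ⟨Finset.mem_univ _, h⟩
      · exact Or.inr ⟨Finset.mem_univ _, h⟩
    have h2 := (Finset.card_le_card hsub).trans (Finset.card_union_le _ _)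
    have h3 : nm Finset.univ (fun o : OO e q => lA m (j + 1) o ++ lB m (j + 1) o) f =
        (Finset.univ.filter fun o : OO e q => f ∈ lA m (j + 1) o ++ lB m (j + 1) o).card := by
      unfold nm
      congr
    rw [h3]
    calc _ ≤ q ^ (e + 3) * Ph m j f + q ^ (e + 3) * Ph m j f := h2.trans (add_le_add c1 c2)
      _ = _ := by ring
  have s1 := sum_Ph hqr hqm o.1 o.2.2.2 (y := y0 e m) fun f => rfl
  have s2 := sum_Ph hqr hqm o.2.1 o.2.2.2 (y := y1 e m q) fun f => pa_y1 f
  calc _ ≤ ∑ f ∈ (lA m (j + 1) o ++ lB m (j + 1) o).toFinset, 2 * q ^ (e + 3) * Ph m j f :=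
        Finset.sum_le_sum fun f _ => h1 f
    _ = 2 * q ^ (e + 3) * ∑ f ∈ (lA m (j + 1) o).toFinset ∪ (lB m (j + 1) o).toFinset,
          Ph m j f := by rw [Finset.mul_sum, List.toFinset_append]
    _ ≤ 2 * q ^ (e + 3) * (∑ f ∈ (lA m (j + 1) o).toFinset, Ph m j f +
          ∑ f ∈ (lB m (j + 1) o).toFinset, Ph m j f) := by
        refine Nat.mul_le_mul_left _ ?_
        rw [← Finset.sum_union_inter]
        exact Nat.le_add_right _ _
    _ ≤ 2 * q ^ (e + 3) * ((8 * (j + 1) + 3 * (e + 3)) * q + (8 * (j + 1) + 3 * (e + 3)) * q) :=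
        Nat.mul_le_mul_left _ (add_le_add s1 s2)
    _ = _ := by ring

end

end Pool.Agent.MG990
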