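import Mathlib
import Pool.Agent.R990.MG.Ovl

/-!
# The links of the paths
-/

open Matrix Filter
open Pool.Agent.H906R3.YM hiding Pl
open Pool.Agent.W793.YM Pool.Agent.TH618.YM Pool.Agent.Y14
open Pool.Agent.R990 (fw fw_succ dsp_fw length_fw mem_fw nm)

namespace Pool.Agent.MG990

set_option linter.unusedSectionVars false
set_option linter.unusedVariables false

noncomputable section

variable {e m q : ℕ}

/-! ### beginnings of the paths -/

lemma dc_PA {r : ℕ} (hqr : q = 2 ^ r) {o : OO e q} {w1 w2 : List (Fin (e + 3))}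
    {i : Fin (e + 3)} (h : PA r o = w1 ++ i :: w2) :
    w1.count 0 < q ∨ (i = 0 ∧ 2 * q ≤ w1.count 1) := by
  have ha := o.1.2
  have hc0 := count_AA hqr o.1 o.2.2.2 (0 : Fin (e + 3))
  have hc1 := count_AA hqr o.1 o.2.2.2 (1 : Fin (e + 3))
  rw [va_zero] at hc0
  rw [va_one] at hc1
  unfold PA at h
  rw [List.append_eq_append_iff] at h
  rcases h with ⟨c, h1, h2⟩ | ⟨c, h1, h2⟩
  · right
    refine ⟨List.eq_of_mem_replicate (n := rr o) (by rw [h2]; simp), ?_⟩
    rw [h1, List.count_append, hc1]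
    omega
  · left
    rw [h1, List.count_append] at hc0
    omega

lemma dc_QA {r : ℕ} (hqr : q = 2 ^ r) {o : OO e q} {w1 w2 : List (Fin (e + 3))}
    {i : Fin (e + 3)} (h : QA r o = w1 ++ i :: w2) :
    w1.count 0 < q ∨ (i = 0 ∧ 2 * q ≤ w1.count 1) := by
  have ha := o.1.2
  have hc0 := count_AA hqr o.1 o.2.2.2 (0 : Fin (e + 3))
  have hc1 := count_AA hqr o.1 o.2.2.2 (1 : Fin (e + 3))
  rw [va_zero] at hc0
  rw [va_one] at hc1
  unfold QA at h
  rw [List.append_eq_append_iff] at h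
  rcases h with ⟨c, h1, h2⟩ | ⟨c, h1, h2⟩
  · by_cases hi : i = 0
    · right
      refine ⟨hi, ?_⟩
      rw [h1, List.count_append, hc1]
      omega
    · left
      rw [List.append_eq_append_iff] at h2
      have hc : c.count 0 = 0 := by
        rcases h2 with ⟨c', h3, h4⟩ | ⟨c', h3, h4⟩
        · exact absurd (List.eq_of_mem_replicate (n := rr o) (by rw [h4]; simp)) hi
        · refine List.count_eq_zero.2 fun h5 => ?_
          exact one_ne (List.eq_of_mem_replicate (n := rv o) (b := (0 : Fin (e + 3)))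
            (by rw [h3]; simp [h5])).symm
      rw [h1, List.count_append, hc0, hc]
      omega
  · left
    rw [h1, List.count_append] at hc0
    omega

lemma dc_PB {r : ℕ} (hqr : q = 2 ^ r) {o : OO e q} {w1 w2 : List (Fin (e + 3))}
    {i : Fin (e + 3)} (h : PB r o = w1 ++ i :: w2) : i = 0 → w1.count 1 < 2 * q :=
  (AA_pre hqr h).1

lemma dc_QB {r : ℕ} (hqr : q = 2 ^ r) {o : OO e q} {w1 w2 : List (Fin (e + 3))}
    {i : Fin (e + 3)} (h : QB r o = w1 ++ i :: w2) : i = 0 → w1.count 1 < 2 * q := by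
  intro hi
  unfold QB at h
  rw [List.append_eq_append_iff] at h
  rcases h with ⟨c, h1, h2⟩ | ⟨c, h1, h2⟩
  · exfalso
    have h3 : i = 1 := List.eq_of_mem_replicate (n := rv o) (by rw [h2]; simp)
    exact one_ne (h3.symm.trans hi)
  · cases c with
    | nil =>
      exfalso
      rw [List.nil_append] at h2
      have h3 : i = 1 := List.eq_of_mem_replicate (n := rv o) (by rw [← h2]; simp)
      exact one_ne (h3.symm.trans hi)
    | cons j c =>
      rw [List.cons_append, List.cons.injEq] at h2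
      rw [← h2.1] at h1
      exact (AA_pre hqr h1).1 hi

lemma y1_at {j : Fin (e + 3)} (hj : j ≠ Fin.last (e + 2)) (w : List (Fin (e + 3))) :
    (y1 e m q + dsp eT w : Fin (e + 3) → ZMod (2 * m)) j =
      (((if (0 : Fin (e + 3)) = j then 2 * q else 0) + w.count j : ℕ) : ZMod (2 * m)) := by
  have h1 : y1 e m q + dsp eT w = eT (Fin.last (e + 2)) + dsp eT (Zq e q ++ w) := by
    unfold y1 y0 Zq
    rw [dsp_append, dsp_rep, add_assoc]
  rw [h1, pos_apply _ hj, List.count_append, count_Zq]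

lemma y0_at {j : Fin (e + 3)} (hj : j ≠ Fin.last (e + 2)) (w : List (Fin (e + 3))) :
    (y0 e m + dsp eT w : Fin (e + 3) → ZMod (2 * m)) j = ((w.count j : ℕ) : ZMod (2 * m)) :=
  pos_apply _ hj

variable [NeZero m]

/-- the two ways are disjoint -/
lemma disj_aux (hqm : 5 * q < 2 * m) {wA wB : List (Fin (e + 3))}
    (hA : ∀ w1 i w2, wA = w1 ++ i :: w2 → w1.count 0 < q ∨ (i = 0 ∧ 2 * q ≤ w1.count 1))
    (hB : ∀ w1 i w2, wB = w1 ++ i :: w2 → i = 0 → w1.count 1 < 2 * q)
    (cA : ∀ j, wA.count j ≤ 5 * q) (cB : wB.count 0 ≤ 3 * q) (cB1 : wB.count 1 ≤ 5 * q) :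
    List.Disjoint (lk eT (y0 e m) wA) (lk eT (y1 e m q) wB) := by
  intro f hf hf'
  obtain ⟨w1, w2, h1, h2⟩ := mem_lk hf
  obtain ⟨w3, w4, h3, h4⟩ := mem_lk hf'
  have e0 : ((w1.count 0 : ℕ) : ZMod (2 * m)) = ((2 * q + w3.count 0 : ℕ) : ZMod (2 * m)) := by
    rw [← y0_at zero_nel, ← h2, h4, y1_at zero_nel, if_pos rfl]
  have e1 : ((w1.count 1 : ℕ) : ZMod (2 * m)) = ((w3.count 1 : ℕ) : ZMod (2 * m)) := by
    rw [← y0_at one_nel, ← h2, h4, y1_at one_nel, if_neg (Ne.symm one_ne), zero_add]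
  have c0 := cA 0
  have c1 := cA 1
  have c3 := cB
  have c4 := cB1
  rw [h1, List.count_append] at c0 c1
  rw [h3, List.count_append] at c3 c4
  have e0' := cast_inj' e0 (by omega) (by omega)
  have e1' := cast_inj' e1 (by omega) (by omega)
  rcases hA w1 f.2 w2 h1 with h5 | ⟨h5, h6⟩
  · omega
  · have h7 := hB w3 f.2 w4 h3 h5
    omega

lemma cPB0 {r : ℕ} (hqr : q = 2 ^ r) (o : OO e q) :
    (PB r o).count 0 ≤ 3 * q ∧ (QB r o).count 0 ≤ 3 * q := by
  have h := va_le o.2.1 o.2.2.2 (0 : Fin (e + 3))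
  unfold QB PB
  rw [List.count_append, count_AA hqr, count_rep_ne (Ne.symm one_ne)]
  omega

lemma nodupP {r : ℕ} (hqr : q = 2 ^ r) (hqm : 5 * (e + 3) * q < 2 * m) (o : OO e q) :
    (lk eT (y0 e m) (PA r o) ++ lk eT (y1 e m q) (PB r o)).Nodup := by
  have hq5 : 5 * q < 2 * m := by nlinarith
  refine List.nodup_append'.2 ⟨lk_nodup _ (lt_of_le_of_lt (len_le fun j => (cPA_le hqr o j).1) hqm),
    lk_nodup _ (lt_of_le_of_lt (len_le fun j => (cPB_le hqr o j).1) hqm), ?_⟩
  exact disj_aux hq5 (fun w1 i w2 h => dc_PA hqr h) (fun w1 i w2 h => dc_PB hqr h)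
    (fun j => (cPA_le hqr o j).1) (cPB0 hqr o).1 (cPB_le hqr o 1).1

lemma nodupQ {r : ℕ} (hqr : q = 2 ^ r) (hqm : 5 * (e + 3) * q < 2 * m) (o : OO e q) :
    (lk eT (y0 e m) (QA r o) ++ lk eT (y1 e m q) (QB r o)).Nodup := by
  have hq5 : 5 * q < 2 * m := by nlinarith
  refine List.nodup_append'.2 ⟨lk_nodup _ (lt_of_le_of_lt (len_le fun j => (cPA_le hqr o j).2) hqm),
    lk_nodup _ (lt_of_le_of_lt (len_le fun j => (cPB_le hqr o j).2) hqm), ?_⟩
  exact disj_aux hq5 (fun w1 i w2 h => dc_QA hqr h) (fun w1 i w2 h => dc_QB hqr h)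
    (fun j => (cPA_le hqr o j).2) (cPB0 hqr o).2 (cPB_le hqr o 1).2

/-! ### the links -/

/-- the links of the rectangle -/
def lR (m : ℕ) (o : OO e q) : List (Ed (e + 3) (2 * m)) := lk eT (yR m o) (List.replicate (rr o) 0)

/-- the links of the rectangle -/
def lM (m : ℕ) (o : OO e q) : List (Ed (e + 3) (2 * m)) :=
  lk eT (yR m o) (List.replicate (rv o) 1) ++ lk eT (yS m o) (List.replicate (rr o) 0)

/-- the links of the rectangle -/
def lV (m : ℕ) (o : OO e q) : List (Ed (e + 3) (2 * m)) := lk eT (yV m o) (List.replicate (rv o) 1)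

lemma bA {r : ℕ} (hqr : q = 2 ^ r) (o : OO e q) :
    y0 e m + dsp eT (AA r o.1 o.2.2.2) = yR m o := by
  unfold y0 yR
  rw [dsp_eq eT (w := AA r o.1 o.2.2.2) (w' := cb (vA o)) fun j => by
    rw [count_AA hqr, count_cb, vA_eq]]

lemma bV {r : ℕ} (hqr : q = 2 ^ r) (o : OO e q) :
    y1 e m q + dsp eT (AA r o.2.1 o.2.2.2) = yV m o := by
  have h := dsp_P (eT : Fin (e + 3) → Fin (e + 3) → ZMod (2 * m)) hqr o
  unfold PA PB at h
  unfold y1 yV
  rw [add_assoc, ← h, dsp_append, dsp_append,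
    dsp_eq eT (w := AA r o.1 o.2.2.2) (w' := cb (vA o)) fun j => by
      rw [count_AA hqr, count_cb, vA_eq]]
  rfl

lemma bS {r : ℕ} (hqr : q = 2 ^ r) (o : OO e q) :
    yR m o + dsp eT (List.replicate (rv o) 1) = yS m o := by
  unfold yR yS
  rw [dsp_append, add_assoc]

lemma lk_PA {r : ℕ} (hqr : q = 2 ^ r) (o : OO e q) :
    lk eT (y0 e m) (PA r o) = lA m r o ++ lR m o := by
  unfold PA lA lR
  rw [lk_append, bA hqr]

lemma lk_QA {r : ℕ} (hqr : q = 2 ^ r) (o : OO e q) :
    lk eT (y0 e m) (QA r o) = lA m r o ++ lM m o := by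
  unfold QA lA lM
  rw [lk_append, bA hqr, lk_append, bS hqr]

lemma lk_PB {r : ℕ} (o : OO e q) : lk eT (y1 e m q) (PB r o) = lB m r o := rfl

lemma lk_QB {r : ℕ} (hqr : q = 2 ^ r) (o : OO e q) :
    lk eT (y1 e m q) (QB r o) = lB m r o ++ lV m o := by
  unfold QB lB lV
  rw [lk_append, bV hqr]

/-- **the overlap of the rectangles** -/
theorem ovl2 (hqm : 5 * q < 2 * m) (o : OO e q) :
    ∑ f ∈ (lR m o ++ (lM m o ++ lV m o)).toFinset,
      nm Finset.univ (fun o : OO e q => lR m o ++ (lM m o ++ lV m o)) f ≤ 48 * q ^ 4 := by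
  classical
  have h1 : ∀ f : Ed (e + 3) (2 * m),
      nm Finset.univ (fun o : OO e q => lR m o ++ (lM m o ++ lV m o)) f ≤ 4 * q ^ 3 := by
    intro f
    have hsub : (Finset.univ.filter fun o : OO e q => f ∈ lR m o ++ (lM m o ++ lV m o)) ⊆
        ((Finset.univ.filter fun o : OO e q => Function.update (yR m o) 0 0 = c0 f) ∪
        (Finset.univ.filter fun o : OO e q => Function.update (yR m o) 1 0 = c1' f)) ∪
        ((Finset.univ.filter fun o : OO e q => Function.update (yS m o) 0 0 = c0 f) ∪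
        (Finset.univ.filter fun o : OO e q => Function.update (yV m o) 1 0 = c1' f)) := by
      intro o ho
      rw [Finset.mem_filter, List.mem_append, List.mem_append] at ho
      unfold lM at ho
      rw [List.mem_append] at ho
      rw [Finset.mem_union, Finset.mem_union, Finset.mem_union, Finset.mem_filter,
        Finset.mem_filter, Finset.mem_filter, Finset.mem_filter]
      rcases ho.2 with h | ((h | h) | h)
      · exact Or.inl (Or.inl ⟨Finset.mem_univ _, (c0_rep h).symm⟩)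
      · exact Or.inl (Or.inr ⟨Finset.mem_univ _, (c1_rep h).symm⟩)
      · exact Or.inr (Or.inl ⟨Finset.mem_univ _, (c0_rep h).symm⟩)
      · exact Or.inr (Or.inr ⟨Finset.mem_univ _, (c1_rep h).symm⟩)
    have h2 := (Finset.card_le_card hsub).trans ((Finset.card_union_le _ _).trans
      (add_le_add ((Finset.card_union_le _ _).trans (add_le_add (fib1 hqm _) (fib3 hqm _)))
      ((Finset.card_union_le _ _).trans (add_le_add (fib4 hqm _) (fib2 hqm _)))))
    have h3 : nm Finset.univ (fun o : OO e q => lR m o ++ (lM m o ++ lV m o)) f =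
        (Finset.univ.filter fun o : OO e q => f ∈ lR m o ++ (lM m o ++ lV m o)).card := by
      unfold nm
      congr
    rw [h3]
    omega
  have h4 : (lR m o ++ (lM m o ++ lV m o)).toFinset.card ≤ 12 * q := by
    refine (List.toFinset_card_le _).trans ?_
    unfold lR lM lV
    rw [List.length_append, List.length_append, List.length_append, lk_length, lk_length,
      lk_length, lk_length, List.length_replicate, List.length_replicate]
    have h5 := rr_eq o
    have h6 := rv_le o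
    have h7 := o.2.1.2
    omega
  calc _ ≤ ∑ _f ∈ (lR m o ++ (lM m o ++ lV m o)).toFinset, 4 * q ^ 3 :=
        Finset.sum_le_sum fun f _ => h1 f
    _ = (lR m o ++ (lM m o ++ lV m o)).toFinset.card * (4 * q ^ 3) := by
        rw [Finset.sum_const, smul_eq_mul]
    _ ≤ 12 * q * (4 * q ^ 3) := Nat.mul_le_mul_right _ h4
    _ = _ := by ring

end

end Pool.Agent.MG990
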