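import Mathlib
import Pool.Agent.R990.MG.Par

/-!
# The response of the transports to the shift
-/

open MeasureTheory Matrix Filter
open scoped Matrix.Norms.Frobenius Topology
open Pool.Agent.H906R3.YM hiding Pl
open Pool.Agent.W793.YM Pool.Agent.TH618.YM Pool.Agent.Y14
open Pool.Agent.R990 (fw fw_succ dsp_fw length_fw mem_fw)

namespace Pool.Agent.MG990

set_option linter.unusedSectionVars false
set_option linter.unusedVariables false

noncomputable section

section one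

variable {G : Type*} [Group G] [TopologicalSpace G] [IsTopologicalGroup G] [CompactSpace G]
  [SecondCountableTopology G] [MeasurableSpace G] [BorelSpace G] {N n : ℕ} {L : LD G N n}
  {e m : ℕ} [NeZero m] {q : ℕ}

variable (L) in
/-- the error of the response of a segment -/
def ER (q : ℕ) (U : Ed (e + 3) (2 * m) → G) (g : G) (y : Fin (e + 3) → ZMod (2 * m)) (r : ℕ) : ℝ :=
  ∑ k ∈ Finset.range r, 2 * kk q (y + k • eT 0) *
    dd L (g * tp eT U y (List.replicate k 0)) (TT U (y + k • eT 0))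

lemma ER_succ (U : Ed (e + 3) (2 * m) → G) (g : G) (y : Fin (e + 3) → ZMod (2 * m)) (r : ℕ) :
    ER L q U g y (r + 1) = 2 * kk q y * dd L g (TT U y) +
      ER L q U (g * U (y, 0)) (y + eT 0) r := by
  unfold ER
  rw [Finset.sum_range_succ', zero_smul, add_zero, add_comm]
  congr 1
  · rw [List.replicate_zero, tp_nil, mul_one]
  · refine Finset.sum_congr rfl fun k _ => ?_
    rw [add_smul, one_smul, add_comm (k • eT 0), add_assoc, List.replicate_succ, tp_cons,
      mul_assoc g]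

/-- the response of a segment -/
lemma resp_seg (a : Fin n) (s : ℝ) (U : Ed (e + 3) (2 * m) → G) (g : G)
    (y : Fin (e + 3) → ZMod (2 * m)) (r : ℕ) :
    dd L (g * tp eT (Ps L q a s U) y (List.replicate r 0))
      (L.ex a (s * KK q y r) * (g * tp eT U y (List.replicate r 0))) ≤ |s| * ER L q U g y r := by
  induction r generalizing g y with
  | zero =>
    unfold KK ER
    simp only [List.replicate_zero, tp_nil, Finset.range_zero, Finset.sum_empty, mul_zero,
      L.ex_zero, one_mul, dd_self, le_refl]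
  | succ r ih =>
    rw [KK_succ, ER_succ, List.replicate_succ, tp_cons, tp_cons]
    have e1 : Ps L q a s U (y, 0) = hh L q a s U y * U (y, 0) := by
      unfold Ps
      rw [if_pos rfl]
    rw [e1]
    obtain ⟨P, hP⟩ : ∃ P, P = tp eT (Ps L q a s U) (y + eT 0) (List.replicate r 0) := ⟨_, rfl⟩
    obtain ⟨P', hP'⟩ : ∃ P', P' = tp eT U (y + eT 0) (List.replicate r 0) := ⟨_, rfl⟩
    have ih' := ih (g * U (y, 0)) (y + eT 0)
    rw [← hP, ← hP'] at ih' ⊢
    obtain ⟨E, hE⟩ : ∃ E, E = L.ex a (s * KK q (y + eT 0) r) := ⟨_, rfl⟩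
    obtain ⟨E0, hE0⟩ : ∃ E0, E0 = L.ex a (s * kk q y) := ⟨_, rfl⟩
    rw [← hE] at ih'
    rw [mul_add, L.ex_add, ← hE, ← hE0]
    have e2 : g * (hh L q a s U y * U (y, 0) * P) =
        (g * hh L q a s U y * g⁻¹) * (g * U (y, 0) * P) := by group
    have e3 : E0 * E * (g * (U (y, 0) * P')) = E0 * (E * (g * U (y, 0) * P')) := by group
    rw [e2, e3]
    refine (dd_tri _ ((g * hh L q a s U y * g⁻¹) * (E * (g * U (y, 0) * P'))) _).trans ?_
    rw [dd_lmul, dd_rmul]
    have h3 : dd L (g * hh L q a s U y * g⁻¹) E0 ≤ |s| * (2 * kk q y * dd L g (TT U y)) := by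
      have e4 : g * hh L q a s U y * g⁻¹ = (g * (TT U y)⁻¹) * E0 * (g * (TT U y)⁻¹)⁻¹ := by
        unfold hh
        rw [hE0]
        group
      rw [e4, dd_comm]
      refine (dd_conj _ _).trans ?_
      rw [← dd_dv]
      have h4 : dv L E0 ≤ |s| * kk q y := by
        rw [hE0]
        refine (dv_ex a _).trans (le_of_eq ?_)
        rw [abs_mul, abs_of_nonneg (kk_nonneg q y)]
      have h5 := mul_le_mul_of_nonneg_right h4 (dd_nonneg (L := L) g (TT U y))
      linarith
    rw [mul_add]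
    linarith

lemma tp_Ps_of {a : Fin n} {s : ℝ} {U : Ed (e + 3) (2 * m) → G}
    {x : Fin (e + 3) → ZMod (2 * m)} {w : List (Fin (e + 3))}
    (h : ∀ w1 w2, w = w1 ++ 0 :: w2 → kk q (x + dsp eT w1) = 0) :
    tp eT (Ps L q a s U) x w = tp eT U x w := by
  refine tp_congr fun f hf => Ps_eq ?_
  rintro ⟨h1, h2⟩
  obtain ⟨w1, w2, h3, h4⟩ := mem_lk hf
  rw [h1] at h3
  rw [h4] at h2
  exact h2 (h w1 w2 h3)

lemma tp_Ps_hi (hq : 1 ≤ q) (a : Fin n) (s : ℝ) (U : Ed (e + 3) (2 * m) → G)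
    {c w : List (Fin (e + 3))} (hc : 4 * q ≤ c.count 1) (hw : (c ++ w).count 1 < 2 * m) :
    tp eT (Ps L q a s U) (dsp eT c) w = tp eT U (dsp eT c) w := by
  refine tp_Ps_of fun w1 w2 h => ?_
  rw [← dsp_append]
  rw [h, List.count_append, List.count_append] at hw
  exact kk_hi hq (by rw [List.count_append]; omega) (by rw [List.count_append]; omega)

lemma tp_Ps_rt (hq : 1 ≤ q) (a : Fin n) (s : ℝ) (U : Ed (e + 3) (2 * m) → G)
    {c w : List (Fin (e + 3))} (hc : 2 * q ≤ c.count 0) (hw : (c ++ w).count 0 < 2 * m) :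
    tp eT (Ps L q a s U) (dsp eT c) w = tp eT U (dsp eT c) w := by
  refine tp_Ps_of fun w1 w2 h => ?_
  rw [← dsp_append]
  rw [h, List.count_append, List.count_append] at hw
  exact kk_rt hq (by rw [List.count_append]; omega) (by rw [List.count_append]; omega)

lemma tp_Ps_dir (a : Fin n) (s : ℝ) (U : Ed (e + 3) (2 * m) → G)
    (x : Fin (e + 3) → ZMod (2 * m)) {i : Fin (e + 3)} (hi : i ≠ 0) (k : ℕ) :
    tp eT (Ps L q a s U) x (List.replicate k i) = tp eT U x (List.replicate k i) := by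
  refine tp_congr fun f hf => Ps_eq fun h => hi ?_
  rw [← (mem_lk_rep hf).1]
  exact h.1

lemma tp_Ps_T (a : Fin n) (s : ℝ) (U : Ed (e + 3) (2 * m) → G)
    (x : Fin (e + 3) → ZMod (2 * m)) :
    tp eT (Ps L q a s U) x (Tq e q) = tp eT U x (Tq e q) := tp_Ps_dir a s U x last_ne0 _

/-- the links to the left of the box are not shifted -/
lemma tp_Ps_lo (hq : 1 ≤ q) (hqm : q < 2 * m) (a : Fin n) (s : ℝ) (U : Ed (e + 3) (2 * m) → G)
    {w : List (Fin (e + 3))} (hw : w.count 0 ≤ q) :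
    tp eT (Ps L q a s U) 0 w = tp eT U 0 w := by
  refine tp_Ps_of fun w1 w2 h => ?_
  rw [zero_add]
  by_contra h1
  have h2 := (kk_ne hq h1).1.1
  rw [h, List.count_append, List.count_cons_self] at hw
  rw [wv_dsp (by omega)] at h2
  omega

/-- the links of the direct path are not shifted -/
lemma tp_Ps_Z (hq : 1 ≤ q) (a : Fin n) (s : ℝ) (U : Ed (e + 3) (2 * m) → G) :
    tp eT (Ps L q a s U) (dsp eT (Tq e q)) (Zq e q) = tp eT U (dsp eT (Tq e q)) (Zq e q) := by
  refine tp_Ps_of fun w1 w2 h => kk_axis hq one_ne ?_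
  have hw : w1.count 1 = 0 := by
    have h1 := count_Zq (e := e) (q := q) 1
    rw [if_neg (Ne.symm one_ne), h, List.count_append] at h1
    omega
  rw [Pi.add_apply, dsp_Tq1, dsp_apply, hw, Nat.cast_zero, add_zero]

/-- the transports of the loops -/
def gP (r : ℕ) (o : OO e q) (U : Ed (e + 3) (2 * m) → G) : G :=
  tp eT U 0 (Tq e q ++ PA r o) * (tp eT U 0 ((Tq e q ++ Zq e q) ++ PB r o))⁻¹

/-- the transports of the loops -/
def gQ (r : ℕ) (o : OO e q) (U : Ed (e + 3) (2 * m) → G) : G :=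
  tp eT U 0 (Tq e q ++ QA r o) * (tp eT U 0 ((Tq e q ++ Zq e q) ++ QB r o))⁻¹

lemma count_Tq0 : (Tq e q).count 0 = 0 := by
  rw [count_Tq, if_neg (Ne.symm last_ne0)]

lemma count_Tq1 : (Tq e q).count 1 = 0 := by
  rw [count_Tq, if_neg (Ne.symm last_ne1)]

lemma tp_Ps_TZ (hq : 1 ≤ q) (a : Fin n) (s : ℝ) (U : Ed (e + 3) (2 * m) → G) :
    tp eT (Ps L q a s U) 0 (Tq e q ++ Zq e q) = tp eT U 0 (Tq e q ++ Zq e q) := by
  rw [tp2, tp2, tp_Ps_T, tp_Ps_Z hq]

lemma TZ0 : 2 * q ≤ (Tq e q ++ Zq e q).count 0 := by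
  rw [List.count_append, count_Zq, if_pos rfl]
  omega

lemma TZc (w : List (Fin (e + 3))) (hw : w.count 0 = (Zq e q ++ w).count 0 - 2 * q) :
    ((Tq e q ++ Zq e q) ++ w).count 0 = (Zq e q ++ w).count 0 := by
  rw [List.count_append, List.count_append, List.count_append, count_Tq0, zero_add]

lemma tp_Ps_B (hq : 1 ≤ q) (a : Fin n) (s : ℝ) (U : Ed (e + 3) (2 * m) → G)
    {w : List (Fin (e + 3))} (hw : (Zq e q ++ w).count 0 < 2 * m) :
    tp eT (Ps L q a s U) 0 ((Tq e q ++ Zq e q) ++ w) =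
      tp eT U 0 ((Tq e q ++ Zq e q) ++ w) := by
  rw [tp2 (Ps L q a s U) (Tq e q ++ Zq e q) w, tp2 U (Tq e q ++ Zq e q) w, tp_Ps_TZ hq,
    tp_Ps_rt hq a s U TZ0 (by
    rw [List.append_assoc, List.count_append, count_Tq0, zero_add]
    exact hw)]

lemma tp_Ps_A (hq : 1 ≤ q) (hqm : q < 2 * m) {r : ℕ} (hqr : q = 2 ^ r) (a : Fin n) (s : ℝ)
    (U : Ed (e + 3) (2 * m) → G) (b : Fin q) (u : Fin (e + 1) → Fin q) :
    tp eT (Ps L q a s U) 0 (Tq e q ++ AA r b u) = tp eT U 0 (Tq e q ++ AA r b u) := by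
  refine tp_Ps_lo hq hqm a s U ?_
  rw [List.count_append, count_Tq0, count_AA hqr, va_zero]
  have := b.2
  omega

lemma gQ_Ps (hq : 1 ≤ q) {r : ℕ} (hqr : q = 2 ^ r) (hqm : 5 * q < 2 * m) (a : Fin n) (s : ℝ)
    (U : Ed (e + 3) (2 * m) → G) (o : OO e q) : gQ r o (Ps L q a s U) = gQ r o U := by
  have h1 := (cPA_le hqr o 0).2
  have h2 := (cPA_le hqr o 1).2
  have h4 := rv_eq o
  unfold gQ
  rw [tp_Ps_B hq a s U (by rw [← count_Q hqr]; omega)]
  congr 1
  have e1 : Tq e q ++ QA r o = ((Tq e q ++ AA r o.1 o.2.2.2) ++ List.replicate (rv o) 1) ++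
      List.replicate (rr o) 0 := by
    unfold QA
    simp only [List.append_assoc]
  have hc : (Tq e q ++ QA r o).count 1 < 2 * m := by
    rw [List.count_append, count_Tq1, zero_add]
    omega
  rw [e1] at hc ⊢
  rw [tp3, tp3, tp_Ps_A hq (by omega) hqr, tp_Ps_dir a s U _ one_ne, tp_Ps_hi hq a s U _ hc]
  rw [List.count_append, List.count_append, List.count_replicate_self, count_AA hqr, va_one,
    count_Tq1]
  omega

/-- the position of the segment -/
lemma dsp_TA {r : ℕ} (hqr : q = 2 ^ r) (o : OO e q) :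
    (dsp eT (Tq e q ++ AA r o.1 o.2.2.2) : Fin (e + 3) → ZMod (2 * m)) = yA m o := by
  unfold yA
  refine dsp_eq eT fun j => ?_
  rw [List.count_append, List.count_append, count_AA hqr, count_cb, vA_eq]

lemma gP_Ps (hq : 1 ≤ q) {r : ℕ} (hqr : q = 2 ^ r) (hqm : 5 * q < 2 * m) (a : Fin n) (s : ℝ)
    (U : Ed (e + 3) (2 * m) → G) (o : OO e q) :
    dd L (gP r o (Ps L q a s U)) (L.ex a (s * KK q (yA m o) (rr o)) * gP r o U) ≤
      |s| * ER L q U (tp eT U 0 (Tq e q ++ AA r o.1 o.2.2.2)) (yA m o) (rr o) := by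
  have h1 := (cPA_le hqr o 0).1
  have e1 : Tq e q ++ PA r o = (Tq e q ++ AA r o.1 o.2.2.2) ++ List.replicate (rr o) 0 := by
    unfold PA
    simp only [List.append_assoc]
  have h2 : tp eT (Ps L q a s U) 0 (Tq e q ++ PA r o) = tp eT U 0 (Tq e q ++ AA r o.1 o.2.2.2) *
      tp eT (Ps L q a s U) (yA m o) (List.replicate (rr o) 0) := by
    rw [e1, tp2 (Ps L q a s U) (Tq e q ++ AA r o.1 o.2.2.2), dsp_TA hqr,
      tp_Ps_A hq (by omega) hqr]
  have h3 : tp eT U 0 (Tq e q ++ PA r o) = tp eT U 0 (Tq e q ++ AA r o.1 o.2.2.2) *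
      tp eT U (yA m o) (List.replicate (rr o) 0) := by
    rw [e1, tp2 U (Tq e q ++ AA r o.1 o.2.2.2), dsp_TA hqr]
  have h4 : tp eT (Ps L q a s U) 0 ((Tq e q ++ Zq e q) ++ PB r o) =
      tp eT U 0 ((Tq e q ++ Zq e q) ++ PB r o) :=
    tp_Ps_B hq a s U (by rw [← count_P hqr]; omega)
  unfold gP
  rw [h2, h3, h4]
  obtain ⟨A, hA⟩ : ∃ A, A = tp eT U 0 (Tq e q ++ AA r o.1 o.2.2.2) := ⟨_, rfl⟩
  obtain ⟨W, hW⟩ : ∃ W, W = (tp eT U 0 ((Tq e q ++ Zq e q) ++ PB r o))⁻¹ := ⟨_, rfl⟩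
  obtain ⟨E, hE⟩ : ∃ E, E = L.ex a (s * KK q (yA m o) (rr o)) := ⟨_, rfl⟩
  have h5 := resp_seg (L := L) (q := q) a s U A (yA m o) (rr o)
  rw [← hE] at h5
  rw [← hA, ← hW, ← hE]
  have e2 : E * (A * tp eT U (yA m o) (List.replicate (rr o) 0) * W) =
      E * (A * tp eT U (yA m o) (List.replicate (rr o) 0)) * W := by group
  rw [e2, dd_rmul]
  exact h5

end one

/-! ### the size of the response -/

variable {G : Type*} [Group G] [TopologicalSpace G] [IsTopologicalGroup G] [CompactSpace G]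
  [SecondCountableTopology G] [MeasurableSpace G] [BorelSpace G] (μ : Measure G)
  [IsProbabilityMeasure μ] [μ.IsMulLeftInvariant] [μ.IsMulRightInvariant] [μ.IsInvInvariant]
  {N n : ℕ} {L : LD G N n} {e m : ℕ} [NeZero m] {q : ℕ} {β : ℝ} {S : ℕ → ℝ} {r : ℕ}

/-- the unit of the errors -/
def un (e : ℕ) (S : ℕ → ℝ) (r : ℕ) : ℝ := ((e + 3 : ℕ) : ℝ) ^ 2 * Gs S (r + 3)

lemma un_nonneg (hS : ∀ k, 0 ≤ S k) : 0 ≤ un e S r :=
  mul_nonneg (by positivity) (Gs_nonneg hS _)

lemma dS_le (hS : ∀ k, 0 ≤ S k) {k : ℕ} (hk : k ≤ r + 3) :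
    ((e + 3 : ℕ) : ℝ) * S k ≤ un e S r := by
  have h1 := S_le_Gs hS hk
  have h2 := Gs_nonneg hS (r + 3)
  have h3 : (1 : ℝ) ≤ ((e + 3 : ℕ) : ℝ) := by exact_mod_cast (by omega : 1 ≤ e + 3)
  unfold un
  calc ((e + 3 : ℕ) : ℝ) * S k ≤ ((e + 3 : ℕ) : ℝ) * Gs S (r + 3) :=
        mul_le_mul_of_nonneg_left h1 (by positivity)
    _ ≤ ((e + 3 : ℕ) : ℝ) * (((e + 3 : ℕ) : ℝ) * Gs S (r + 3)) :=
        mul_le_mul_of_nonneg_left (le_mul_of_one_le_left h2 h3) (by positivity)
    _ = _ := by ring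

lemma ddS_le (hS : ∀ k, 0 ≤ S k) {k : ℕ} (hk : k ≤ r + 3) :
    ((e + 3 : ℕ) : ℝ) * (((e + 3 : ℕ) : ℝ) * S k) ≤ un e S r := by
  have h1 := S_le_Gs hS hk
  unfold un
  rw [← mul_assoc, ← pow_two]
  exact mul_le_mul_of_nonneg_left h1 (by positivity)

/-- the way to the rectangle -/
lemma srt_AA (h : SB μ L (e + 3) m β S (r + 3)) (hqr : q = 2 ^ r)
    (x : Fin (e + 3) → ZMod (2 * m)) (a : Fin q) (u : Fin (e + 1) → Fin q) :
    Srt μ L β x (AA r a u) (va a u) (5 * un e S r) := by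
  have hp8 : 2 ^ (r + 3) = 8 * q := by rw [hqr, pow_succ, pow_succ, pow_succ]; ring
  have hne : (1 : Fin (e + 3)) ≠ 0 := one_ne
  have ha := a.2
  have hu := (u 0).2
  have h1 := srt_fan μ h x r (by omega) a (by rw [← hqr]; exact a.2)
  rw [← hqr] at h1
  have h2 := srt_rep μ h (k := r + 3) le_rfl (nn := q + (u 0 : ℕ) - a) (by rw [hp8]; omega)
    (fun k' => by
      rw [hp8]
      split_ifs <;> omega) h1 1
  have h3 := srt_cb μ h (k := r + 3) le_rfl (v' := vT u) (fun k' => by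
    rw [hp8]
    have := vT_le u k'
    by_cases h0 : k' = 0
    · subst h0
      simp only [if_true, if_neg (Ne.symm hne)]
      omega
    · by_cases h1 : k' = 1
      · subst h1
        have h5 : vT u (1 : Fin (e + 3)) = 0 := by
          unfold vT
          rw [if_neg (by exact one_ne_zero), if_pos (by rfl)]
        simp only [if_true, if_neg hne]
        omega
      · simp only [h0, h1, if_false]
        omega) h2
  have hS := h.nn
  have hsum : ∑ k ∈ Finset.range r, 2 * (((e + 3 : ℕ) : ℝ) * S (k + 2)) ≤ 2 * un e S r := by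
    rw [← Finset.mul_sum, ← Finset.mul_sum]
    have h5 := sum_S_le hS (r := r) (c := 2) (K := r + 3) (by omega)
    have h6 : (1 : ℝ) ≤ ((e + 3 : ℕ) : ℝ) := by exact_mod_cast (by omega : 1 ≤ e + 3)
    have h7 := Gs_nonneg hS (r + 3)
    unfold un
    refine mul_le_mul_of_nonneg_left ?_ zero_le_two
    calc ((e + 3 : ℕ) : ℝ) * ∑ k ∈ Finset.range r, S (k + 2) ≤
          ((e + 3 : ℕ) : ℝ) * Gs S (r + 3) := mul_le_mul_of_nonneg_left h5 (by positivity)
      _ ≤ ((e + 3 : ℕ) : ℝ) * (((e + 3 : ℕ) : ℝ) * Gs S (r + 3)) :=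
          mul_le_mul_of_nonneg_left (le_mul_of_one_le_left h7 h6) (by positivity)
      _ = _ := by ring
  have s0 := dS_le (e := e) (r := r) hS (k := 0) (by omega)
  have s1 := dS_le (e := e) (r := r) hS (k := r + 3) le_rfl
  have s2 := ddS_le (e := e) (r := r) hS (k := r + 3) le_rfl
  refine srt_congr μ h3 (by unfold AA; rw [List.append_assoc]) (fun k' => ?_) (by linarith)
  by_cases h0 : k' = 0
  · subst h0
    have h5 : vT u (0 : Fin (e + 3)) = 0 := by unfold vT; rw [if_pos (by rfl)]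
    rw [va_zero, h5]
    simp only [if_true, if_neg (Ne.symm hne)]
    omega
  · by_cases h1 : k' = 1
    · subst h1
      have h5 : vT u (1 : Fin (e + 3)) = 0 := by
        unfold vT
        rw [if_neg (by exact one_ne_zero), if_pos (by rfl)]
      rw [va_one, h5]
      simp only [if_true, if_neg hne]
      omega
    · rw [va_oth a u h0 h1]
      simp only [h0, h1, if_false]
      omega

lemma count_fun (w : List (Fin (e + 3))) (k : Fin (e + 3)) :
    (fun k => w.count k) k = w.count k := rfl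

lemma srt_T (h : SB μ L (e + 3) m β S (r + 3)) (hqr : q = 2 ^ r) :
    Srt μ L β (0 : Fin (e + 3) → ZMod (2 * m)) (Tq e q) (fun k => (Tq e q).count k)
      (un e S r) := by
  have hp8 : 2 ^ (r + 3) = 8 * q := by rw [hqr, pow_succ, pow_succ, pow_succ]; ring
  have h1 := srt_rep μ h (k := r + 3) le_rfl (nn := 2 * q) (by rw [hp8]; omega)
    (fun k' => Nat.zero_le _) (Srt.nil μ (L := L) (β := β) 0) (Fin.last (e + 2))
  refine srt_congr μ h1 (by rw [List.nil_append]; rfl) (fun k' => ?_) ?_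
  · rw [count_Tq, zero_add]
  · have := dS_le (e := e) (r := r) h.nn (k := r + 3) le_rfl
    linarith

/-- one more straight segment -/
lemma srt_seg (h : SB μ L (e + 3) m β S (r + 3)) (hqr : q = 2 ^ r)
    {w : List (Fin (e + 3))} {b : ℝ} (nn : ℕ) (i : Fin (e + 3))
    (h1 : Srt μ L β (0 : Fin (e + 3) → ZMod (2 * m)) w (fun k => w.count k) b)
    (hc : ∀ j, (w ++ List.replicate nn i).count j ≤ 5 * q) :
    Srt μ L β (0 : Fin (e + 3) → ZMod (2 * m)) (w ++ List.replicate nn i)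
      (fun k => (w ++ List.replicate nn i).count k) (b + un e S r) := by
  have hp8 : 2 ^ (r + 3) = 8 * q := by rw [hqr, pow_succ, pow_succ, pow_succ]; ring
  have h2 : nn ≤ 2 ^ (r + 3) := by
    have := hc i
    rw [List.count_append, List.count_replicate_self] at this
    rw [hp8]
    omega
  have h3 := srt_rep μ h (k := r + 3) le_rfl h2 (fun k' => by
    have := hc k'
    rw [List.count_append] at this
    rw [hp8]
    omega) h1 i
  have s1 := dS_le (e := e) (r := r) h.nn (k := r + 3) le_rfl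
  refine srt_congr μ h3 rfl (fun k' => ?_) (by linarith)
  rw [List.count_append, List.count_replicate]
  congr 1
  by_cases hk : k' = i
  · subst hk; simp
  · have h' : ¬i = k' := fun h1 => hk h1.symm
    simp [hk, h']

/-- one more way -/
lemma srt_way (h : SB μ L (e + 3) m β S (r + 3)) (hqr : q = 2 ^ r)
    {w : List (Fin (e + 3))} {b : ℝ} (a : Fin q) (u : Fin (e + 1) → Fin q)
    (h1 : Srt μ L β (0 : Fin (e + 3) → ZMod (2 * m)) w (fun k => w.count k) b)
    (hc : ∀ j, (w ++ AA r a u).count j ≤ 5 * q) :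
    Srt μ L β (0 : Fin (e + 3) → ZMod (2 * m)) (w ++ AA r a u)
      (fun k => (w ++ AA r a u).count k) (b + 6 * un e S r) := by
  have hp8 : 2 ^ (r + 3) = 8 * q := by rw [hqr, pow_succ, pow_succ, pow_succ]; ring
  have h3 := srt_app μ h (k := r + 3) le_rfl (fun k' => by
    have := hc k'
    rw [List.count_append, count_AA hqr] at this
    rw [hp8]
    omega) h1 (srt_AA μ h hqr _ a u)
  have s1 := ddS_le (e := e) (r := r) h.nn (k := r + 3) le_rfl
  refine srt_congr μ h3 rfl (fun k' => ?_) (by linarith)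
  rw [List.count_append, count_AA hqr]

lemma cnt_T {w : List (Fin (e + 3))} (h : ∀ j, w.count j ≤ 5 * q)
    (h' : w.count (Fin.last (e + 2)) = 0) (j : Fin (e + 3)) : (Tq e q ++ w).count j ≤ 5 * q := by
  rw [List.count_append, count_Tq]
  split_ifs with h1
  · rw [h1, h']; omega
  · have := h j; omega

/-- the error of the segments -/
lemma seg_en (h : SB μ L (e + 3) m β S (r + 3)) (hqr : q = 2 ^ r) (hqm : 5 * q < 2 * m)
    (o : OO e q) {k : ℕ} (hk : k ≤ 3 * q) :
    en μ L β (fun U : Ed (e + 3) (2 * m) → G =>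
      dd L (tp eT U 0 (Tq e q ++ AA r o.1 o.2.2.2) * tp eT U (yA m o) (List.replicate k 0))
        (TT U (yA m o + k • eT 0))) ≤ 9 * un e S r := by
  have hq1 : 1 ≤ q := by rw [hqr]; exact Nat.one_le_two_pow
  have hp8 : 2 ^ (r + 3) = 8 * q := by rw [hqr, pow_succ, pow_succ, pow_succ]; ring
  have hcc : ∀ j, ((Tq e q ++ AA r o.1 o.2.2.2) ++ List.replicate k 0).count j ≤ 5 * q := by
    intro j
    have h1 := seg_le o hk j
    rw [List.count_append, List.count_append, count_cb, vA_eq] at h1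
    rw [List.count_append, List.count_append, count_AA hqr]
    exact h1
  have h1 := srt_seg μ h hqr k 0 (srt_way μ h hqr o.1 o.2.2.2 (srt_T μ h hqr)
    (count_le_of hcc)) hcc
  have hR : r + 3 ≤ 2 * m := by
    have h2 : r < 2 ^ r := Nat.lt_two_pow_self
    omega
  obtain ⟨v, hv⟩ : ∃ v : Fin (e + 3) → ℕ, v = fun j =>
    ((Tq e q ++ AA r o.1 o.2.2.2) ++ List.replicate k 0).count j := ⟨_, rfl⟩
  have hw : wv (yA m o + k • eT 0) = v := by
    funext j
    rw [hv, ← dsp_TA hqr, ← dsp_rep, ← dsp_append, wv_dsp (by have := hcc j; omega)]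
  have h2 := srt_dt μ h (r := r + 3) le_rfl hR 0 (v := v) (fun j => by
    rw [hv, hp8]
    have := hcc j
    simp only
    omega)
  have h3 := sum_GS μ h (r := r + 3) le_rfl
  have h4 : ∀ U : Ed (e + 3) (2 * m) → G,
      tp eT U 0 (Tq e q ++ AA r o.1 o.2.2.2) * tp eT U (yA m o) (List.replicate k 0) =
      tp eT U 0 ((Tq e q ++ AA r o.1 o.2.2.2) ++ List.replicate k 0) := by
    intro U
    rw [tp2 U (Tq e q ++ AA r o.1 o.2.2.2), dsp_TA hqr]
  unfold TT
  simp only [h4, hw]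
  refine (srt_cmp μ h1 h2 fun k' => by rw [hv]).trans ?_
  have h5 : ((e + 3 : ℕ) : ℝ) ^ 2 * Gs S (r + 3) = un e S r := rfl
  rw [h5] at h3
  linarith

/-- the loops are close to the identity -/
lemma gP_en (h : SB μ L (e + 3) m β S (r + 3)) (hqr : q = 2 ^ r) (hqm : 5 * q < 2 * m)
    (o : OO e q) :
    en μ L β (fun U : Ed (e + 3) (2 * m) → G => dv L (gP r o U)) ≤ 16 * un e S r := by
  have c1 := cnt_T (fun j => (cPA_le hqr o j).1) (cPA_last hqr o).1
  have e1 : Tq e q ++ PA r o = (Tq e q ++ AA r o.1 o.2.2.2) ++ List.replicate (rr o) 0 := by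
    unfold PA
    simp only [List.append_assoc]
  have c1' := c1
  rw [e1] at c1'
  have s1 := srt_seg μ h hqr (rr o) 0 (srt_way μ h hqr o.1 o.2.2.2 (srt_T μ h hqr)
    (count_le_of c1')) c1'
  rw [← e1] at s1
  have hcc : ∀ j, (Tq e q ++ PA r o).count j = ((Tq e q ++ Zq e q) ++ PB r o).count j := by
    intro j
    rw [List.count_append, count_P hqr, List.append_assoc, List.count_append (l₁ := Tq e q)]
  have c2 : ∀ j, ((Tq e q ++ Zq e q) ++ PB r o).count j ≤ 5 * q := fun j => by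
    rw [← hcc]; exact c1 j
  have s2 := srt_way μ h hqr o.2.1 o.2.2.2 (srt_seg μ h hqr (2 * q) 0 (srt_T μ h hqr)
    (count_le_of c2)) c2
  have hf := srt_cmp μ s1 s2 fun k' => hcc k'
  unfold gP
  simp only [← dd_dv]
  refine hf.trans ?_
  have := un_nonneg (e := e) (r := r) h.nn
  linarith

lemma gQ_en (h : SB μ L (e + 3) m β S (r + 3)) (hqr : q = 2 ^ r) (hqm : 5 * q < 2 * m)
    (o : OO e q) :
    en μ L β (fun U : Ed (e + 3) (2 * m) → G => dv L (gQ r o U)) ≤ 18 * un e S r := by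
  have c1 := cnt_T (fun j => (cPA_le hqr o j).2) (cPA_last hqr o).2
  have e1 : Tq e q ++ QA r o = ((Tq e q ++ AA r o.1 o.2.2.2) ++ List.replicate (rv o) 1) ++
      List.replicate (rr o) 0 := by
    unfold QA
    simp only [List.append_assoc]
  have c1' := c1
  rw [e1] at c1'
  have s1 := srt_seg μ h hqr (rr o) 0 (srt_seg μ h hqr (rv o) 1 (srt_way μ h hqr o.1 o.2.2.2
    (srt_T μ h hqr) (count_le_of (count_le_of c1'))) (count_le_of c1')) c1'
  rw [← e1] at s1
  have hcc : ∀ j, (Tq e q ++ QA r o).count j = ((Tq e q ++ Zq e q) ++ QB r o).count j := by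
    intro j
    rw [List.count_append, count_Q hqr, List.append_assoc, List.count_append (l₁ := Tq e q)]
  have c2 : ∀ j, ((Tq e q ++ Zq e q) ++ QB r o).count j ≤ 5 * q := fun j => by
    rw [← hcc]; exact c1 j
  have e2 : (Tq e q ++ Zq e q) ++ QB r o = ((Tq e q ++ Zq e q) ++ AA r o.2.1 o.2.2.2) ++
      List.replicate (rv o) 1 := by
    unfold QB
    simp only [List.append_assoc]
  have c2' := c2
  rw [e2] at c2'
  have s2 := srt_seg μ h hqr (rv o) 1 (srt_way μ h hqr o.2.1 o.2.2.2 (srt_seg μ h hqr (2 * q) 0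
    (srt_T μ h hqr) (count_le_of (count_le_of c2'))) (count_le_of c2')) c2'
  have s3 := srt_congr μ s2 (w' := (Tq e q ++ Zq e q) ++ QB r o)
    (v' := fun k => ((Tq e q ++ Zq e q) ++ QB r o).count k) (by rw [e2]; rfl)
    (fun k' => by rw [e2]; rfl) le_rfl
  have hf := srt_cmp μ s1 s3 fun k' => hcc k'
  unfold gQ
  simp only [← dd_dv]
  refine hf.trans ?_
  have := un_nonneg (e := e) (r := r) h.nn
  linarith

end

end Pool.Agent.MG990
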