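import Mathlib
import Pool.Agent.Y14.Dif3
import Pool.Agent.R990.NQ
import Pool.Agent.R990.MG.Psi
import Pool.Agent.R990.MG.Lks

/-!
# The variation of the observable under time shifts
-/

open MeasureTheory Matrix Filter
open scoped Matrix.Norms.Frobenius Topology
open Pool.Agent.H906R3.YM hiding Pl
open Pool.Agent.W793.YM Pool.Agent.TH618.YM Pool.Agent.Y14
open Pool.Agent.R990 (avO qs Qz Qz_cv Qz_tU Qz_MM lk_J' Un_cv' pm_tp' rho_tp' pq en_rect)

namespace Pool.Agent.MG990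

set_option linter.unusedSectionVars false
set_option linter.unusedVariables false

noncomputable section

variable {G : Type*} [Group G] [TopologicalSpace G] [IsTopologicalGroup G] [CompactSpace G]
  [SecondCountableTopology G] [MeasurableSpace G] [BorelSpace G] (μ : Measure G)
  [IsProbabilityMeasure μ] [μ.IsMulLeftInvariant] [μ.IsMulRightInvariant] [μ.IsInvInvariant]
  {N n : ℕ} {L : LD G N n} {e m : ℕ} [NeZero m] {q r : ℕ} {β : ℝ}

/-- the displacement of the end points -/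
def bb (e m q : ℕ) : Fin (e + 3) → ZMod (2 * m) := (2 * q) • eT 0

omit [NeZero m] in
lemma bb_last : bb e m q (Fin.last (e + 2)) = 0 := by
  unfold bb
  have h : (Fin.last (e + 2)) ≠ 0 := Ne.symm zero_nel
  simp [eT, h]

variable (L) in
/-- the observable at time `0` -/
def Fq (r q : ℕ) (U : Ed (e + 3) (2 * m) → G) : ℝ := ‖phi eT L r q U 0‖

lemma phi_qs (U : Ed (e + 3) (2 * m) → G) : phi eT L r q U 0 =
    qs L (bb e m q) (Finset.univ : Finset (OO e q)) (PA r) (PB r) U -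
      qs L (bb e m q) (Finset.univ : Finset (OO e q)) (QA r) (QB r) U := by
  unfold phi qs avO pp bb
  rw [← smul_sub, ← Finset.sum_sub_distrib, zero_add, Finset.card_univ]

lemma phi_cont (x : Fin (e + 3) → ZMod (2 * m)) :
    Continuous fun U : Ed (e + 3) (2 * m) → G => phi eT L r q U x := by
  have h0 : ∀ (w w' : List (Fin (e + 3))), Continuous fun U : Ed (e + 3) (2 * m) → G =>
      pp eT L U x (x + (2 * q) • eT 0) w w' := fun w w' =>
    (L.cont.comp (tp_cont x w)).mul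
      ((ctL N).continuous.comp (L.cont.comp (tp_cont (x + (2 * q) • eT 0) w')))
  have h1 : Continuous fun U : Ed (e + 3) (2 * m) → G => ∑ o : OO e q,
      (pp eT L U x (x + (2 * q) • eT 0) (PA r o) (PB r o) -
        pp eT L U x (x + (2 * q) • eT 0) (QA r o) (QB r o)) :=
    continuous_finsetSum _ fun o _ => (h0 _ _).sub (h0 _ _)
  exact h1.const_smul ((Fintype.card (OO e q) : ℝ))⁻¹

lemma nphi_gt (hqr : q = 2 ^ r) (γ : (Fin (e + 3) → ZMod (2 * m)) → G)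
    (U : Ed (e + 3) (2 * m) → G) (x : Fin (e + 3) → ZMod (2 * m)) :
    ‖phi eT L r q (gt γ U) x‖ = ‖phi eT L r q U x‖ := by
  have h := phi_gauge (u := eT) (L := L) hqr γ U x
  have h1 : (gt γ U : Ed (e + 3) (2 * m) → G) =
      fun f => γ f.1 * U f * (γ (f.1 + eT f.2))⁻¹ := rfl
  rw [h1, h, ← L.rho_inv, norm_rmul, norm_lmul]

lemma Fq_cont : Continuous fun U : Ed (e + 3) (2 * m) → G => Fq L r q U := (phi_cont 0).norm

lemma Fq_GI (hqr : q = 2 ^ r) : GI fun U : Ed (e + 3) (2 * m) → G => Fq L r q U :=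
  fun γ U => nphi_gt hqr γ U 0

lemma Fq_tr (z : Fin (e + 3) → ZMod (2 * m)) (U : Ed (e + 3) (2 * m) → G) :
    Fq L r q (tr z U) = ‖phi eT L r q U z‖ := by
  have h := phi_shift (u := eT) (L := L) (q := q) (r := r) U z 0
  unfold Fq
  have h1 : (tr z U : Ed (e + 3) (2 * m) → G) = fun f => U (f.1 + z, f.2) := rfl
  rw [h1, h, zero_add]

omit [NeZero m] in
lemma PA_ne (hqr : q = 2 ^ r) (o : OO e q) : ∀ i ∈ PA r o, i ≠ Fin.last (e + 2) := fun i hi =>
  not_last (cPA_last hqr o).1 hi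

omit [NeZero m] in
lemma QA_ne (hqr : q = 2 ^ r) (o : OO e q) : ∀ i ∈ QA r o, i ≠ Fin.last (e + 2) := fun i hi =>
  not_last (cPA_last hqr o).2 hi

omit [NeZero m] in
lemma PB_ne (hqr : q = 2 ^ r) (o : OO e q) : ∀ i ∈ PB r o, i ≠ Fin.last (e + 2) := fun i hi =>
  not_last (cPB_last hqr o).1 hi

omit [NeZero m] in
lemma QB_ne (hqr : q = 2 ^ r) (o : OO e q) : ∀ i ∈ QB r o, i ≠ Fin.last (e + 2) := fun i hi =>
  not_last (cPB_last hqr o).2 hi

lemma phi_fix (hqr : q = 2 ^ r) (U : Ed (e + 3) (2 * m) → G) (x : Fin (e + 3) → ZMod (2 * m)) :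
    phi eT L r q (fix (Fin.last (e + 2)) U) x = phi eT L r q U x := by
  unfold phi pp
  congr 1
  refine Finset.sum_congr rfl fun o _ => ?_
  rw [tp_fix U x (PA_ne hqr o), tp_fix U x (QA_ne hqr o),
    tp_fix U _ (PB_ne hqr o), tp_fix U _ (QB_ne hqr o)]

/-- the observable as a function of the coordinates -/
def Qd (e m r q N : ℕ) [NeZero m] (hm : 2 ≤ m)
    (w : IJ (TR (d := e + 3) hm (Fin.last (e + 2))).J N → ℝ) : Mat N :=
  Qz hm (Fin.last (e + 2)) (bb e m q) (Finset.univ : Finset (OO e q)) (PA r) (PB r) w -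
    Qz hm (Fin.last (e + 2)) (bb e m q) (Finset.univ : Finset (OO e q)) (QA r) (QB r) w

lemma Qd_phi (hm : 2 ≤ m) (hqr : q = 2 ^ r) (U : Ed (e + 3) (2 * m) → G) :
    Qd e m r q N hm (cv L (TR hm (Fin.last (e + 2))) U) =
      phi eT L r q (tr (eT (Fin.last (e + 2))) U) 0 := by
  unfold Qd
  rw [Qz_cv hm bb_last (fun o _ => PA_ne hqr o) (fun o _ => PB_ne hqr o),
    Qz_cv hm bb_last (fun o _ => QA_ne hqr o) (fun o _ => QB_ne hqr o), phi_qs]

lemma Qd_tU (hm : 2 ≤ m) (hqr : q = 2 ^ r) (U : Ed (e + 3) (2 * m) → G) :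
    Qd e m r q N hm (cv L (TR hm (Fin.last (e + 2))) ((TR hm (Fin.last (e + 2))).tU U)) =
      phi eT L r q U 0 := by
  unfold Qd
  rw [Qz_tU hm bb_last (fun o _ => PA_ne hqr o) (fun o _ => PB_ne hqr o),
    Qz_tU hm bb_last (fun o _ => QA_ne hqr o) (fun o _ => QB_ne hqr o), phi_qs]

lemma Qd_MM (hm : 2 ≤ m) (hqr : q = 2 ^ r) (hqm : 5 * (e + 3) * q < 2 * m) :
    MM (Qd e m r q N hm) :=
  (Qz_MM (N := N) hm fun o _ => nodupP hqr hqm o).sub
    (Qz_MM (N := N) hm fun o _ => nodupQ hqr hqm o)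

omit [NeZero m] in
lemma y0_last : (y0 e m) (Fin.last (e + 2)) = 1 := by
  unfold y0; simp [eT]

omit [NeZero m] in
lemma y1_last : (y1 e m q) (Fin.last (e + 2)) = 1 := by
  have h : (Fin.last (e + 2)) ≠ 0 := Ne.symm zero_nel
  unfold y1
  rw [Pi.add_apply, y0_last]
  simp [eT, h]

lemma JP (hm : 2 ≤ m) (hqr : q = 2 ^ r) (o : OO e q) :
    ∀ f ∈ lk eT (y0 e m) (PA r o) ++ lk eT (y1 e m q) (PB r o),
      f ∈ (TR hm (Fin.last (e + 2))).J := by
  intro f hf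
  rw [List.mem_append] at hf
  rcases hf with hf | hf
  · exact lk_J' hm (PA_ne hqr o) y0_last hf
  · exact lk_J' hm (PB_ne hqr o) y1_last hf

lemma JQ (hm : 2 ≤ m) (hqr : q = 2 ^ r) (o : OO e q) :
    ∀ f ∈ lk eT (y0 e m) (QA r o) ++ lk eT (y1 e m q) (QB r o),
      f ∈ (TR hm (Fin.last (e + 2))).J := by
  intro f hf
  rw [List.mem_append] at hf
  rcases hf with hf | hf
  · exact lk_J' hm (QA_ne hqr o) y0_last hf
  · exact lk_J' hm (QB_ne hqr o) y1_last hf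

lemma WW_rect (hm : 2 ≤ m) (hqr : q = 2 ^ r) (U : Ed (e + 3) (2 * m) → G) (o : OO e q) :
    ‖WW (TR hm (Fin.last (e + 2))).J (cv L (TR hm (Fin.last (e + 2))) U) (lR m o) (lM m o)
      (lV m o)‖ = dv L (rect U (yR m o) 0 1 (rr o) (rv o)) := by
  have jR : ∀ f ∈ lR m o, f ∈ (TR hm (Fin.last (e + 2))).J := fun f hf => by
    refine JP hm hqr o f ?_
    rw [lk_PA hqr]
    simp [hf]
  have jM : ∀ f ∈ lM m o, f ∈ (TR hm (Fin.last (e + 2))).J := fun f hf => by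
    refine JQ hm hqr o f ?_
    rw [lk_QA hqr]
    simp [hf]
  have jV : ∀ f ∈ lV m o, f ∈ (TR hm (Fin.last (e + 2))).J := fun f hf => by
    refine JQ hm hqr o f ?_
    rw [lk_QB hqr]
    simp [hf]
  have eM : lM m o = lk eT (yR m o) (List.replicate (rv o) 1 ++ List.replicate (rr o) 0) := by
    unfold lM
    rw [lk_append, bS hqr]
  have eV : yV m o = yR m o + dsp eT (List.replicate (rr o) 0) := by
    unfold yV yR
    rw [dsp_append]
    exact (add_assoc _ _ _).symm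
  unfold WW
  rw [pm_tp (TR hm (Fin.last (e + 2))) U jR, pm_tp (TR hm (Fin.last (e + 2))) U jM,
    pm_tp (TR hm (Fin.last (e + 2))) U jV, eM]
  unfold lR lV
  rw [← rho_tp, ← rho_tp, ← rho_tp]
  obtain ⟨g, hg⟩ : ∃ g, g = tp eT U (yV m o) (List.replicate (rv o) 1) := ⟨_, rfl⟩
  have e1 := L.unit' g
  have e2 : (L.rho (tp eT U (yR m o) (List.replicate (rr o) 0)) -
      L.rho (tp eT U (yR m o) (List.replicate (rv o) 1 ++ List.replicate (rr o) 0)) *
      (L.rho g)ᴴ) * L.rho g =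
      L.rho (tp eT U (yR m o) (List.replicate (rr o) 0 ++ List.replicate (rv o) 1)) -
      L.rho (tp eT U (yR m o) (List.replicate (rv o) 1 ++ List.replicate (rr o) 0)) := by
    rw [sub_mul, Matrix.mul_assoc, e1, mul_one, tp_append (yR m o) (List.replicate (rr o) 0)
      (List.replicate (rv o) 1), ← eV, ← hg, map_mul]
  rw [← hg, ← norm_rmul (L := L) g, e2]
  exact dd_swap U (yR m o) 0 1 (rr o) (rv o)

/-- the number of the links -/
def ell (e q : ℕ) : ℕ := 10 * (e + 3) * q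

/-- the overlap of the ways -/
def kO (e j q : ℕ) : ℝ := ((4 * (8 * (j + 1) + 3 * (e + 3)) * q ^ (e + 4) : ℕ) : ℝ)

/-- the size of the error for one configuration -/
def Hb (L : LD G N n) (e j q : ℕ) (β : ℝ) (U : Ed (e + 3) (2 * m) → G) : ℝ :=
  ((Fintype.card (OO e q) : ℝ))⁻¹ ^ 2 * (12 * N * (1 / β) * (kO e j q * ∑ o : OO e q,
    (2 * dv L (rect U (yR m o) 0 1 (rr o) (rv o)) ^ 2 + 48 * N ^ 2 * (1 / β) * (ell e q : ℝ))) +
    48 * N ^ 2 * (1 / β) * ((Fintype.card (OO e q) : ℝ) * ((48 * q ^ 4 : ℕ) : ℝ)))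

/-- the noise bound -/
lemma av_le {j : ℕ} (hm : 2 ≤ m) (hβ : 0 < β) (hqr : q = 2 ^ (j + 1))
    (hqm : 5 * (e + 3) * q < 2 * m)
    (hℓ : 2 * N * (1 / β) * (ell e q : ℕ) ≤ 1) (U : Ed (e + 3) (2 * m) → G) :
    av (fun s => ‖Qd e m (j + 1) q N hm (cv L (TR hm (Fin.last (e + 2))) U +
      sg (1 / Real.sqrt β) s) -
      Qd e m (j + 1) q N hm (cv L (TR hm (Fin.last (e + 2))) U)‖ ^ 2) ≤ Hb L e j q β U := by
  classical
  have hβ2 : (1 / Real.sqrt β) ^ 2 = 1 / β := by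
    rw [div_pow, one_pow, Real.sq_sqrt hβ.le]
  have hq5 : 5 * q < 2 * m := by nlinarith
  have key := diff_resp (ι := OO e q) (O := Finset.univ)
    (J := (TR (d := e + 3) hm (Fin.last (e + 2))).J) (x := cv L (TR hm (Fin.last (e + 2))) U)
    (δ := 1 / Real.sqrt β) (A := lA m (j + 1)) (R := lR m) (B := lB m (j + 1)) (M := lM m)
    (V := lV m)
    (fun o _ => by rw [← lk_PA hqr]; exact nodupP hqr hqm o)
    (fun o _ => by rw [← lk_QA hqr, ← lk_QB hqr]; exact nodupQ hqr hqm o)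
    (fun o _ => by
      rw [← lk_PA hqr]
      exact Un_cv' (L := L) (TR hm (Fin.last (e + 2))) U (JP hm hqr o))
    (fun o _ => by
      rw [← lk_QA hqr, ← lk_QB hqr]
      exact Un_cv' (L := L) (TR hm (Fin.last (e + 2))) U (JQ hm hqr o))
    (ℓ := ell e q)
    (fun o _ => by
      rw [← lk_PA hqr, ← lk_PB, List.length_append, lk_length, lk_length]
      have h1 := len_le fun j => (cPA_le hqr o j).1
      have h2 := len_le fun j => (cPB_le hqr o j).1
      unfold ell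
      linarith)
    (fun o _ => by
      rw [← lk_QA hqr, ← lk_QB hqr, List.length_append, lk_length, lk_length]
      have h1 := len_le fun j => (cPA_le hqr o j).2
      have h2 := len_le fun j => (cPB_le hqr o j).2
      unfold ell
      linarith)
    (by rw [hβ2]; exact hℓ) (K1 := kO e j q) (K2 := ((48 * q ^ 4 : ℕ) : ℝ))
    (fun o _ => by
      have h := ovl1 hqr hq5 o
      unfold kO
      exact_mod_cast h)
    (fun o _ => by
      have h := ovl2 hq5 o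
      exact_mod_cast h)
  simp only [WW_rect hm hqr, hβ2, Finset.card_univ] at key
  have e0 : ∀ w : IJ (TR (d := e + 3) hm (Fin.last (e + 2))).J N → ℝ,
      Qd e m (j + 1) q N hm w = ((Fintype.card (OO e q) : ℝ))⁻¹ • ∑ o : OO e q,
        ff (TR (d := e + 3) hm (Fin.last (e + 2))).J w (lA m (j + 1) o) (lR m o) (lB m (j + 1) o)
          (lM m o) (lV m o) := by
    intro w
    unfold Qd Qz
    rw [← smul_sub, ← Finset.sum_sub_distrib, Finset.card_univ]
    congr 1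
    refine Finset.sum_congr rfl fun o _ => ?_
    unfold ff
    rw [← lk_PA hqr, ← lk_QA hqr, ← lk_QB hqr]
    rfl
  have e1 : (fun s => ‖Qd e m (j + 1) q N hm (cv L (TR hm (Fin.last (e + 2))) U +
      sg (1 / Real.sqrt β) s) - Qd e m (j + 1) q N hm (cv L (TR hm (Fin.last (e + 2))) U)‖ ^ 2) =
      fun s => ((Fintype.card (OO e q) : ℝ))⁻¹ ^ 2 * ‖∑ o : OO e q,
        ff (TR (d := e + 3) hm (Fin.last (e + 2))).J (cv L (TR hm (Fin.last (e + 2))) U +
          sg (1 / Real.sqrt β) s) (lA m (j + 1) o) (lR m o) (lB m (j + 1) o)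
          (lM m o) (lV m o) -
        ∑ o : OO e q, ff (TR (d := e + 3) hm (Fin.last (e + 2))).J
          (cv L (TR hm (Fin.last (e + 2))) U) (lA m (j + 1) o) (lR m o) (lB m (j + 1) o)
          (lM m o) (lV m o)‖ ^ 2 := by
    funext s
    rw [e0, e0, ← smul_sub, norm_smul, mul_pow, norm_inv, Real.norm_natCast]
  rw [e1, av_smul]
  exact mul_le_mul_of_nonneg_left key (sq_nonneg _)

lemma Hb_cont {j : ℕ} : Continuous fun U : Ed (e + 3) (2 * m) → G => Hb L e j q β U := by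
  unfold Hb
  have h1 : Continuous fun U : Ed (e + 3) (2 * m) → G =>
      ∑ o : OO e q, (2 * dv L (rect U (yR m o) 0 1 (rr o) (rv o)) ^ 2 +
        48 * N ^ 2 * (1 / β) * (ell e q : ℝ)) :=
    continuous_finsetSum _ fun o _ => (continuous_const.mul (dvr_cont o)).add continuous_const
  exact continuous_const.mul ((continuous_const.mul
    (continuous_const.mul h1)).add continuous_const)

lemma Hb_GI {j : ℕ} : GI fun U : Ed (e + 3) (2 * m) → G => Hb L e j q β U := fun γ U => by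
  show Hb L e j q β (gt γ U) = _
  unfold Hb
  simp only [rect_gt, dv_conj]

lemma Hb_fix {j : ℕ} (U : Ed (e + 3) (2 * m) → G) :
    Hb L e j q β (fix (Fin.last (e + 2)) U) = Hb L e j q β U := by
  unfold Hb
  simp only [Y14.rect_fix zero_nel one_nel]

theorem dif_Zt {j : ℕ} (hm : 2 ≤ m) (hβ : 0 < β) (hqr : q = 2 ^ (j + 1))
    (hqm : 5 * (e + 3) * q < 2 * m)
    (hℓ : 2 * N * (1 / β) * (ell e q : ℕ) ≤ 1) :
    Zt μ L β (fun U : Ed (e + 3) (2 * m) → G =>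
      (Fq L (j + 1) q (tr (eT (Fin.last (e + 2))) U) - Fq L (j + 1) q U) ^ 2) ≤
      Zt μ L β (fun U : Ed (e + 3) (2 * m) → G => Hb L e j q β U) := by
  obtain ⟨c, hc, hred⟩ := Zt_red μ (L := L) hm (Fin.last (e + 2)) β
  have c1 : Continuous fun U : Ed (e + 3) (2 * m) → G =>
      (Fq L (j + 1) q (tr (eT (Fin.last (e + 2))) U) - Fq L (j + 1) q U) ^ 2 :=
    ((Fq_cont.comp (tr_cont _)).sub Fq_cont).pow 2
  have g1 : GI fun U : Ed (e + 3) (2 * m) → G =>
      (Fq L (j + 1) q (tr (eT (Fin.last (e + 2))) U) - Fq L (j + 1) q U) ^ 2 := fun γ U => by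
    simp only [Fq_tr]
    unfold Fq
    rw [nphi_gt hqr, nphi_gt hqr]
  rw [hred _ c1 g1, hred _ Hb_cont Hb_GI]
  refine mul_le_mul_of_nonneg_left ?_ hc.le
  have hβ2 : (1 / Real.sqrt β) ^ 2 = 1 / β := by
    rw [div_pow, one_pow, Real.sq_sqrt hβ.le]
  have hMM := Qd_MM (e := e) (q := q) (N := N) hm hqr hqm
  have cQ := mm_cont hMM
  have cQ1 : Continuous fun U : Ed (e + 3) (2 * m) → G =>
      Qd e m (j + 1) q N hm (cv L (TR hm (Fin.last (e + 2))) U) := cQ.comp (cv_cont _)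
  have cQ2 : Continuous fun U : Ed (e + 3) (2 * m) → G =>
      Qd e m (j + 1) q N hm (cv L (TR hm (Fin.last (e + 2)))
        ((TR hm (Fin.last (e + 2))).tU U)) :=
    cQ1.comp (TR hm (Fin.last (e + 2))).tU_cont
  have cQ3 : ∀ s, Continuous fun U : Ed (e + 3) (2 * m) → G =>
      Qd e m (j + 1) q N hm (cv L (TR hm (Fin.last (e + 2))) U + sg (1 / Real.sqrt β) s) :=
    fun s => cQ.comp ((cv_cont _).add continuous_const)
  have h1 : (TR hm (Fin.last (e + 2))).Ew μ L β (wR L β m (Fin.last (e + 2))).1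
      (fun U : Ed (e + 3) (2 * m) → G => (Fq L (j + 1) q (tr (eT (Fin.last (e + 2)))
        (fix (Fin.last (e + 2)) U)) - Fq L (j + 1) q (fix (Fin.last (e + 2)) U)) ^ 2) ≤
      (TR hm (Fin.last (e + 2))).Ew μ L β (wR L β m (Fin.last (e + 2))).1
      (fun U : Ed (e + 3) (2 * m) → G =>
        ‖Qd e m (j + 1) q N hm (cv L (TR hm (Fin.last (e + 2))) U) -
        Qd e m (j + 1) q N hm (cv L (TR hm (Fin.last (e + 2)))
          ((TR hm (Fin.last (e + 2))).tU U))‖ ^ 2) := by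
    have e1 : (fun U : Ed (e + 3) (2 * m) → G => (Fq L (j + 1) q (tr (eT (Fin.last (e + 2)))
        (fix (Fin.last (e + 2)) U)) - Fq L (j + 1) q (fix (Fin.last (e + 2)) U)) ^ 2) =
        fun U => (‖Qd e m (j + 1) q N hm (cv L (TR hm (Fin.last (e + 2))) U)‖ -
          ‖Qd e m (j + 1) q N hm (cv L (TR hm (Fin.last (e + 2)))
            ((TR hm (Fin.last (e + 2))).tU U))‖) ^ 2 := by
      funext U
      have e2 : ‖phi eT L (j + 1) q (tr (eT (Fin.last (e + 2))) U) 0‖ =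
          ‖phi eT L (j + 1) q U (eT (Fin.last (e + 2)))‖ := Fq_tr _ _
      rw [Fq_tr, phi_fix hqr, Qd_phi hm hqr, Qd_tU hm hqr, e2]
      unfold Fq
      rw [phi_fix hqr]
    rw [e1]
    refine Ew_mono μ _ (Sm_cont (wR L β m (Fin.last (e + 2)))) (wR_nonneg β _)
      ((cQ1.norm.sub cQ2.norm).pow 2) ((cQ1.sub cQ2).norm.pow 2) fun U => ?_
    rw [← sq_abs]
    exact pow_le_pow_left₀ (abs_nonneg _) (abs_norm_sub_norm_le _ _) 2
  refine h1.trans ?_
  refine (noise_domM μ (L := L) (TR hm (Fin.last (e + 2))) hβ hβ2 hMM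
    (Sm_cont (wR L β m (Fin.last (e + 2)))) (wR_dep hm β (Fin.last (e + 2)))
    (wR_nonneg β (Fin.last (e + 2)))).trans ?_
  refine Ew_mono μ _ (Sm_cont (wR L β m (Fin.last (e + 2)))) (wR_nonneg β _)
    (av_cont fun s => ((cQ3 s).sub cQ1).norm.pow 2) (Hb_cont.comp ?_) fun U => ?_
  · refine continuous_pi fun f => ?_
    unfold fix
    split_ifs
    · exact continuous_const
    · exact continuous_apply f
  · rw [Hb_fix]
    exact av_le hm hβ hqr hqm hℓ U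

/-- the constant of the bound -/
def CD (e N : ℕ) (A : ℝ) : ℝ := 120000 * ((e + 3) ^ 2 * N ^ 3 * A)

lemma CD_pos {A : ℝ} (hA : 1 ≤ A) (hN : 1 ≤ N) : 0 < CD e N A := by
  have : (1 : ℝ) ≤ N := by exact_mod_cast hN
  unfold CD; positivity

variable {S : ℕ → ℝ}

lemma EX_dvr {j : ℕ} (hqr : q = 2 ^ (j + 1)) {a0 : ℝ}
    (hS : SB μ L (e + 3) m β (fun k => a0 * Real.sqrt (2 ^ k)) (j + 1 + 3)) (o : OO e q) :
    EX μ L β (fun U : Ed (e + 3) (2 * m) → G =>
      dv L (rect U (yR m o) 0 1 (rr o) (rv o)) ^ 2) ≤ 4 * a0 ^ 2 * q := by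
  have h1 := rr_eq o
  have h2 := rv_le o
  have h3 := o.2.1.2
  have hp : 2 ^ (j + 1 + 2) = 4 * q := by rw [hqr]; ring
  have h := hS.b (j + 1 + 2) (by omega) 0 1 (Ne.symm one_ne) (rr o) (rv o)
    (by rw [hp]; omega) (by rw [hp]; omega)
  rw [← en_rect μ β 0 1 (rr o) (rv o) (yR m o)] at h
  rw [← en_sq]
  have hpR : (2 : ℝ) ^ (j + 1 + 2) = 4 * q := by exact_mod_cast hp
  calc _ ≤ (a0 * Real.sqrt (2 ^ (j + 1 + 2))) ^ 2 := pow_le_pow_left₀ (en_nonneg μ _) h 2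
    _ = _ := by
        rw [mul_pow, Real.sq_sqrt (by positivity), hpR]
        ring

lemma EX_Hb {j : ℕ} (hN : 1 ≤ N) (hβ : 0 < β) (hqr : q = 2 ^ (j + 1)) {a0 A lam : ℝ}
    (hA : 1 ≤ A) (hlam : 1 ≤ lam) (haA : a0 ^ 2 ≤ A * lam / β)
    (hS : SB μ L (e + 3) m β (fun k => a0 * Real.sqrt (2 ^ k)) (j + 1 + 3))
    (hqβ : (q : ℝ) ^ (e + 1) * ((j + 2 : ℕ) * lam) ≤ β) :
    EX μ L β (fun U : Ed (e + 3) (2 * m) → G => Hb L e j q β U) ≤
      CD e N A * (q / (β * (q : ℝ) ^ (e + 1))) := by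
  have hq : 1 ≤ q := by rw [hqr]; exact Nat.one_le_two_pow
  have hq1 : (1 : ℝ) ≤ q := by exact_mod_cast hq
  have hq0 : (0 : ℝ) < q := by linarith
  have hN1 : (1 : ℝ) ≤ N := by exact_mod_cast hN
  have hN0 : (0 : ℝ) ≤ N := Nat.cast_nonneg N
  have he0 : (0 : ℝ) ≤ e := Nat.cast_nonneg e
  have hj0 : (0 : ℝ) ≤ j := Nat.cast_nonneg j
  obtain ⟨M, hM⟩ : ∃ M : ℝ, M = (Fintype.card (OO e q) : ℝ) := ⟨_, rfl⟩
  have hM0 : 0 < M := by rw [hM]; exact card_pos hq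
  have hMq : M = (q : ℝ) ^ (e + 4) := by
    rw [hM, card_OO]; push_cast; ring
  have hS' : EX μ L β (fun U : Ed (e + 3) (2 * m) → G =>
      ∑ o : OO e q, dv L (rect U (yR m o) 0 1 (rr o) (rv o)) ^ 2) ≤
      M * (4 * (A * lam / β) * q) := by
    rw [EX_fsum μ Finset.univ fun o => dvr_cont o]
    calc _ ≤ ∑ _o : OO e q, 4 * (A * lam / β) * q := by
          refine Finset.sum_le_sum fun o _ => (EX_dvr μ hqr hS o).trans ?_
          have := mul_le_mul_of_nonneg_right haA hq0.le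
          linarith
      _ = _ := by rw [Finset.sum_const, Finset.card_univ, nsmul_eq_mul, hM]
  have cS : Continuous fun U : Ed (e + 3) (2 * m) → G =>
      ∑ o : OO e q, dv L (rect U (yR m o) 0 1 (rr o) (rv o)) ^ 2 :=
    continuous_finsetSum _ fun o _ => dvr_cont o
  obtain ⟨K, hK⟩ : ∃ K : ℝ, K = kO e j q := ⟨_, rfl⟩
  have hK0 : 0 ≤ K := by rw [hK]; unfold kO; positivity
  obtain ⟨ℓ, hℓ⟩ : ∃ ℓ : ℝ, ℓ = ((ell e q : ℕ) : ℝ) := ⟨_, rfl⟩
  have hℓ0 : 0 ≤ ℓ := by rw [hℓ]; positivity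
  have e1 : (fun U : Ed (e + 3) (2 * m) → G => Hb L e j q β U) = fun U =>
      (M⁻¹ ^ 2 * (24 * N * (1 / β) * K)) *
        (∑ o : OO e q, dv L (rect U (yR m o) 0 1 (rr o) (rv o)) ^ 2) +
      M⁻¹ ^ 2 * (12 * N * (1 / β) * (K * (M * (48 * N ^ 2 * (1 / β) * ℓ))) +
        48 * N ^ 2 * (1 / β) * (M * (48 * (q : ℝ) ^ 4))) := by
    funext U
    unfold Hb
    rw [Finset.sum_add_distrib, ← Finset.mul_sum, Finset.sum_const, Finset.card_univ,
      nsmul_eq_mul, ← hM, ← hK, ← hℓ]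
    push_cast
    ring
  have cS' : Continuous fun U : Ed (e + 3) (2 * m) → G =>
      (M⁻¹ ^ 2 * (24 * N * (1 / β) * K)) *
        (∑ o : OO e q, dv L (rect U (yR m o) 0 1 (rr o) (rv o)) ^ 2) := continuous_const.mul cS
  rw [e1, EX_add μ cS' continuous_const, EX_smul, EX_const]
  have h6 : (M⁻¹ ^ 2 * (24 * N * (1 / β) * K)) * EX μ L β (fun U : Ed (e + 3) (2 * m) → G =>
      ∑ o : OO e q, dv L (rect U (yR m o) 0 1 (rr o) (rv o)) ^ 2) ≤
      (M⁻¹ ^ 2 * (24 * N * (1 / β) * K)) * (M * (4 * (A * lam / β) * q)) :=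
    mul_le_mul_of_nonneg_left hS' (by positivity)
  -- the sizes
  obtain ⟨kk, hkk⟩ : ∃ kk : ℝ, kk = 4 * (8 * (j + 1) + 3 * (e + 3)) := ⟨_, rfl⟩
  have hKM : K = kk * M := by
    rw [hK, hMq, hkk]
    unfold kO
    push_cast
    ring
  have hkk0 : 0 ≤ kk := by rw [hkk]; positivity
  have hkk1 : kk ≤ 20 * (e + 3) * (j + 2) := by
    rw [hkk]
    nlinarith
  obtain ⟨P, hP⟩ : ∃ P : ℝ, P = (q : ℝ) ^ (e + 1) := ⟨_, rfl⟩
  have hP0 : 0 < P := by rw [hP]; positivity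
  have hMP : M = P * (q : ℝ) ^ 3 := by rw [hMq, hP]; ring
  rw [← hP] at hqβ ⊢
  push_cast at hqβ
  have s1 : (M⁻¹ ^ 2 * (24 * N * (1 / β) * K)) * (M * (4 * (A * lam / β) * q)) =
      96 * N * A * (kk * lam) * (q / β ^ 2) := by
    rw [hKM]
    field_simp
    ring
  have s2 : M⁻¹ ^ 2 * (12 * N * (1 / β) * (K * (M * (48 * N ^ 2 * (1 / β) * ℓ))) +
        48 * N ^ 2 * (1 / β) * (M * (48 * (q : ℝ) ^ 4))) =
      576 * N ^ 3 * (kk * ℓ) / β ^ 2 + 2304 * N ^ 2 * (q / (β * P)) := by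
    rw [hKM, hMP]
    field_simp
    ring
  have hℓe : ℓ = 10 * (e + 3) * q := by
    rw [hℓ]
    unfold ell
    push_cast
    ring
  have t1 : kk * lam * (q / β ^ 2) ≤ 20 * (e + 3) * (q / (β * P)) := by
    have u1 : kk * lam ≤ 20 * (e + 3) * ((j + 2) * lam) := by
      calc kk * lam ≤ 20 * (e + 3) * (j + 2) * lam :=
            mul_le_mul_of_nonneg_right hkk1 (by linarith)
        _ = _ := by ring
    have u2 : (j + 2) * lam ≤ β / P := by
      rw [le_div_iff₀ hP0]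
      calc (j + 2) * lam * P = P * ((j + 2) * lam) := by ring
        _ ≤ β := hqβ
    calc kk * lam * (q / β ^ 2) ≤ 20 * (e + 3) * (β / P) * (q / β ^ 2) :=
          mul_le_mul_of_nonneg_right (u1.trans (mul_le_mul_of_nonneg_left u2 (by positivity)))
            (by positivity)
      _ = _ := by field_simp
  have t2 : kk * (q / β ^ 2) ≤ 20 * (e + 3) * (q / (β * P)) := by
    refine le_trans ?_ t1
    refine mul_le_mul_of_nonneg_right ?_ (by positivity)
    calc kk = kk * 1 := (mul_one _).symm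
      _ ≤ kk * lam := mul_le_mul_of_nonneg_left hlam hkk0
  obtain ⟨X, hX⟩ : ∃ X : ℝ, X = q / (β * P) := ⟨_, rfl⟩
  have hX0 : 0 ≤ X := by rw [hX]; positivity
  rw [← hX] at t1 t2 ⊢
  rw [s1] at h6
  rw [s2, ← hX]
  have u1 : 96 * N * A * (kk * lam) * (q / β ^ 2) ≤ 1920 * (e + 3) * N * A * X := by
    calc 96 * N * A * (kk * lam) * (q / β ^ 2) = 96 * N * A * (kk * lam * (q / β ^ 2)) := by ring
      _ ≤ 96 * N * A * (20 * (e + 3) * X) := mul_le_mul_of_nonneg_left t1 (by positivity)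
      _ = _ := by ring
  have u2 : 576 * (N : ℝ) ^ 3 * (kk * ℓ) / β ^ 2 ≤ 115200 * (e + 3) ^ 2 * N ^ 3 * X := by
    calc 576 * (N : ℝ) ^ 3 * (kk * ℓ) / β ^ 2 =
          5760 * (e + 3) * N ^ 3 * (kk * (q / β ^ 2)) := by rw [hℓe]; ring
      _ ≤ 5760 * (e + 3) * N ^ 3 * (20 * (e + 3) * X) :=
          mul_le_mul_of_nonneg_left t2 (by positivity)
      _ = _ := by ring
  have v1 : (N : ℝ) ≤ N ^ 3 := by nlinarith [sq_nonneg ((N : ℝ) - 1)]
  have v2 : (N : ℝ) ^ 2 ≤ N ^ 3 := by nlinarith [sq_nonneg ((N : ℝ) - 1)]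
  obtain ⟨t, ht⟩ : ∃ t : ℝ, t = (e : ℝ) + 3 := ⟨_, rfl⟩
  have ht1 : 1 ≤ t := by rw [ht]; linarith
  have htt : t ≤ t ^ 2 := by nlinarith
  obtain ⟨w, hw⟩ : ∃ w : ℝ, w = t ^ 2 * N ^ 3 * A := ⟨_, rfl⟩
  have hN3 : (1 : ℝ) ≤ N ^ 3 := one_le_pow₀ hN1
  have w1 : t * N * A ≤ w := by
    rw [hw]
    refine mul_le_mul_of_nonneg_right ?_ (by linarith)
    exact mul_le_mul htt v1 hN0 (by positivity)
  have w2 : t ^ 2 * N ^ 3 ≤ w := by
    rw [hw]
    exact le_mul_of_one_le_right (by positivity) hA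
  have w3 : (N : ℝ) ^ 2 ≤ w := by
    refine le_trans ?_ w2
    calc (N : ℝ) ^ 2 ≤ N ^ 3 := v2
      _ = 1 * N ^ 3 := (one_mul _).symm
      _ ≤ t ^ 2 * N ^ 3 := mul_le_mul_of_nonneg_right (by nlinarith) (by positivity)
  have w1' := mul_le_mul_of_nonneg_right w1 hX0
  have w2' := mul_le_mul_of_nonneg_right w2 hX0
  have w3' := mul_le_mul_of_nonneg_right w3 hX0
  have w4 : 0 ≤ w * X := by
    rw [hw]
    positivity
  rw [← ht] at u1 u2
  unfold CD
  rw [← ht, ← hw]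
  linarith

/-- **the variation of the observable in the time** -/
theorem dif_bound {j : ℕ} (hm : 2 ≤ m) (hN : 1 ≤ N) (hβ : 0 < β) (hqr : q = 2 ^ (j + 1))
    (hqm : 5 * (e + 3) * q < 2 * m) {a0 A lam : ℝ}
    (hA : 1 ≤ A) (hlam : 1 ≤ lam) (haA : a0 ^ 2 ≤ A * lam / β)
    (hS : SB μ L (e + 3) m β (fun k => a0 * Real.sqrt (2 ^ k)) (j + 1 + 3))
    (hqβ : (q : ℝ) ^ (e + 1) * ((j + 2 : ℕ) * lam) ≤ β)
    (hqβ' : 20 * N * (e + 3) * q ≤ β) :
    EX μ L β (fun U : Ed (e + 3) (2 * m) → G =>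
      (Fq L (j + 1) q (tr (eT (Fin.last (e + 2))) U) - Fq L (j + 1) q U) ^ 2) ≤
      CD e N A * (q / (β * (q : ℝ) ^ (e + 1))) := by
  have h2 : 2 * N * (1 / β) * (ell e q : ℕ) ≤ 1 := by
    have h3 : 2 * N * (1 / β) * (ell e q : ℕ) = (20 * N * (e + 3) * q) / β := by
      unfold ell
      push_cast; ring
    rw [h3, div_le_one hβ]
    exact hqβ'
  refine le_trans ?_ (EX_Hb μ (L := L) hN hβ hqr hA hlam haA hS hqβ)
  unfold EX
  exact div_le_div_of_nonneg_right (dif_Zt μ hm hβ hqr hqm h2) (Zt_pos μ β).le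

end

end Pool.Agent.MG990
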