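import Mathlib
import Pool.Agent.R990.MG.Var

/-!
# Lower bound of the variance of the observable
-/

open MeasureTheory Matrix Filter
open scoped Matrix.Norms.Frobenius Topology
open Pool.Agent.H906R3.YM hiding Pl
open Pool.Agent.W793.YM Pool.Agent.TH618.YM Pool.Agent.Y14

namespace Pool.Agent.MG990

set_option linter.unusedSectionVars false
set_option linter.unusedVariables false

noncomputable section

variable {G : Type*} [Group G] [TopologicalSpace G] [IsTopologicalGroup G] [CompactSpace G]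
  [SecondCountableTopology G] [MeasurableSpace G] [BorelSpace G] (μ : Measure G)
  [IsProbabilityMeasure μ] [μ.IsMulLeftInvariant] [μ.IsMulRightInvariant] [μ.IsInvInvariant]
  {N n : ℕ} {L : LD G N n}

lemma geo_sum {a0 : ℝ} (ha0 : 0 ≤ a0) (k : ℕ) :
    ∑ i ∈ Finset.range k, a0 * Real.sqrt (2 ^ i) ≤ 5 / 2 * a0 * Real.sqrt (2 ^ k) := by
  induction k with
  | zero => simp; positivity
  | succ k ih =>
    rw [Finset.sum_range_succ, sqrt2_pow]
    have h6 := sqrt2_ge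
    have h7 : 0 ≤ a0 * Real.sqrt ((2 : ℝ) ^ k) := mul_nonneg ha0 (Real.sqrt_nonneg _)
    nlinarith

lemma un_le {e r q : ℕ} (hqr : q = 2 ^ r) {a0 : ℝ} (ha0 : 0 ≤ a0) :
    un e (fun k => a0 * Real.sqrt (2 ^ k)) r ≤
      10 * ((e : ℝ) + 3) ^ 2 * (a0 * Real.sqrt q) := by
  have h1 := geo_sum ha0 (r + 3)
  have h2 : Gs (fun k => a0 * Real.sqrt (2 ^ k)) (r + 3) ≤
      7 / 2 * a0 * Real.sqrt (2 ^ (r + 3)) := by
    unfold Gs
    rw [Finset.sum_range_succ]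
    linarith
  have h3 : Real.sqrt ((2 : ℝ) ^ (r + 3)) ≤ 20 / 7 * Real.sqrt q := by
    have e1 : (2 : ℝ) ^ (r + 3) = 8 * q := by rw [hqr]; push_cast; ring
    have e2 : (20 / 7 * Real.sqrt q : ℝ) = Real.sqrt ((20 / 7) ^ 2 * q) := by
      rw [Real.sqrt_mul (by norm_num), Real.sqrt_sq (by norm_num)]
    rw [e1, e2]
    refine Real.sqrt_le_sqrt ?_
    have : (0 : ℝ) ≤ q := Nat.cast_nonneg q
    linarith
  have h4 : Gs (fun k => a0 * Real.sqrt (2 ^ k)) (r + 3) ≤ 10 * (a0 * Real.sqrt q) := by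
    refine h2.trans ?_
    calc 7 / 2 * a0 * Real.sqrt ((2 : ℝ) ^ (r + 3)) ≤ 7 / 2 * a0 * (20 / 7 * Real.sqrt q) :=
          mul_le_mul_of_nonneg_left h3 (by positivity)
      _ = _ := by ring
  unfold un
  calc ((e + 3 : ℕ) : ℝ) ^ 2 * Gs (fun k => a0 * Real.sqrt (2 ^ k)) (r + 3) ≤
        ((e + 3 : ℕ) : ℝ) ^ 2 * (10 * (a0 * Real.sqrt q)) :=
        mul_le_mul_of_nonneg_left h4 (by positivity)
    _ = _ := by push_cast; ring

/-- **lower bound of the variance** -/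
theorem var_low (hn : 1 ≤ n) (hN : 1 ≤ N) (e : ℕ) {C0 : ℝ} (hC0 : 0 < C0)
    (hcar : ∀ g : G, dv L g ^ 2 ≤ ∑ a, fi L a g ^ 2 + C0 * dv L g ^ 4) {A : ℝ} (hA : 1 ≤ A) :
    ∃ c1 cv : ℝ, 0 < c1 ∧ c1 ≤ 1 ∧ 0 < cv ∧ ∀ (r q : ℕ) (β lam a0 : ℝ), q = 2 ^ r → 0 < β →
      1 ≤ lam → 0 ≤ a0 → a0 ^ 2 ≤ A * lam / β → (q : ℝ) ^ 2 * ((r + 3 : ℕ) * lam) ≤ c1 * β →
      (q : ℝ) ^ (e + 1) * lam ^ 2 ≤ c1 * β → ∀ (m : ℕ) [NeZero m], 5 * q < 2 * m →
      SB μ L (e + 3) m β (fun k => a0 * Real.sqrt (2 ^ k)) (r + 3) → ∀ c : ℝ,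
      cv * ((q : ℝ) ^ 2 / (β * (q : ℝ) ^ (e + 1))) ≤
        EX μ L β (fun U : Ed (e + 3) (2 * m) → G => (‖psi L r q U‖ - c) ^ 2) := by
  have hn0 : (1 : ℝ) ≤ n := by exact_mod_cast hn
  have hN0 : (1 : ℝ) ≤ N := by exact_mod_cast hN
  have hA0' : 0 < A := by linarith
  have hCE := CE_ge e N hA0'.le
  obtain ⟨A0, hA0⟩ : ∃ A0 : ℝ, A0 = 10 * ((e : ℝ) + 3) ^ 2 := ⟨_, rfl⟩
  have hA0p : 0 < A0 := by rw [hA0]; positivity
  obtain ⟨B1, hB1⟩ : ∃ B1 : ℝ, B1 = 2 ^ (e + 2) * (16 * n) * (34 * A0 + 1) :=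
    ⟨_, rfl⟩
  obtain ⟨B2, hB2⟩ : ∃ B2 : ℝ, B2 = 2 ^ (e + 2) * (2 * Real.sqrt C0 *
    (18 * A0) ^ 2) := ⟨_, rfl⟩
  have hB1p : 0 < B1 := by rw [hB1]; positivity
  have hB2p : 0 < B2 := by
    have : 0 < Real.sqrt C0 := Real.sqrt_pos.2 hC0
    rw [hB2]; positivity
  obtain ⟨K1, hK1⟩ : ∃ K1 : ℝ, K1 = 24 * n * CE e N A := ⟨_, rfl⟩
  have hK1p : 0 < K1 := by rw [hK1]; positivity
  have hK11 : 1 ≤ K1 := by
    rw [hK1]
    nlinarith
  obtain ⟨Y, hY⟩ : ∃ Y : ℝ, Y = (4 * B1 ^ 2 + 16 * K1 * B2 ^ 2 + 1) * A ^ 2 := ⟨_, rfl⟩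
  have hYp : 0 < Y := by rw [hY]; positivity
  have hA2 : A ≤ A ^ 2 := by nlinarith
  have hA1 : 1 ≤ A ^ 2 := by nlinarith
  have hBB : 0 ≤ 4 * B1 ^ 2 + 16 * K1 * B2 ^ 2 := by positivity
  have hY1 : 1 ≤ Y := by
    rw [hY]
    nlinarith
  refine ⟨1 / Y, (1 / (16 * n) * (1 / 2) ^ (e + 2)) ^ 2 / (K1 * (4 * (1 + 6 * n))), by positivity,
    ?_, by positivity, fun r q β lam a0 hqr hβ0 hlam ha0 haA hq1β hq2β m _ hqm hS c => ?_⟩
  · rw [div_le_one hYp]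
    exact hY1
  have hq : 1 ≤ q := by rw [hqr]; exact Nat.one_le_two_pow
  have hq1 : (1 : ℝ) ≤ q := by exact_mod_cast hq
  have hq0 : (0 : ℝ) < q := by linarith
  have hlam0 : 0 < lam := by linarith
  have hq1β' : (q : ℝ) ^ 2 * ((r + 3 : ℕ) * lam) * Y ≤ β := by
    rw [one_div, inv_mul_eq_div, le_div_iff₀ hYp] at hq1β
    exact hq1β
  have hq2β' : (q : ℝ) ^ (e + 1) * lam ^ 2 * Y ≤ β := by
    rw [one_div, inv_mul_eq_div, le_div_iff₀ hYp] at hq2β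
    exact hq2β
  have hr3 : (1 : ℝ) ≤ ((r + 3 : ℕ) : ℝ) := by exact_mod_cast (by omega : 1 ≤ r + 3)
  have hrl : 1 ≤ ((r + 3 : ℕ) : ℝ) * lam := one_le_mul_of_one_le_of_one_le hr3 hlam
  have hb2 : (q : ℝ) ^ 2 * ((r + 3 : ℕ) * lam) ≤ β :=
    le_trans (le_mul_of_one_le_right (by positivity) hY1) hq1β'
  have hb1 : (q : ℝ) ^ 2 ≤ β := le_trans (le_mul_of_one_le_right (by positivity) hrl) hb2
  have hm2 : 2 ≤ m := by omega
  obtain ⟨Q, hQ⟩ : ∃ Q : ℝ, Q = (q : ℝ) ^ (e + 1) := ⟨_, rfl⟩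
  have hQ1 : 1 ≤ Q := by rw [hQ]; exact one_le_pow₀ hq1
  have hQp : 0 < Q := by linarith
  have hQq' : (q : ℝ) ≤ Q := by
    rw [hQ]
    calc (q : ℝ) = (q : ℝ) ^ 1 := (pow_one _).symm
      _ ≤ _ := pow_le_pow_right₀ hq1 (by omega)
  rw [← hQ] at hq2β'
  obtain ⟨R, hR⟩ : ∃ R, R = Real.sqrt (A * lam * q / β) := ⟨_, rfl⟩
  have hR0 : 0 < R := by rw [hR]; exact Real.sqrt_pos.2 (by positivity)
  have hR2 : R ^ 2 = A * lam * q / β := by rw [hR, Real.sq_sqrt (by positivity)]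
  -- the size of the shift
  obtain ⟨s, hs⟩ : ∃ s, s = 1 / Real.sqrt (K1 * β * Q) := ⟨_, rfl⟩
  have hKQ : 0 < K1 * β * Q := by positivity
  have hs0 : 0 < s := by rw [hs]; positivity
  have hs2 : s ^ 2 = 1 / (K1 * β * Q) := by
    rw [hs, div_pow, one_pow, Real.sq_sqrt hKQ.le]
  have hsr : s * q ≤ R := by
    have h1 : (s * q) ^ 2 ≤ R ^ 2 := by
      rw [mul_pow, hs2, hR2, one_div, inv_mul_eq_div, div_le_div_iff₀ hKQ hβ0]
      calc (q : ℝ) ^ 2 * β = q * β * q := by ring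
        _ ≤ q * β * Q := mul_le_mul_of_nonneg_left hQq' (by positivity)
        _ = 1 * 1 * q * (1 * β * Q) := by ring
        _ ≤ A * lam * q * (K1 * β * Q) := by
            refine mul_le_mul (mul_le_mul_of_nonneg_right (mul_le_mul hA hlam zero_le_one
              hA0'.le) hq0.le) (mul_le_mul_of_nonneg_right
              (mul_le_mul_of_nonneg_right hK11 hβ0.le) hQp.le) (by positivity) (by positivity)
    exact (pow_le_pow_iff_left₀ (by positivity) hR0.le two_ne_zero).1 h1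
  obtain ⟨K, hK⟩ : ∃ K, K = Kb e q m := ⟨_, rfl⟩
  have hKl : (1 / 2 : ℝ) ^ (e + 2) * q ≤ K := by rw [hK]; exact Kb_ge hq hqm
  have hK0 : 0 < K := lt_of_lt_of_le (by positivity) hKl
  obtain ⟨y, hy⟩ : ∃ y, y = s * K := ⟨_, rfl⟩
  have hy0 : 0 < y := by rw [hy]; positivity
  obtain ⟨t, ht⟩ : ∃ t, t = 1 / (16 * (n : ℝ)) * y := ⟨_, rfl⟩
  have ht0 : 0 < t := by rw [ht]; positivity
  have hX : ∀ (a : Fin n) (s' : ℝ), s' ^ 2 = s ^ 2 →
      EX μ L β (fun U : Ed (e + 3) (2 * m) → G => XX L β q a s' U) ≤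
        CE e N A * (s ^ 2 * β * (q : ℝ) ^ (e + 1)) := fun a s' h => by
    rw [← h]
    exact XX_bound μ hm2 hN hβ0 ha0 hA0'.le hlam0.le haA hS hqr (by omega) hb1 hb2 a s'
  have key := union_EX μ (L := L) (β := β) hn hq hqr hqm hC0.le hcar hs0 (y := y) (by rw [hy, hK])
    hy0 c ht (fun a => hX a s rfl) (fun a => hX a (-s) (by ring))
  obtain ⟨S, hSS⟩ : ∃ S : ℕ → ℝ, S = fun k => a0 * Real.sqrt (2 ^ k) := ⟨_, rfl⟩
  have hu : un e S r ≤ A0 * R := by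
    rw [hSS]
    refine (un_le hqr ha0).trans ?_
    rw [hA0]
    refine mul_le_mul_of_nonneg_left ?_ (by positivity)
    have h1 : (a0 * Real.sqrt q) ^ 2 ≤ R ^ 2 := by
      rw [mul_pow, Real.sq_sqrt hq0.le, hR2]
      calc a0 ^ 2 * (q : ℝ) ≤ A * lam / β * q := mul_le_mul_of_nonneg_right haA hq0.le
        _ = _ := by ring
    exact (pow_le_pow_iff_left₀ (by positivity) hR0.le two_ne_zero).1 h1
  rw [← hSS] at hS
  have hu0 := un_nonneg (e := e) (r := r) hS.nn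
  have hYr : (4 * B1 ^ 2) * R ^ 2 ≤ 1 := by
    rw [hR2, ← mul_div_assoc, div_le_one hβ0]
    have h1 : (4 * B1 ^ 2) * A ≤ Y := by
      rw [hY]
      have h3 : 4 * B1 ^ 2 ≤ 4 * B1 ^ 2 + 16 * K1 * B2 ^ 2 + 1 := by
        have : 0 ≤ 16 * K1 * B2 ^ 2 := by positivity
        linarith
      exact mul_le_mul h3 hA2 hA0'.le (by positivity)
    have h2 : lam * q ≤ (q : ℝ) ^ 2 * ((r + 3 : ℕ) * lam) := by
      have h3 : (q : ℝ) ≤ (q : ℝ) ^ 2 * ((r + 3 : ℕ) : ℝ) := by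
        calc (q : ℝ) = q * 1 * 1 := by ring
          _ ≤ q * q * ((r + 3 : ℕ) : ℝ) :=
            mul_le_mul (mul_le_mul_of_nonneg_left hq1 hq0.le) hr3 zero_le_one (by positivity)
          _ = _ := by ring
      calc lam * q ≤ lam * ((q : ℝ) ^ 2 * ((r + 3 : ℕ) : ℝ)) :=
            mul_le_mul_of_nonneg_left h3 hlam0.le
        _ = _ := by ring
    calc 4 * B1 ^ 2 * (A * lam * q) = (4 * B1 ^ 2 * A) * (lam * q) := by ring
      _ ≤ Y * ((q : ℝ) ^ 2 * ((r + 3 : ℕ) * lam)) := mul_le_mul h1 h2 (by positivity) hYp.le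
      _ = (q : ℝ) ^ 2 * ((r + 3 : ℕ) * lam) * Y := by ring
      _ ≤ _ := hq1β'
  have h2p : (1 / 2 : ℝ) ^ (e + 2) * 2 ^ (e + 2) = 1 := by
    rw [← mul_pow]; norm_num
  have hp0 : (0 : ℝ) < 2 ^ (e + 2) := by positivity
  -- the first term
  have t1 : 6 * n * (CE e N A * (s ^ 2 * β * (q : ℝ) ^ (e + 1))) = 1 / 4 := by
    rw [hs2, ← hQ, hK1]
    field_simp
    ring
  -- the second term
  have t2 : (s / t * en μ L β (fun U : Ed (e + 3) (2 * m) → G => Er L r q s U)) ^ 2 ≤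
      1 / 4 := by
    have k1 := Er_en μ (L := L) (e := e) hS hq hqr hqm s
    rw [abs_of_pos hs0] at k1
    have k2 : s / t * en μ L β (fun U : Ed (e + 3) (2 * m) → G => Er L r q s U) ≤ B1 * R := by
      have k3 : s / t ≤ 2 ^ (e + 2) * (16 * n) / q := by
        rw [ht, hy, div_le_div_iff₀ (by positivity) hq0]
        have k4 : (1 : ℝ) * q ≤ 2 ^ (e + 2) * K := by
          calc (1 : ℝ) * q = 2 ^ (e + 2) * ((1 / 2 : ℝ) ^ (e + 2) * q) := by
                rw [← mul_assoc, mul_comm (2 ^ (e + 2) : ℝ), h2p]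
            _ ≤ _ := mul_le_mul_of_nonneg_left hKl hp0.le
        calc s * q = s * (1 * q) := by ring
          _ ≤ s * (2 ^ (e + 2) * K) := mul_le_mul_of_nonneg_left k4 hs0.le
          _ = 2 ^ (e + 2) * (16 * n) * (1 / (16 * n) * (s * K)) := by field_simp
      have k5 : 34 * un e S r + s * q ≤ (34 * A0 + 1) * R := by linarith
      calc _ ≤ 2 ^ (e + 2) * (16 * n) / q * (q * (34 * un e S r + s * q)) :=
            mul_le_mul k3 k1 (en_nonneg μ _) (by positivity)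
        _ = 2 ^ (e + 2) * (16 * n) * (34 * un e S r + s * q) := by
            field_simp
        _ ≤ 2 ^ (e + 2) * (16 * n) * ((34 * A0 + 1) * R) :=
            mul_le_mul_of_nonneg_left k5 (by positivity)
        _ = B1 * R := by rw [hB1]; ring
    have k0 : 0 ≤ s / t * en μ L β (fun U : Ed (e + 3) (2 * m) → G => Er L r q s U) :=
      mul_nonneg (by positivity) (en_nonneg μ _)
    have k7 := pow_le_pow_left₀ k0 k2 2
    have k8 : (B1 * R) ^ 2 ≤ 1 / 4 := by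
      rw [mul_pow]
      linarith
    exact k7.trans k8
  -- the third term
  have t3 : 1 / y * EX μ L β (fun U : Ed (e + 3) (2 * m) → G => Nr L C0 r q U) ≤ 1 / 4 := by
    have k1 := EX_Nr μ (L := L) (e := e) hS hq hqr hqm hC0.le
    have k2 : (18 * un e S r) ^ 2 ≤ (18 * A0) ^ 2 * R ^ 2 := by
      rw [← mul_pow]
      refine pow_le_pow_left₀ (by positivity) ?_ 2
      linarith
    have k3 : EX μ L β (fun U : Ed (e + 3) (2 * m) → G => Nr L C0 r q U) ≤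
        2 * Real.sqrt C0 * ((18 * A0) ^ 2 * R ^ 2) :=
      k1.trans (mul_le_mul_of_nonneg_left k2 (by positivity))
    have k4 : s * q ≤ 2 ^ (e + 2) * y := by
      rw [hy]
      calc s * q = s * (2 ^ (e + 2) * ((1 / 2 : ℝ) ^ (e + 2) * q)) := by
            rw [← mul_assoc (2 ^ (e + 2) : ℝ), mul_comm (2 ^ (e + 2) : ℝ), h2p, one_mul]
        _ ≤ s * (2 ^ (e + 2) * K) :=
            mul_le_mul_of_nonneg_left (mul_le_mul_of_nonneg_left hKl hp0.le) hs0.le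
        _ = _ := by ring
    have k5 : 1 / y * EX μ L β (fun U : Ed (e + 3) (2 * m) → G => Nr L C0 r q U) ≤
        B2 * R ^ 2 / (s * q) := by
      rw [one_div, inv_mul_le_iff₀ hy0]
      refine k3.trans ?_
      rw [← mul_div_assoc, le_div_iff₀ (by positivity)]
      calc 2 * Real.sqrt C0 * ((18 * A0) ^ 2 * R ^ 2) * (s * q) ≤
          2 * Real.sqrt C0 * ((18 * A0) ^ 2 * R ^ 2) * (2 ^ (e + 2) * y) :=
            mul_le_mul_of_nonneg_left k4 (by positivity)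
        _ = _ := by rw [hB2]; ring
    refine k5.trans ?_
    rw [div_le_iff₀ (by positivity)]
    have k6 : (B2 * R ^ 2) ^ 2 ≤ (1 / 4 * (s * q)) ^ 2 := by
      have e1 : (1 / 4 * (s * q)) ^ 2 = (q : ℝ) ^ 2 / (16 * K1 * Q * β) := by
        rw [mul_pow, mul_pow, hs2]
        field_simp
        norm_num
      have e2 : (B2 * R ^ 2) ^ 2 = (q : ℝ) ^ 2 * (B2 ^ 2 * A ^ 2 * lam ^ 2) / β ^ 2 := by
        rw [hR2]
        field_simp
      rw [e1, e2, div_le_div_iff₀ (by positivity) (by positivity)]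
      have e3 : (B2 ^ 2 * A ^ 2 * lam ^ 2) * (16 * K1 * Q) ≤ β := by
        have k7 : 16 * K1 * B2 ^ 2 * A ^ 2 ≤ Y := by
          rw [hY]
          refine mul_le_mul_of_nonneg_right ?_ (by positivity)
          have : 0 ≤ 4 * B1 ^ 2 := by positivity
          linarith
        calc (B2 ^ 2 * A ^ 2 * lam ^ 2) * (16 * K1 * Q) =
              (Q * lam ^ 2) * (16 * K1 * B2 ^ 2 * A ^ 2) := by ring
          _ ≤ (Q * lam ^ 2) * Y := mul_le_mul_of_nonneg_left k7 (by positivity)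
          _ ≤ _ := hq2β'
      calc (q : ℝ) ^ 2 * (B2 ^ 2 * A ^ 2 * lam ^ 2) * (16 * K1 * Q * β) =
            ((q : ℝ) ^ 2 * β) * ((B2 ^ 2 * A ^ 2 * lam ^ 2) * (16 * K1 * Q)) := by ring
        _ ≤ ((q : ℝ) ^ 2 * β) * β := mul_le_mul_of_nonneg_left e3 (by positivity)
        _ = _ := by ring
    exact (pow_le_pow_iff_left₀ (by positivity) (by positivity) two_ne_zero).1 k6
  -- conclusion
  have hW : 1 / (4 * (1 + 6 * (n : ℝ))) ≤
      EX μ L β (fun U : Ed (e + 3) (2 * m) → G => Wd L r q c t U) := by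
    rw [div_le_iff₀ (by positivity)]
    linarith
  have hWe : EX μ L β (fun U : Ed (e + 3) (2 * m) → G => Wd L r q c t U) =
      (1 / t) ^ 2 * EX μ L β (fun U : Ed (e + 3) (2 * m) → G => (‖psi L r q U‖ - c) ^ 2) := by
    rw [← EX_smul]
    congr 1
    funext U
    unfold Wd
    ring
  rw [hWe] at hW
  have hf : t ^ 2 / (4 * (1 + 6 * (n : ℝ))) ≤
      EX μ L β (fun U : Ed (e + 3) (2 * m) → G => (‖psi L r q U‖ - c) ^ 2) := by
    have h1 := mul_le_mul_of_nonneg_left hW (sq_nonneg t)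
    rw [← mul_assoc, ← mul_pow, mul_one_div_cancel ht0.ne', one_pow, one_mul] at h1
    rw [div_eq_mul_one_div]
    exact h1
  refine le_trans ?_ hf
  have ht2 : (1 / (16 * (n : ℝ)) * (1 / 2) ^ (e + 2)) ^ 2 * (s * q) ^ 2 ≤ t ^ 2 := by
    rw [← mul_pow]
    refine pow_le_pow_left₀ (by positivity) ?_ 2
    rw [ht, hy]
    calc 1 / (16 * (n : ℝ)) * (1 / 2) ^ (e + 2) * (s * q) =
        1 / (16 * (n : ℝ)) * (s * ((1 / 2) ^ (e + 2) * q)) := by ring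
      _ ≤ _ := mul_le_mul_of_nonneg_left (mul_le_mul_of_nonneg_left hKl hs0.le) (by positivity)
  have h3 : (1 / (16 * (n : ℝ)) * (1 / 2) ^ (e + 2)) ^ 2 / (K1 * (4 * (1 + 6 * n))) *
      ((q : ℝ) ^ 2 / (β * (q : ℝ) ^ (e + 1))) =
      (1 / (16 * (n : ℝ)) * (1 / 2) ^ (e + 2)) ^ 2 * (s * q) ^ 2 / (4 * (1 + 6 * (n : ℝ))) := by
    rw [mul_pow (s : ℝ), hs2, ← hQ]
    field_simp
  rw [h3]
  exact div_le_div_of_nonneg_right ht2 (by positivity)

end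

end Pool.Agent.MG990
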