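import Mathlib
import Pool.Agent.Y14.Fin
import Pool.Agent.R990.Ind
import Pool.Agent.R990.Ind2
import Pool.Agent.R990.MG.Dif
import Pool.Agent.R990.MG.Var2

/-!
# Slow decay of the time correlations
-/

open MeasureTheory Matrix Filter
open scoped Matrix.Norms.Frobenius Topology
open Pool.Agent.H906R3.YM hiding Pl
open Pool.Agent.W793.YM Pool.Agent.TH618.YM Pool.Agent.Y14
open Pool.Agent.R990 (RB RB2 RB_all RB2_all rc rc_swap)

namespace Pool.Agent.MG990

set_option linter.unusedSectionVars false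
set_option linter.unusedVariables false

noncomputable section

variable {G : Type*} [Group G] [TopologicalSpace G] [IsTopologicalGroup G] [CompactSpace G]
  [SecondCountableTopology G] [MeasurableSpace G] [BorelSpace G] (μ : Measure G)
  [IsProbabilityMeasure μ] [μ.IsMulLeftInvariant] [μ.IsMulRightInvariant] [μ.IsInvInvariant]
  {N n : ℕ} {L : LD G N n}

/-- the logarithmic factor -/
def lm (e r : ℕ) : ℝ := if e = 0 then (r : ℝ) + 4 else 1

lemma lm_ge (e r : ℕ) : 1 ≤ lm e r := by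
  unfold lm
  have : (0 : ℝ) ≤ r := Nat.cast_nonneg r
  split_ifs <;> linarith

/-- the bound of the rectangles -/
theorem SB_all (hN : 1 ≤ N) {e m : ℕ} [NeZero m] {β : ℝ} (hβ : 0 < β) {r : ℕ}
    (hm : 32 * 2 ^ r ≤ 2 * m) :
    SB μ L (e + 3) m β
      (fun k => (30000 * N * Real.sqrt (lm e r) / Real.sqrt β) * Real.sqrt (2 ^ k)) (r + 3) := by
  have hl := lm_ge e r
  have h0 : (0 : ℝ) ≤ 30000 * N * Real.sqrt (lm e r) / Real.sqrt β := by positivity
  have h2r : 1 ≤ 2 ^ r := Nat.one_le_two_pow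
  have hm2 : 2 ≤ m := by omega
  refine ⟨fun k => by positivity, ?_⟩
  have key : ∀ k ≤ r + 3, ∀ i j : Fin (e + 3), i ≠ j → ∀ a b : ℕ, a ≤ 2 ^ k → b ≤ a →
      rc μ L (2 * m) β i j a b ≤
        (30000 * N * Real.sqrt (lm e r) / Real.sqrt β) * Real.sqrt (2 ^ k) := by
    intro k hk i j hij a b ha hba
    have h3 : 2 ^ k ≤ 8 * 2 ^ r := by
      calc 2 ^ k ≤ 2 ^ (r + 3) := Nat.pow_le_pow_right (by norm_num) hk
        _ = 8 * 2 ^ r := by ring
    have h4 : Real.sqrt (a / β) ≤ Real.sqrt (2 ^ k) / Real.sqrt β := by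
      rw [← Real.sqrt_div (by positivity)]
      refine Real.sqrt_le_sqrt (div_le_div_of_nonneg_right ?_ hβ.le)
      exact_mod_cast ha
    by_cases he : e = 0
    · subst he
      have h5 := RB_all μ (L := L) (d := 0 + 3) (m := m) (by omega) hN hm2 hβ k i j hij a b
        (hba.trans ha) hba (by omega)
      refine h5.trans ?_
      have h6 : Real.sqrt ((k : ℝ) + 1) ≤ Real.sqrt (lm 0 r) := by
        refine Real.sqrt_le_sqrt ?_
        unfold lm
        rw [if_pos rfl]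
        have : (k : ℝ) ≤ ((r + 3 : ℕ) : ℝ) := by exact_mod_cast hk
        push_cast at this
        linarith
      calc 30000 * N * Real.sqrt ((k : ℝ) + 1) * Real.sqrt (a / β) ≤
            30000 * N * Real.sqrt (lm 0 r) * (Real.sqrt (2 ^ k) / Real.sqrt β) :=
            mul_le_mul (mul_le_mul_of_nonneg_left h6 (by positivity)) h4 (Real.sqrt_nonneg _)
              (by positivity)
        _ = _ := by ring
    · have h5 := RB2_all μ (L := L) (d := e + 3) (m := m) (by omega) hN hm2 hβ k i j hij a b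
        (hba.trans ha) hba (by omega)
      refine h5.trans ?_
      have h6 : lm e r = 1 := by unfold lm; rw [if_neg he]
      rw [h6, Real.sqrt_one]
      calc 30000 * N * Real.sqrt (a / β) ≤ 30000 * N * (Real.sqrt (2 ^ k) / Real.sqrt β) :=
            mul_le_mul_of_nonneg_left h4 (by positivity)
        _ = _ := by ring
  intro k hk i j hij a b ha hb
  rcases le_total b a with h | h
  · exact key k hk i j hij a b ha h
  · rw [rc_swap]
    exact key k hk j i hij.symm b a hb h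

lemma Fq_Sp {e m q r : ℕ} [NeZero m] (hqr : q = 2 ^ r) :
    Sp (Fin.last (e + 2)) fun U : Ed (e + 3) (2 * m) → G => Fq L r q U := by
  intro U U' h
  show ‖phi eT L r q U 0‖ = ‖phi eT L r q U' 0‖
  rw [phi_congr hqr (U := U) (U' := U') fun w1 hw1 hl i hi => ?_]
  refine h _ _ ?_ hi
  rw [zero_add, dsp_apply, hl, Nat.cast_zero]

/-- the variance of the observable -/
lemma var_Fq {e m q r : ℕ} [NeZero m] {β cv : ℝ} {a : ℝ} (ha : 0 < a)
    (ha2 : a ^ 2 * ((q : ℝ) ^ 2 / (β * (q : ℝ) ^ (e + 1))) = 1)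
    (hv : ∀ c : ℝ, cv * ((q : ℝ) ^ 2 / (β * (q : ℝ) ^ (e + 1))) ≤
      EX μ L β (fun U : Ed (e + 3) (2 * m) → G => (‖psi L r q U‖ - c) ^ 2)) (c : ℝ) :
    cv * Zt μ L β (fun _ : Ed (e + 3) (2 * m) → G => 1) ≤
      Zt μ L β (fun U : Ed (e + 3) (2 * m) → G => (a * Fq L r q U - c) ^ 2) := by
  have k1 := hv (c / a)
  have k2 : EX μ L β (fun U : Ed (e + 3) (2 * m) → G => (‖psi L r q U‖ - c / a) ^ 2) =
      EX μ L β (fun U : Ed (e + 3) (2 * m) → G => (Fq L r q U - c / a) ^ 2) := by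
    have k0 : (fun U : Ed (e + 3) (2 * m) → G => (‖psi L r q U‖ - c / a) ^ 2) =
        fun U => (Fq L r q (tr ((2 * q) • eT (Fin.last (e + 2))) U) - c / a) ^ 2 := by
      funext U
      rw [Fq_tr, norm_psi]
    rw [k0]
    exact EX_tr μ ((2 * q) • eT (Fin.last (e + 2)))
      (fun U : Ed (e + 3) (2 * m) → G => (Fq L r q U - c / a) ^ 2)
  rw [k2] at k1
  have k3 : EX μ L β (fun U : Ed (e + 3) (2 * m) → G => (a * Fq L r q U - c) ^ 2) =
      a ^ 2 * EX μ L β (fun U : Ed (e + 3) (2 * m) → G => (Fq L r q U - c / a) ^ 2) := by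
    rw [← EX_smul]
    have k0 : (fun U : Ed (e + 3) (2 * m) → G => (a * Fq L r q U - c) ^ 2) =
        fun U => a ^ 2 * (Fq L r q U - c / a) ^ 2 := by
      funext U
      rw [← mul_pow, mul_sub, mul_div_cancel₀ c ha.ne']
    rw [k0]
  have k4 : cv ≤ EX μ L β (fun U : Ed (e + 3) (2 * m) → G => (a * Fq L r q U - c) ^ 2) := by
    rw [k3]
    calc cv = a ^ 2 * (cv * ((q : ℝ) ^ 2 / (β * (q : ℝ) ^ (e + 1)))) := by
          rw [mul_left_comm, ha2, mul_one]
      _ ≤ _ := mul_le_mul_of_nonneg_left k1 (sq_nonneg a)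
  unfold EX at k4
  rwa [le_div_iff₀ (Zt_pos μ β)] at k4

/-- the variation of the observable -/
lemma dif_Fq {e m q r : ℕ} [NeZero m] {β C3 : ℝ} {a : ℝ}
    (ha3 : a ^ 2 * (q / (β * (q : ℝ) ^ (e + 1))) = 1 / q)
    (hD : EX μ L β (fun U : Ed (e + 3) (2 * m) → G =>
      (Fq L r q (tr (eT (Fin.last (e + 2))) U) - Fq L r q U) ^ 2) ≤
      C3 * (q / (β * (q : ℝ) ^ (e + 1)))) :
    Zt μ L β (fun U : Ed (e + 3) (2 * m) → G =>
      (a * Fq L r q (tr (eT (Fin.last (e + 2))) U) - a * Fq L r q U) ^ 2) ≤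
      C3 / q * Zt μ L β (fun _ : Ed (e + 3) (2 * m) → G => 1) := by
  have k3 : EX μ L β (fun U : Ed (e + 3) (2 * m) → G =>
      (a * Fq L r q (tr (eT (Fin.last (e + 2))) U) - a * Fq L r q U) ^ 2) =
      a ^ 2 * EX μ L β (fun U : Ed (e + 3) (2 * m) → G =>
        (Fq L r q (tr (eT (Fin.last (e + 2))) U) - Fq L r q U) ^ 2) := by
    rw [← EX_smul]
    congr 1
    funext U
    ring
  have k4 : EX μ L β (fun U : Ed (e + 3) (2 * m) → G =>
      (a * Fq L r q (tr (eT (Fin.last (e + 2))) U) - a * Fq L r q U) ^ 2) ≤ C3 / q := by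
    rw [k3]
    calc _ ≤ a ^ 2 * (C3 * (q / (β * (q : ℝ) ^ (e + 1)))) :=
          mul_le_mul_of_nonneg_left hD (sq_nonneg a)
      _ = C3 / q := by rw [mul_left_comm, ha3]; ring
  unfold EX at k4
  rwa [div_le_iff₀ (Zt_pos μ β)] at k4

/-- the exponent of the scale -/
def kap (e : ℕ) : ℕ := max 2 (e + 1)

/-- the exponent of the logarithm -/
def nul (e : ℕ) : ℕ := if e = 0 then 2 else 1

/-- truncated correlations of the observable -/
theorem trunc' (hn : 1 ≤ n) (hN : 1 ≤ N) (e : ℕ) {C0 : ℝ} (hC0 : 0 < C0)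
    (hcar : ∀ g : G, dv L g ^ 2 ≤ ∑ a, fi L a g ^ 2 + C0 * dv L g ^ 4) :
    ∃ c2 C4 cv : ℝ, 0 < c2 ∧ 0 < C4 ∧ 0 < cv ∧
    ∀ j q : ℕ, q = 2 ^ (j + 1) → C4 ≤ q → ∀ β : ℝ, 0 < β →
      c2 * ((q : ℝ) ^ kap e * ((j : ℝ) + 5) ^ nul e) ≤ β → ∀ (m : ℕ) [NeZero m],
      5 * (e + 3) * q < 2 * m → 32 * q ≤ 2 * m →
      cv ≤ Zt μ L β (fun U : Ed (e + 3) (2 * m) → G => (nc e q β * Fq L (j + 1) q U) *
          (nc e q β * Fq L (j + 1) q U)) / Zt μ L β (fun _ : Ed (e + 3) (2 * m) → G => 1) -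
        (Zt μ L β (fun U : Ed (e + 3) (2 * m) → G => nc e q β * Fq L (j + 1) q U) /
          Zt μ L β (fun _ : Ed (e + 3) (2 * m) → G => 1)) ^ 2 ∧
      ∀ k : ℕ, 1 ≤ k → k ≤ m →
      Real.exp (-(C4 / q * k)) *
        (Zt μ L β (fun U : Ed (e + 3) (2 * m) → G => (nc e q β * Fq L (j + 1) q U) *
          (nc e q β * Fq L (j + 1) q U)) / Zt μ L β (fun _ : Ed (e + 3) (2 * m) → G => 1) -
        (Zt μ L β (fun U : Ed (e + 3) (2 * m) → G => nc e q β * Fq L (j + 1) q U) /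
          Zt μ L β (fun _ : Ed (e + 3) (2 * m) → G => 1)) ^ 2) ≤
        Zt μ L β (fun U : Ed (e + 3) (2 * m) → G => (nc e q β * Fq L (j + 1) q U) *
          (nc e q β * Fq L (j + 1) q
            (tr (sv (Fin.last (e + 2)) ((2 * k - 1 : ℕ) : ZMod (2 * m))) U))) /
          Zt μ L β (fun _ : Ed (e + 3) (2 * m) → G => 1) -
        (Zt μ L β (fun U : Ed (e + 3) (2 * m) → G => nc e q β * Fq L (j + 1) q U) /
          Zt μ L β (fun _ : Ed (e + 3) (2 * m) → G => 1)) ^ 2 := by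
  have hN1 : (1 : ℝ) ≤ N := by exact_mod_cast hN
  obtain ⟨A, hA⟩ : ∃ A : ℝ, A = (30000 * N) ^ 2 := ⟨_, rfl⟩
  have hA1 : 1 ≤ A := by rw [hA]; nlinarith
  obtain ⟨c1, cv, hc1, hc11, hcv, hvar⟩ := var_low μ (L := L) hn hN e hC0 hcar hA1
  have hCD := CD_pos (e := e) hA1 hN
  refine ⟨1 / c1 + 20 * N * (e + 3), 9 * CD e N A / cv, cv, by positivity, by positivity, hcv,
    fun j q hqr hq' β hβ0 hqβ m _ hm hm32 => ?_⟩
  have hq : 1 ≤ q := by rw [hqr]; exact Nat.one_le_two_pow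
  have hq1 : (1 : ℝ) ≤ q := by exact_mod_cast hq
  have hq0 : (0 : ℝ) < q := by linarith
  have hm5 : 5 * q < 2 * m := by nlinarith
  have hm2 : 2 ≤ m := by omega
  have hj0 : (0 : ℝ) ≤ j := Nat.cast_nonneg j
  have he0 : (0 : ℝ) ≤ e := Nat.cast_nonneg e
  obtain ⟨lam, hlam⟩ : ∃ lam : ℝ, lam = lm e (j + 1) := ⟨_, rfl⟩
  have hlam1 : 1 ≤ lam := by rw [hlam]; exact lm_ge _ _
  obtain ⟨a0, ha0⟩ : ∃ a0 : ℝ, a0 = 30000 * N * Real.sqrt lam / Real.sqrt β := ⟨_, rfl⟩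
  have ha00 : 0 ≤ a0 := by rw [ha0]; positivity
  have haA : a0 ^ 2 ≤ A * lam / β := by
    rw [ha0, div_pow, mul_pow, Real.sq_sqrt (by linarith), Real.sq_sqrt hβ0.le, hA]
  have hS : SB μ L (e + 3) m β (fun k => a0 * Real.sqrt (2 ^ k)) (j + 1 + 3) := by
    rw [ha0, hlam]
    exact SB_all μ hN hβ0 (by rw [← hqr]; exact hm32)
  obtain ⟨Q, hQ⟩ : ∃ Q : ℝ, Q = (q : ℝ) ^ kap e * ((j : ℝ) + 5) ^ nul e := ⟨_, rfl⟩
  rw [← hQ] at hqβ
  -- the powers
  have hk2 : (q : ℝ) ^ 2 ≤ (q : ℝ) ^ kap e := pow_le_pow_right₀ hq1 (le_max_left _ _)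
  have hke : (q : ℝ) ^ (e + 1) ≤ (q : ℝ) ^ kap e := pow_le_pow_right₀ hq1 (le_max_right _ _)
  have hkq : (q : ℝ) ≤ (q : ℝ) ^ kap e := by
    calc (q : ℝ) = q ^ 1 := (pow_one _).symm
      _ ≤ q ^ kap e := pow_le_pow_right₀ hq1 (by unfold kap; omega)
  have hQ0 : 0 < Q := by rw [hQ]; positivity
  have l1 : ((j : ℝ) + 5) * lam ≤ ((j : ℝ) + 5) ^ nul e := by
    rw [hlam]
    unfold lm nul
    split_ifs with h
    · push_cast
      nlinarith
    · rw [pow_one, mul_one]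
  have l2 : lam ^ 2 ≤ ((j : ℝ) + 5) ^ nul e := by
    rw [hlam]
    unfold lm nul
    split_ifs with h
    · push_cast
      nlinarith
    · rw [pow_one, one_pow]
      linarith
  have l0 : 1 ≤ ((j : ℝ) + 5) ^ nul e := one_le_pow₀ (by linarith)
  have b1 : (q : ℝ) ^ 2 * ((j + 1 + 3 : ℕ) * lam) ≤ Q := by
    rw [hQ]
    refine mul_le_mul hk2 (le_trans ?_ l1) (by positivity) (by positivity)
    refine mul_le_mul_of_nonneg_right ?_ (by linarith)
    push_cast
    linarith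
  have b2 : (q : ℝ) ^ (e + 1) * lam ^ 2 ≤ Q := by
    rw [hQ]
    exact mul_le_mul hke l2 (by positivity) (by positivity)
  have b3 : (q : ℝ) ^ (e + 1) * ((j + 2 : ℕ) * lam) ≤ Q := by
    rw [hQ]
    refine mul_le_mul hke (le_trans ?_ l1) (by positivity) (by positivity)
    refine mul_le_mul_of_nonneg_right ?_ (by linarith)
    push_cast
    linarith
  have b4 : (q : ℝ) ≤ Q := by
    rw [hQ]
    calc (q : ℝ) = q * 1 := (mul_one _).symm
      _ ≤ _ := mul_le_mul hkq l0 (by norm_num) (by positivity)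
  have hc1Q : Q ≤ c1 * β := by
    have h1 : 1 / c1 * Q ≤ β := by
      refine le_trans (mul_le_mul_of_nonneg_right ?_ hQ0.le) hqβ
      have : (0 : ℝ) ≤ 20 * N * (e + 3) := by positivity
      linarith
    have h2 := mul_le_mul_of_nonneg_left h1 hc1.le
    rw [← mul_assoc, mul_one_div_cancel hc1.ne', one_mul] at h2
    exact h2
  have hQβ : Q ≤ β := by
    refine hc1Q.trans ?_
    calc c1 * β ≤ 1 * β := mul_le_mul_of_nonneg_right hc11 hβ0.le
      _ = β := one_mul _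
  have hNQ : 20 * N * (e + 3) * q ≤ β := by
    refine le_trans ?_ hqβ
    refine mul_le_mul ?_ b4 (by positivity) (by positivity)
    have : 0 < 1 / c1 := by positivity
    linarith
  have hv := hvar (j + 1) q β lam a0 hqr hβ0 hlam1 ha00 haA (b1.trans hc1Q) (b2.trans hc1Q) m hm5
    hS
  have hD := dif_bound μ (L := L) (n := n) (e := e) hm2 hN hβ0 hqr hm hA1 hlam1 haA hS
    (b3.trans hQβ) hNQ
  have ha := nc_pos (e := e) hq hβ0
  have ha2 := nc_sq (e := e) hq hβ0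
  have ha3 := nc_sq' (e := e) hq hβ0
  refine trunc_gen μ (L := L) (τ := Fin.last (e + 2)) hm2 hβ0.le
    (O := fun U : Ed (e + 3) (2 * m) → G => nc e q β * Fq L (j + 1) q U)
    (continuous_const.mul Fq_cont) (fun γ U => ?_) (fun U U' h => ?_) hcv hCD hq0 hq'
    (var_Fq μ ha ha2 hv) (dif_Fq μ ha3 hD)
  · have h1 : Fq L (j + 1) q (gt γ U) = Fq L (j + 1) q U :=
      Fq_GI (L := L) (q := q) hqr γ U
    show nc e q β * Fq L (j + 1) q (gt γ U) = nc e q β * Fq L (j + 1) q U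
    rw [h1]
  · have h1 : Fq L (j + 1) q U = Fq L (j + 1) q U' :=
      Fq_Sp (L := L) (q := q) (e := e) (m := m) hqr U U' h
    show nc e q β * Fq L (j + 1) q U = nc e q β * Fq L (j + 1) q U'
    rw [h1]

end

end Pool.Agent.MG990
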