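import Mathlib
import Pool.Agent.Y14.Main
import Pool.Agent.R990.MG.Fin

/-!
# The mass gap at weak coupling
-/

open MeasureTheory Matrix Filter
open scoped Matrix.Norms.Frobenius Topology

namespace Pool.Agent.MG990

set_option linter.unusedSectionVars false
set_option linter.unusedVariables false

noncomputable section

/-- the bound of the mass gap in dimension `D + 1` -/
def rate (D : ℕ) (β : ℝ) : ℝ :=
  if D = 2 then Real.log β / Real.sqrt β else (Real.log β / β) ^ (1 / ((D : ℝ) - 1))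

/-- the choice of the scale -/
lemma scale2 {c2 C4 : ℝ} (hc2 : 0 < c2) (hC4 : 0 < C4) {κ ν : ℕ} (hκ : 1 ≤ κ) :
    ∃ β₀ C5 : ℝ, 3 ≤ β₀ ∧ 0 < C5 ∧ ∀ β : ℝ, β₀ ≤ β → ∀ x : ℝ, 0 < x →
      x ^ κ = Real.log β ^ ν / β → ∃ j : ℕ, C4 ≤ (2 : ℝ) ^ (j + 1) ∧
      c2 * (((2 : ℝ) ^ (j + 1)) ^ κ * ((j : ℝ) + 5) ^ ν) ≤ β ∧ (2 : ℝ) ^ (j + 1) * x ≤ C5 ∧
      C4 / 2 ^ (j + 1) ≤ C5 * x := by
  obtain ⟨f, hf⟩ : ∃ f : ℕ → ℝ, f = fun j : ℕ =>
      c2 * (((2 : ℝ) ^ (j + 1)) ^ κ * ((j : ℝ) + 5) ^ ν) := ⟨_, rfl⟩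
  have hfm : Monotone f := by
    intro a b hab
    rw [hf]
    have h1 : (a : ℝ) ≤ b := by exact_mod_cast hab
    have h0 : (0 : ℝ) ≤ a := Nat.cast_nonneg a
    have h2 : ((2 : ℝ) ^ (a + 1)) ^ κ ≤ ((2 : ℝ) ^ (b + 1)) ^ κ :=
      pow_le_pow_left₀ (by positivity) (pow_le_pow_right₀ (by norm_num) (by omega)) κ
    have h3 : ((a : ℝ) + 5) ^ ν ≤ ((b : ℝ) + 5) ^ ν :=
      pow_le_pow_left₀ (by positivity) (by linarith) ν
    exact mul_le_mul_of_nonneg_left (mul_le_mul h2 h3 (by positivity) (by positivity)) hc2.le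
  have hflow : ∀ j : ℕ, c2 * 2 ^ (j + 1) ≤ f j := by
    intro j
    rw [hf]
    have h1 : (1 : ℝ) ≤ (2 : ℝ) ^ (j + 1) := one_le_pow₀ (by norm_num)
    have h2 : (2 : ℝ) ^ (j + 1) ≤ ((2 : ℝ) ^ (j + 1)) ^ κ := by
      calc (2 : ℝ) ^ (j + 1) = ((2 : ℝ) ^ (j + 1)) ^ 1 := (pow_one _).symm
        _ ≤ _ := pow_le_pow_right₀ h1 hκ
    have h3 : (1 : ℝ) ≤ ((j : ℝ) + 5) ^ ν :=
      one_le_pow₀ (by have : (0 : ℝ) ≤ j := Nat.cast_nonneg j; linarith)
    refine mul_le_mul_of_nonneg_left ?_ hc2.le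
    calc (2 : ℝ) ^ (j + 1) = 2 ^ (j + 1) * 1 := (mul_one _).symm
      _ ≤ _ := mul_le_mul h2 h3 (by norm_num) (by positivity)
  obtain ⟨j0, hj0⟩ : ∃ j0 : ℕ, C4 ≤ (2 : ℝ) ^ (j0 + 1) := by
    obtain ⟨k, hk⟩ := pow_unbounded_of_one_lt C4 (show (1 : ℝ) < 2 by norm_num)
    exact ⟨k, hk.le.trans (pow_le_pow_right₀ (by norm_num) (by omega))⟩
  obtain ⟨a, ha⟩ : ∃ a : ℝ, a = |Real.log c2| := ⟨_, rfl⟩
  have ha0 : 0 ≤ a := by rw [ha]; exact abs_nonneg _
  obtain ⟨La, hLa⟩ : ∃ La : ℝ, La = a + κ + 2 * ν := ⟨_, rfl⟩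
  obtain ⟨Lb, hLb⟩ : ∃ Lb : ℝ, Lb = 7 + 2 * a := ⟨_, rfl⟩
  have hLa0 : 0 ≤ La := by rw [hLa]; positivity
  have hLb0 : 0 ≤ Lb := by rw [hLb]; positivity
  obtain ⟨Ca, hCa⟩ : ∃ Ca : ℝ, Ca = max 1 (La ^ ν / c2) := ⟨_, rfl⟩
  obtain ⟨Cb, hCb⟩ : ∃ Cb : ℝ, Cb = max 1 (c2 * 2 ^ κ * Lb ^ ν) := ⟨_, rfl⟩
  have hCa1 : 1 ≤ Ca := by rw [hCa]; exact le_max_left _ _
  have hCb1 : 1 ≤ Cb := by rw [hCb]; exact le_max_left _ _
  refine ⟨max 3 (f j0), max Ca (C4 * Cb), le_max_left _ _,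
    lt_of_lt_of_le (by linarith) (le_max_left _ _), fun β hβ x hx hxκ => ?_⟩
  have hβ3 : 3 ≤ β := (le_max_left _ _).trans hβ
  have hβ0 : 0 < β := by linarith
  have hlog1 : 1 ≤ Real.log β := by
    have h1 : Real.log (Real.exp 1) ≤ Real.log β :=
      Real.log_le_log (Real.exp_pos 1) (by have := Real.exp_one_lt_d9; linarith)
    rwa [Real.log_exp] at h1
  have hex : ∃ k, β < f k := by
    obtain ⟨k, hk⟩ := pow_unbounded_of_one_lt (β / c2) (show (1 : ℝ) < 2 by norm_num)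
    refine ⟨k, lt_of_lt_of_le ?_ (hflow k)⟩
    rw [div_lt_iff₀ hc2] at hk
    have h2 : (2 : ℝ) ^ k ≤ 2 ^ (k + 1) := pow_le_pow_right₀ (by norm_num) (by omega)
    nlinarith
  classical
  obtain ⟨k, hk⟩ : ∃ k, k = Nat.find hex := ⟨_, rfl⟩
  have hk1 : β < f k := by rw [hk]; exact Nat.find_spec hex
  have hk2 : ∀ i < k, f i ≤ β := fun i hi => by
    rw [hk] at hi
    exact not_lt.1 (Nat.find_min hex hi)
  have hkj : j0 < k := by
    by_contra h
    push Not at h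
    have := hfm h
    linarith [(le_max_right 3 (f j0)).trans hβ]
  obtain ⟨j, hj⟩ : ∃ j, k = j + 1 := ⟨k - 1, by omega⟩
  rw [hj] at hk1 hkj
  have hj2 : f j ≤ β := hk2 j (by omega)
  have hjr : (0 : ℝ) ≤ j := Nat.cast_nonneg j
  obtain ⟨q, hq⟩ : ∃ q : ℝ, q = (2 : ℝ) ^ (j + 1) := ⟨_, rfl⟩
  have hq0 : 0 < q := by rw [hq]; positivity
  have hq1 : 1 ≤ q := by rw [hq]; exact one_le_pow₀ (by norm_num)
  have hfj : f j = c2 * (q ^ κ * ((j : ℝ) + 5) ^ ν) := by rw [hf, hq]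
  have hfk : f (j + 1) = c2 * (2 ^ κ * q ^ κ * ((j : ℝ) + 6) ^ ν) := by
    rw [hf, hq]
    push_cast
    rw [← mul_pow, show (j : ℝ) + 1 + 5 = j + 6 by ring, show (2 : ℝ) ^ (j + 1 + 1) =
      2 * 2 ^ (j + 1) by ring]
  -- upper bound of the logarithm
  have hlogq : Real.log q = (j + 1) * Real.log 2 := by
    rw [hq, Real.log_pow]
    push_cast
    ring
  have hlog2 : Real.log 2 ≤ 1 := by have := Real.log_two_lt_d9; linarith
  have hlog2' : 1 / 2 ≤ Real.log 2 := by have := Real.log_two_gt_d9; linarith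
  have hlc : -a ≤ Real.log c2 ∧ Real.log c2 ≤ a := by rw [ha]; exact ⟨neg_abs_le _, le_abs_self _⟩
  have u1 : Real.log β ≤ La * (j + 5) := by
    have h1 : Real.log β ≤ Real.log (f (j + 1)) := Real.log_le_log hβ0 hk1.le
    have h2 : Real.log (f (j + 1)) = Real.log c2 + (κ * Real.log 2 + κ * Real.log q +
        ν * Real.log ((j : ℝ) + 6)) := by
      rw [hfk, Real.log_mul hc2.ne' (by positivity), Real.log_mul (by positivity) (by positivity),
        Real.log_mul (by positivity) (by positivity), Real.log_pow, Real.log_pow, Real.log_pow]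
    have h3 : Real.log ((j : ℝ) + 6) ≤ j + 5 := by
      have := Real.log_le_sub_one_of_pos (show (0 : ℝ) < (j : ℝ) + 6 by linarith)
      linarith
    have h4 : Real.log 2 + Real.log q ≤ j + 2 := by
      rw [hlogq]
      nlinarith
    have h5 : (κ : ℝ) * Real.log 2 + κ * Real.log q ≤ κ * (j + 2) := by
      rw [← mul_add]
      exact mul_le_mul_of_nonneg_left h4 (Nat.cast_nonneg κ)
    have h6 : (ν : ℝ) * Real.log ((j : ℝ) + 6) ≤ ν * (j + 5) :=
      mul_le_mul_of_nonneg_left h3 (Nat.cast_nonneg ν)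
    have hκ0 : (0 : ℝ) ≤ κ := Nat.cast_nonneg κ
    have hν0 : (0 : ℝ) ≤ ν := Nat.cast_nonneg ν
    rw [hLa]
    have h7 : a ≤ a * (j + 5) := le_mul_of_one_le_right ha0 (by linarith)
    have h8 : (κ : ℝ) * (j + 2) ≤ κ * (j + 5) := mul_le_mul_of_nonneg_left (by linarith) hκ0
    have h9 : (ν : ℝ) * (j + 5) ≤ 2 * ν * (j + 5) := by nlinarith
    rw [h2] at h1
    linarith [hlc.2]
  have u2 : (j : ℝ) + 6 ≤ Lb * Real.log β := by
    have h1 : Real.log (c2 * q) ≤ Real.log β := by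
      refine Real.log_le_log (by positivity) (le_trans ?_ hj2)
      rw [hq]
      exact hflow j
    rw [Real.log_mul hc2.ne' hq0.ne', hlogq] at h1
    rw [hLb]
    nlinarith [hlc.1]
  refine ⟨j, ?_, ?_, ?_, ?_⟩
  · exact hj0.trans (pow_le_pow_right₀ (by norm_num) (by omega))
  · rw [← hq, ← hfj]
    exact hj2
  · rw [← hq]
    refine le_trans ?_ (le_max_left _ _)
    refine le_of_pow_le_pow_left₀ (n := κ) (by omega) (by linarith) ?_
    rw [mul_pow, hxκ]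
    have h1 : Real.log β ^ ν ≤ La ^ ν * ((j : ℝ) + 5) ^ ν := by
      rw [← mul_pow]
      exact pow_le_pow_left₀ (by linarith) u1 ν
    have h2 : q ^ κ * (Real.log β ^ ν / β) ≤ La ^ ν / c2 := by
      rw [mul_div_assoc', div_le_div_iff₀ hβ0 hc2]
      calc q ^ κ * Real.log β ^ ν * c2 ≤ q ^ κ * (La ^ ν * ((j : ℝ) + 5) ^ ν) * c2 :=
            mul_le_mul_of_nonneg_right (mul_le_mul_of_nonneg_left h1 (by positivity)) hc2.le
        _ = La ^ ν * f j := by rw [hfj]; ring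
        _ ≤ La ^ ν * β := mul_le_mul_of_nonneg_left hj2 (by positivity)
    refine h2.trans ?_
    calc La ^ ν / c2 ≤ Ca := by rw [hCa]; exact le_max_right _ _
      _ = Ca ^ 1 := (pow_one _).symm
      _ ≤ Ca ^ κ := pow_le_pow_right₀ hCa1 hκ
  · rw [← hq]
    have h1 : 1 / q ≤ Cb * x := by
      refine le_of_pow_le_pow_left₀ (n := κ) (by omega) (by positivity) ?_
      rw [mul_pow, hxκ, div_pow, one_pow]
      have h2 : ((j : ℝ) + 6) ^ ν ≤ Lb ^ ν * Real.log β ^ ν := by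
        rw [← mul_pow]
        exact pow_le_pow_left₀ (by linarith) u2 ν
      have h3 : 1 / q ^ κ ≤ c2 * 2 ^ κ * Lb ^ ν * (Real.log β ^ ν / β) := by
        rw [mul_div_assoc', div_le_div_iff₀ (by positivity) hβ0, one_mul]
        calc β ≤ f (j + 1) := hk1.le
          _ = c2 * (2 ^ κ * q ^ κ) * ((j : ℝ) + 6) ^ ν := by rw [hfk]; ring
          _ ≤ c2 * (2 ^ κ * q ^ κ) * (Lb ^ ν * Real.log β ^ ν) :=
              mul_le_mul_of_nonneg_left h2 (by positivity)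
          _ = _ := by ring
      have hlb : 0 ≤ Real.log β ^ ν / β := by positivity
      refine h3.trans (mul_le_mul_of_nonneg_right ?_ hlb)
      calc c2 * 2 ^ κ * Lb ^ ν ≤ Cb := by rw [hCb]; exact le_max_right _ _
        _ = Cb ^ 1 := (pow_one _).symm
        _ ≤ Cb ^ κ := pow_le_pow_right₀ hCb1 hκ
    calc C4 / q = C4 * (1 / q) := by ring
      _ ≤ C4 * (Cb * x) := mul_le_mul_of_nonneg_left h1 hC4.le
      _ = C4 * Cb * x := by ring
      _ ≤ _ := mul_le_mul_of_nonneg_right (le_max_right _ _) hx.le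

/-- the powers of the bound -/
lemma rate_pow {e : ℕ} {β : ℝ} (hβ : 3 ≤ β) : 0 < rate (e + 2) β ∧
    rate (e + 2) β ^ kap e = Real.log β ^ nul e / β := by
  have hβ0 : 0 < β := by linarith
  have hlog : 0 < Real.log β := Real.log_pos (by linarith)
  unfold rate kap nul
  by_cases h : e = 0
  · subst h
    rw [if_pos rfl, if_pos rfl]
    refine ⟨by positivity, ?_⟩
    rw [show max 2 (0 + 1) = 2 by rfl, div_pow, Real.sq_sqrt hβ0.le]
  · rw [if_neg (by omega), if_neg h, max_eq_right (by omega), pow_one]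
    have h1 : 0 < Real.log β / β := by positivity
    refine ⟨Real.rpow_pos_of_pos h1 _, ?_⟩
    rw [← Real.rpow_natCast, ← Real.rpow_mul h1.le]
    have h2 : (1 / (((e + 2 : ℕ) : ℝ) - 1)) * ((e + 1 : ℕ) : ℝ) = 1 := by
      push_cast
      have : (0 : ℝ) ≤ e := Nat.cast_nonneg e
      rw [show (e : ℝ) + 2 - 1 = e + 1 by ring]
      field_simp
    rw [h2, Real.rpow_one]

end

end Pool.Agent.MG990

namespace Pool.Agent.MG990.Wilson

set_option linter.unusedSectionVars false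

noncomputable section

open Pool.Agent Pool.Agent.H906R3 Pool.Agent.W793 Pool.Agent.TH618
open Pool.Agent.Y14.Wilson

variable {N n d l D : ℕ} {G : Subgroup (UU N)}

section bridge

variable [CompactSpace G] [SecondCountableTopology G] [MeasurableSpace G] [BorelSpace G]
  (μ : Measure G) [IsProbabilityMeasure μ] [μ.IsHaarMeasure] (B : LieBasis G n)

/-- the observable on the infinite lattice -/
def FZ (B : LieBasis G n) (e r q : ℕ) (a : ℝ) (V : LinkZ (e + 2 + 1) → G) : ℝ :=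
  a * ‖MG990.phi (fun k => (Pi.single k 1 : Fin (e + 3) → ℤ)) (ld B) r q V 0‖

lemma FZ_cont (e r q : ℕ) (a : ℝ) : Continuous (FZ B e r q a) := by
  have h0 : ∀ (w w' : List (Fin (e + 3))), Continuous fun V : LinkZ (e + 2 + 1) → G =>
      MG990.pp (fun k => (Pi.single k 1 : Fin (e + 3) → ℤ)) (ld B) V 0
        (0 + (2 * q) • Pi.single 0 1) w w' := fun w w' =>
    ((ld B).cont.comp (Y14.tp_cont 0 w)).mul
      ((YM.ctL N).continuous.comp ((ld B).cont.comp (Y14.tp_cont _ w')))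
  have h1 : Continuous fun V : LinkZ (e + 2 + 1) → G => ∑ o : Y14.OO e q,
      (MG990.pp (fun k => (Pi.single k 1 : Fin (e + 3) → ℤ)) (ld B) V 0
        (0 + (2 * q) • Pi.single 0 1) (MG990.PA r o) (MG990.PB r o) -
      MG990.pp (fun k => (Pi.single k 1 : Fin (e + 3) → ℤ)) (ld B) V 0
        (0 + (2 * q) • Pi.single 0 1) (MG990.QA r o) (MG990.QB r o)) :=
    continuous_finsetSum _ fun o _ => (h0 _ _).sub (h0 _ _)
  exact continuous_const.mul
    (h1.const_smul ((Fintype.card (Y14.OO e q) : ℝ))⁻¹).norm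

lemma FZ_local {e r q R : ℕ} (hqr : q = 2 ^ r) (hR : 7 * q < R) (a : ℝ) :
    IsLocal R (FZ B e r q a) where
  cont := FZ_cont B e r q a
  inv γ V := by
    have h := MG990.phi_gauge (u := fun k => (Pi.single k 1 : Fin (e + 3) → ℤ)) (L := ld B) hqr
      γ V 0
    have h1 : (gauge γ V : LinkZ (e + 2 + 1) → G) =
      fun f => γ f.1 * V f * (γ (f.1 + Pi.single f.2 1))⁻¹ := rfl
    unfold FZ
    rw [h1, h, ← (ld B).rho_inv, YM.norm_rmul, YM.norm_lmul]
  loc V V' h := by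
    unfold FZ
    rw [MG990.phi_congr hqr (U := V) (U' := V') fun w1 hw1 hl i hi => ?_]
    refine h _ fun j => ?_
    simp only [zero_add]
    rw [dspZ]
    have h1 := hw1 j
    constructor
    · exact Int.natCast_nonneg _
    · have : w1.count j < R := by omega
      exact_mod_cast this

omit [CompactSpace G] [SecondCountableTopology G] [MeasurableSpace G] [BorelSpace G] in
lemma FZ_time {e r q : ℕ} (hqr : q = 2 ^ r) (a : ℝ) : AtTimeZero (FZ B e r q a) := by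
  intro V V' h
  unfold FZ
  rw [MG990.phi_congr hqr (U := V) (U' := V') fun w1 hw1 hl i hi => ?_]
  refine h _ ?_ hi
  simp only [zero_add]
  rw [dspZ, hl, Nat.cast_zero]

omit [CompactSpace G] [SecondCountableTopology G] [MeasurableSpace G] [BorelSpace G] in
lemma FZ_lf {e r q m : ℕ} [NeZero m] (a : ℝ) (U : YM.Ed (e + 2 + 1) (2 * m) → G) :
    FZ B e r q a (YM.lf U) = a * MG990.Fq (ld B) r q U := by
  unfold FZ MG990.Fq
  have h := MG990.phi_map (L := ld B) (q := q) (r := r)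
    (u := fun k => (Pi.single k 1 : Fin (e + 3) → ℤ))
    (u' := YM.eT) (U := YM.lf U) (U' := U) (prj (e + 3) (2 * m)) (fun i => by
      funext j
      show ((Pi.single i 1 : Fin (e + 3) → ℤ) j : ZMod (2 * m)) = YM.eT i j
      by_cases h : j = i
      · subst h; simp [YM.eT]
      · simp [YM.eT, h]) (fun f => rfl) 0
  rw [h, map_zero]

include B in
theorem finite_part (hG : IsClosed (G : Set (UU N))) (hn : 1 ≤ n) (hN : 1 ≤ N) (e : ℕ) :
    ∃ C c β₀ : ℝ, 0 < C ∧ 0 < c ∧ 3 ≤ β₀ ∧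
    ∀ β : ℝ, β₀ ≤ β → ∃ (R : ℕ) (F : (LinkZ (e + 2 + 1) → G) → ℝ),
      (R : ℝ) * rate (e + 2) β ≤ C ∧ IsLocal R F ∧ AtTimeZero F ∧
      ∀ (l : ℕ) [NeZero l], Even l → R < l → c ≤ corr l μ β F 0 ∧ ∀ t : ℕ, Odd t → t < l →
        Real.exp (-(C * rate (e + 2) β * t)) * corr l μ β F 0 ≤ corr l μ β F t := by
  have := right_inv μ
  have := inv_inv' μ
  obtain ⟨C0, hC0, hcar⟩ := YM.cartan' (fm B) hG
  obtain ⟨c2, C4, c1, hc2, hC4, hc1, htr⟩ := MG990.trunc' μ (L := ld B) hn hN e hC0 hcar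
  obtain ⟨β₀, C5, hβ₀, hC5, hsc⟩ := scale2 hc2 hC4 (κ := kap e) (ν := nul e)
    (by unfold kap; omega)
  have hE : (0 : ℝ) ≤ e := Nat.cast_nonneg e
  refine ⟨(5 * (e + 3) + 33) * C5, c1, β₀, by positivity, hc1, hβ₀, fun β hβ => ?_⟩
  have hβ3 : 3 ≤ β := hβ₀.trans hβ
  have hβ0 : 0 < β := by linarith
  obtain ⟨hx, hxp⟩ := rate_pow (e := e) hβ3
  obtain ⟨x, hxd⟩ : ∃ x, x = rate (e + 2) β := ⟨_, rfl⟩
  rw [← hxd] at hx hxp ⊢
  obtain ⟨j, hq2, hq3, hq4, hq5⟩ := hsc β hβ x hx hxp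
  obtain ⟨q, hq⟩ : ∃ q : ℕ, q = 2 ^ (j + 1) := ⟨_, rfl⟩
  have hqR : ((2 : ℝ) ^ (j + 1)) = q := by rw [hq]; push_cast; ring
  rw [hqR] at hq2 hq3 hq4 hq5
  have hq1 : 1 ≤ q := by rw [hq]; exact Nat.one_le_two_pow
  obtain ⟨a, ha⟩ : ∃ a, a = Y14.nc e q β := ⟨_, rfl⟩
  obtain ⟨F, hF⟩ : ∃ F : (LinkZ (e + 2 + 1) → G) → ℝ, F = FZ B e (j + 1) q a := ⟨_, rfl⟩
  have hq5q : 7 * q < 5 * (e + 3) * q + 32 * q + 1 := by nlinarith
  refine ⟨5 * (e + 3) * q + 32 * q + 1, F, ?_, by rw [hF]; exact FZ_local B hq hq5q a,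
    by rw [hF]; exact FZ_time B hq a, ?_⟩
  · push_cast
    have h1 : (1 : ℝ) ≤ q := by exact_mod_cast hq1
    calc (5 * ((e : ℝ) + 3) * q + 32 * q + 1) * x ≤ ((5 * (e + 3) + 33) * q) * x :=
          mul_le_mul_of_nonneg_right (by linarith) hx.le
      _ = (5 * (e + 3) + 33) * (q * x) := by ring
      _ ≤ (5 * (e + 3) + 33) * C5 := mul_le_mul_of_nonneg_left hq4 (by positivity)
  · intro l _ hl hRl
    obtain ⟨m, rfl⟩ := even_iff_two_dvd.1 hl
    haveI hm0 : NeZero m := ⟨by rintro rfl; omega⟩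
    obtain ⟨h0, h1⟩ := htr j q hq hq2 β hβ0 hq3 m (by omega) (by omega)
    rw [← ha] at h0 h1
    have hFO : ∀ U : YM.Ed (e + 2 + 1) (2 * m) → G, F (YM.lf U) =
        a * MG990.Fq (ld B) (j + 1) q U :=
      fun U => by rw [hF]; exact FZ_lf B a U
    have hsh : ∀ (t : ℕ) (U : YM.Ed (e + 2 + 1) (2 * m) → G), F (shift t (YM.lf U)) =
        a * MG990.Fq (ld B) (j + 1) q
          (YM.tr (YM.sv (Fin.last (e + 2)) (t : ZMod (2 * m))) U) := by
      intro t U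
      rw [← hFO]
      exact congrArg F (YM.tz_lf (Fin.last (e + 2)) t U)
    have h2 : ∀ t : ℕ, corr (2 * m) μ β F t =
        YM.Zt μ (ld B) β (fun U : YM.Ed (e + 3) (2 * m) → G =>
          (a * MG990.Fq (ld B) (j + 1) q U) * (a * MG990.Fq (ld B) (j + 1) q
            (YM.tr (YM.sv (Fin.last (e + 2)) (t : ZMod (2 * m))) U))) /
          YM.Zt μ (ld B) β (fun _ : YM.Ed (e + 3) (2 * m) → G => 1) -
        (YM.Zt μ (ld B) β (fun U : YM.Ed (e + 3) (2 * m) → G =>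
          a * MG990.Fq (ld B) (j + 1) q U) /
          YM.Zt μ (ld B) β (fun _ : YM.Ed (e + 3) (2 * m) → G => 1)) ^ 2 := by
      intro t
      unfold corr
      rw [expect_eq μ B, expect_eq μ B, expect_eq μ B]
      simp only [hFO, hsh]
      rw [YM.Zt_tr μ β _ (fun U : YM.Ed (e + 3) (2 * m) → G =>
        a * MG990.Fq (ld B) (j + 1) q U), pow_two]
    have h3 : corr (2 * m) μ β F 0 =
        YM.Zt μ (ld B) β (fun U : YM.Ed (e + 3) (2 * m) → G =>
          (a * MG990.Fq (ld B) (j + 1) q U) * (a * MG990.Fq (ld B) (j + 1) q U)) /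
          YM.Zt μ (ld B) β (fun _ : YM.Ed (e + 3) (2 * m) → G => 1) -
        (YM.Zt μ (ld B) β (fun U : YM.Ed (e + 3) (2 * m) → G =>
          a * MG990.Fq (ld B) (j + 1) q U) /
          YM.Zt μ (ld B) β (fun _ : YM.Ed (e + 3) (2 * m) → G => 1)) ^ 2 := by
      have hs0 : YM.sv (Fin.last (e + 2)) ((0 : ℕ) : ZMod (2 * m)) = 0 := by
        rw [Nat.cast_zero]
        exact Pi.single_zero _
      rw [h2, hs0]
      simp only [YM.tr_zero]
    rw [← h3] at h0 h1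
    refine ⟨h0, fun t ht htl => ?_⟩
    obtain ⟨k', hk'⟩ := ht
    obtain ⟨k, hk⟩ : ∃ k, k = k' + 1 := ⟨_, rfl⟩
    have hkt : t = 2 * k - 1 := by omega
    have h4 := h1 k (by omega) (by omega)
    rw [← hkt, ← h2] at h4
    refine le_trans (mul_le_mul_of_nonneg_right (Real.exp_le_exp.2 (neg_le_neg ?_))
      (hc1.le.trans h0)) h4
    have h3 : (k : ℝ) ≤ t := by
      have : k ≤ t := by omega
      exact_mod_cast this
    have h4 : 0 ≤ C4 / q := by positivity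
    have h5 : (0 : ℝ) ≤ t := Nat.cast_nonneg t
    calc C4 / q * k ≤ C4 / q * t := mul_le_mul_of_nonneg_left h3 h4
      _ ≤ (5 * (e + 3) + 33) * C5 * x * t := by
          refine mul_le_mul_of_nonneg_right (hq5.trans ?_) h5
          have h6 : 0 ≤ C5 * x := by positivity
          have h7 : (1 : ℝ) ≤ 5 * (e + 3) + 33 := by linarith
          calc C5 * x = 1 * (C5 * x) := (one_mul _).symm
            _ ≤ (5 * (e + 3) + 33) * (C5 * x) := mul_le_mul_of_nonneg_right h7 h6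
            _ = _ := by ring

end bridge

theorem main {N n D : ℕ} (G : Subgroup (UU N)) (hG : IsClosed (G : Set (UU N)))
    [MeasurableSpace G] [BorelSpace G] (μ : Measure G) [IsProbabilityMeasure μ] [μ.IsHaarMeasure]
    (B : LieBasis G n) (hn : 1 ≤ n) (hD : 2 ≤ D) :
    ∃ C c β₀ : ℝ, 0 < C ∧ 0 < c ∧ 1 < β₀ ∧ ∀ β : ℝ, β₀ ≤ β →
      (∃ (R : ℕ) (F : (LinkZ (D + 1) → G) → ℝ), (R : ℝ) * rate D β ≤ C ∧
        IsLocal R F ∧ AtTimeZero F ∧
        (∀ (l : ℕ) [NeZero l], Even l → R < l → c ≤ corr l μ β F 0 ∧ ∀ t : ℕ, Odd t → t < l →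
          Real.exp (-(C * rate D β * t)) * corr l μ β F 0 ≤ corr l μ β F t) ∧
        ∀ ν : Measure (LinkZ (D + 1) → G), IsInfVol μ β ν → c ≤ corrZ ν F 0 ∧
          ∀ t : ℕ, Odd t → Real.exp (-(C * rate D β * t)) * corrZ ν F 0 ≤ corrZ ν F t) ∧
      (∀ M : ℝ, Clusters D μ β M → M ≤ C * rate D β) ∧
      (∀ ν : Measure (LinkZ (D + 1) → G), IsInfVol μ β ν → ∀ M : ℝ, ClustersZ ν M →
        M ≤ C * rate D β) ∧
      ∃ ν : Measure (LinkZ (D + 1) → G), IsInfVol μ β ν := by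
  have : CompactSpace G := by
    have h1 : IsCompact (G : Set (UU N)) := hG.isCompact
    exact isCompact_iff_compactSpace.1 h1
  have h00 : SecondCountableTopology (UU N) := TopologicalSpace.Subtype.secondCountableTopology _
  have : SecondCountableTopology G := TopologicalSpace.Subtype.secondCountableTopology _
  obtain ⟨e, rfl⟩ : ∃ e, D = e + 2 := ⟨D - 2, by omega⟩
  have hN : 1 ≤ N := by
    rcases Nat.eq_zero_or_pos N with h | h
    · subst h
      have h1 := B.orth ⟨0, hn⟩ ⟨0, hn⟩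
      rw [if_pos rfl] at h1
      have h2 : trace ((B.X ⟨0, hn⟩)ᴴ * B.X ⟨0, hn⟩) = 0 := by
        unfold Matrix.trace
        exact Finset.sum_empty
      rw [h2] at h1
      norm_num at h1
    · exact h
  obtain ⟨C, c, β₀, hC, hc, hβ₀, hmain⟩ := finite_part μ B hG hn hN e
  refine ⟨C, c, β₀, hC, hc, by linarith, fun β hβ => ?_⟩
  obtain ⟨R, F, hR, hF, hF0, hcorr⟩ := hmain β hβ
  obtain ⟨A, hA⟩ : ∃ A : ℝ, A = C * rate (e + 2) β := ⟨_, rfl⟩
  rw [← hA] at hcorr ⊢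
  have hcorr' : ∀ (l : ℕ) [NeZero l], Even l → R < l → ∀ t : ℕ, Odd t → t < l →
      c * Real.exp (-(A * t)) ≤ corr l μ β F t := by
    intro l _ hl hRl t ht htl
    obtain ⟨h1, h2⟩ := hcorr l hl hRl
    rw [mul_comm]
    exact (mul_le_mul_of_nonneg_left h1 (Real.exp_pos _).le).trans (h2 t ht htl)
  have hinf : ∀ ν : Measure (LinkZ (e + 2 + 1) → G), IsInfVol μ β ν → c ≤ corrZ ν F 0 ∧
      ∀ t : ℕ, Odd t → Real.exp (-(A * t)) * corrZ ν F 0 ≤ corrZ ν F t := by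
    intro ν hν
    obtain ⟨φ, hφ, hlim⟩ := hν.lim
    have h1 : ∀ t, Tendsto (fun j => corr (2 * (φ j + 1)) μ β F t) atTop (𝓝 (corrZ ν F t)) :=
      fun t => (hlim _ _ (local_mul hF t)).sub
        ((hlim _ _ hF).mul (hlim _ _ (local_shift hF t)))
    refine ⟨ge_of_tendsto (h1 0) ?_, fun t ht =>
      le_of_tendsto_of_tendsto ((h1 0).const_mul _) (h1 t) ?_⟩
    · filter_upwards [hφ.eventually_ge_atTop R] with j hj
      exact (hcorr (2 * (φ j + 1)) (even_two_mul _) (by omega)).1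
    · filter_upwards [hφ.eventually_ge_atTop (R + t)] with j hj
      exact (hcorr (2 * (φ j + 1)) (even_two_mul _) (by omega)).2 t ht (by omega)
  refine ⟨⟨R, F, hR, hF, hF0, hcorr, hinf⟩, fun M hM => ?_, fun ν hν M hM => ?_,
    exists_infVol μ B β⟩
  · obtain ⟨K, l₀, hK⟩ := hM R F hF hF0
    refine Y14.Wilson.rate (K := K) hc fun t ht => ?_
    obtain ⟨l, hl⟩ : ∃ l, l = 2 * (l₀ + R + t + 1) := ⟨_, rfl⟩
    haveI : NeZero l := ⟨by omega⟩
    have h1 : Even l := by rw [hl]; exact even_two_mul _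
    exact (hcorr' l h1 (by omega) t ht (by omega)).trans
      ((le_abs_self _).trans (hK l h1 (by omega) t (by omega)))
  · obtain ⟨K, hK⟩ := hM R F hF hF0
    obtain ⟨h1, h2⟩ := hinf ν hν
    refine Y14.Wilson.rate (K := K) hc fun t ht => ?_
    rw [mul_comm]
    exact ((mul_le_mul_of_nonneg_left h1 (Real.exp_pos _).le).trans (h2 t ht)).trans
      ((le_abs_self _).trans (hK t))

end

end Pool.Agent.MG990.Wilson
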